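import Pool.Agent.Work.MP_a5099b_nt.B.PhiJ

/-!
# Module B.Diag (M)

Degree and leading coefficient of `Φ_n(X, X)`. Put `K = ℂ`, `J = lmap (Int.castRingHom ℂ) Jq`, `q = t^n`. By
`PhiAt_prod` and `PhiDiag_aeval`, `aeval (lexp n J) (PhiDiag n) = (J(t^n) - J(t^(n^2))) ∏_b (J(t^n) - J(ζ^b t))`. The
first factor has order `-n^2` and leading coefficient `-1` (`n^2 > n`), each other factor has order `-n` and
leading coefficient `1` (`n > 1`). So the product has order `-2n^2` and leading coefficient `-1`
(`HahnSeries.order_mul`, `HahnSeries.leadingCoeff_mul`). On the other hand, for `P ∈ ℤ[X]` of degree `d` with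
leading coefficient `c`, `P(J(t^n))` has order `-n d` and leading coefficient `c` (`J(t^n) = t^(-n) + ...`). So
`d = 2n`, `c = -1`. (`PhiDiag n ≠ 0` as its value is not zero.)
-/

set_option autoImplicit false

namespace Pool.Agent.SS

open UpperHalfPlane Polynomial
open Pool.Agent.Work.CM (IsLat g2 g3 tauLat)
open scoped Pointwise MatrixGroups

/-! ### leading terms of Laurent series -/

/-- `a = t^(-d) (c + ...)` -/
private def LD {A : Type*} [CommRing A] (a : LaurentSeries A) (d : ℤ) (c : A) : Prop :=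
  a.coeff (-d) = c ∧ ∀ m : ℤ, m < -d → a.coeff m = 0

section LD
variable {A B : Type*} [CommRing A] [CommRing B]

private theorem LD.ps {a : LaurentSeries A} {d : ℤ} {c : A} (h : LD a d c) :
    ∃ u : PowerSeries A, a = HahnSeries.single (-d) 1 * HahnSeries.ofPowerSeries ℤ A u ∧
      PowerSeries.constantCoeff u = c := by
  refine ⟨PowerSeries.mk fun k => a.coeff (-d + k), ?_, ?_⟩
  · ext m
    rw [HahnSeries.coeff_single_mul, one_mul]
    have h1 := PowerSeries.coeff_coe (PowerSeries.mk fun k => a.coeff (-d + k)) (m - -d)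
    rw [h1]
    split_ifs with hm
    · exact h.2 m (by omega)
    · rw [PowerSeries.coeff_mk]
      congr 1
      omega
  · rw [← PowerSeries.coeff_zero_eq_constantCoeff_apply, PowerSeries.coeff_mk]
    simpa using h.1

private theorem LD.of_ps (d : ℤ) (u : PowerSeries A) :
    LD (HahnSeries.single (-d) 1 * HahnSeries.ofPowerSeries ℤ A u) d (PowerSeries.constantCoeff u) := by
  constructor
  · rw [HahnSeries.coeff_single_mul, one_mul, sub_self]
    have h1 := PowerSeries.coeff_coe u 0
    rw [h1]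
    simp
  · intro m hm
    rw [HahnSeries.coeff_single_mul, one_mul]
    have h1 := PowerSeries.coeff_coe u (m - -d)
    rw [h1, if_pos (by omega)]

private theorem LD.of_ps0 (u : PowerSeries A) :
    LD (HahnSeries.ofPowerSeries ℤ A u) 0 (PowerSeries.constantCoeff u) := by
  have h := LD.of_ps 0 u
  simpa using h

private theorem LD.mul {a b : LaurentSeries A} {d e : ℤ} {c c' : A} (h : LD a d c) (h' : LD b e c') :
    LD (a * b) (d + e) (c * c') := by
  obtain ⟨u, rfl, rfl⟩ := h.ps
  obtain ⟨v, rfl, rfl⟩ := h'.ps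
  have h1 := LD.of_ps (d + e) (u * v)
  rw [map_mul, map_mul] at h1
  convert h1 using 1
  have e1 : (HahnSeries.single (-(d + e)) (1 : A)) = HahnSeries.single (-d) 1 * HahnSeries.single (-e) 1 := by
    rw [HahnSeries.single_mul_single, mul_one, neg_add]
  rw [e1]
  ring

private theorem LD.one : LD (1 : LaurentSeries A) 0 1 := by
  have h := LD.of_ps0 (1 : PowerSeries A)
  simpa using h

private theorem LD.pow {a : LaurentSeries A} {d : ℤ} {c : A} (h : LD a d c) (k : ℕ) :
    LD (a ^ k) (k * d) (c ^ k) := by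
  induction k with
  | zero => simpa using LD.one (A := A)
  | succ k ih =>
    rw [pow_succ, pow_succ]
    have := ih.mul h
    convert this using 1
    push_cast
    ring

private theorem LD.shift {a : LaurentSeries A} {d e : ℤ} {c : A} (h : LD a d c) (hde : d < e) : LD a e 0 :=
  ⟨h.2 _ (by omega), fun m hm => h.2 m (by omega)⟩

private theorem LD.add {a b : LaurentSeries A} {d : ℤ} {c c' : A} (h : LD a d c) (h' : LD b d c') :
    LD (a + b) d (c + c') := by
  refine ⟨?_, fun m hm => ?_⟩
  · rw [HahnSeries.coeff_add, h.1, h'.1]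
  · rw [HahnSeries.coeff_add, h.2 m hm, h'.2 m hm, add_zero]

private theorem LD.neg {a : LaurentSeries A} {d : ℤ} {c : A} (h : LD a d c) : LD (-a) d (-c) := by
  refine ⟨?_, fun m hm => ?_⟩
  · rw [HahnSeries.coeff_neg, h.1]
  · rw [HahnSeries.coeff_neg, h.2 m hm, neg_zero]

private theorem LD.C (r : A) : LD (HahnSeries.C r : LaurentSeries A) 0 r := by
  have h := LD.of_ps0 (PowerSeries.C r)
  rwa [HahnSeries.ofPowerSeries_C, PowerSeries.constantCoeff_C] at h

private theorem LD.zero (d : ℤ) : LD (0 : LaurentSeries A) d 0 := ⟨rfl, fun _ _ => rfl⟩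

private theorem LD.unique {a : LaurentSeries A} {d d' : ℤ} {c c' : A} (h : LD a d c) (h' : LD a d' c')
    (hc : c ≠ 0) (hc' : c' ≠ 0) : d = d' ∧ c = c' := by
  rcases lt_trichotomy d d' with hd | rfl | hd
  · exact absurd (h'.1.symm.trans (h.2 _ (by omega))) hc'
  · exact ⟨rfl, h.1.symm.trans h'.1⟩
  · exact absurd (h.1.symm.trans (h'.2 _ (by omega))) hc

private theorem LD.sum {ι : Type*} (s : Finset ι) {a : ι → LaurentSeries A} {d : ℤ} {c : ι → A}
    (h : ∀ i ∈ s, LD (a i) d (c i)) : LD (∑ i ∈ s, a i) d (∑ i ∈ s, c i) := by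
  classical
  induction s using Finset.induction_on with
  | empty => exact LD.zero d
  | insert i s hi ih =>
    rw [Finset.sum_insert hi, Finset.sum_insert hi]
    exact (h i (Finset.mem_insert_self _ _)).add (ih fun j hj => h j (Finset.mem_insert_of_mem hj))

private theorem LD.poly {a : LaurentSeries A} {d : ℤ} (h : LD a d 1) (hd : 0 < d) (P : A[X]) {N : ℕ}
    (hN : P.natDegree ≤ N) : LD (P.eval₂ HahnSeries.C a) (N * d) (P.coeff N) := by
  rw [eval₂_eq_sum_range' _ (Nat.lt_succ_of_le hN), Finset.sum_range_succ]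
  have h1 : LD (∑ i ∈ Finset.range N, HahnSeries.C (P.coeff i) * a ^ i) (N * d)
      (∑ i ∈ Finset.range N, (0 : A)) := by
    refine LD.sum _ fun i hi => ?_
    rw [Finset.mem_range] at hi
    refine ((LD.C (P.coeff i)).mul (h.pow i)).shift ?_
    rw [zero_add]
    have : (i : ℤ) < N := by exact_mod_cast hi
    nlinarith
  have h2 := (LD.C (P.coeff N)).mul (h.pow N)
  rw [zero_add, one_pow, mul_one] at h2
  have h3 := h1.add h2
  rwa [Finset.sum_const_zero, zero_add] at h3

private theorem LD.lmap {a : LaurentSeries A} {d : ℤ} {c : A} (f : A →+* B) (h : LD a d c) :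
    LD (lmap f a) d (f c) := by
  refine ⟨?_, fun m hm => ?_⟩
  · show f (a.coeff (-d)) = f c
    rw [h.1]
  · show f (a.coeff m) = 0
    rw [h.2 m hm, map_zero]

private theorem LD_Jq : LD Jq 1 1 := by
  have h1 : LD (HahnSeries.ofPowerSeries ℤ ℤ (E4q ^ 3)) 0 1 := by
    have h := LD.of_ps0 (E4q ^ 3)
    have h0 : PowerSeries.constantCoeff E4q = 1 := by
      rw [← PowerSeries.coeff_zero_eq_constantCoeff_apply, E4q, PowerSeries.coeff_mk, if_pos rfl]
    have h0' : PowerSeries.constantCoeff (E4q ^ 3) = 1 := by rw [map_pow, h0, one_pow]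
    rwa [h0'] at h
  have h2 : LD Dinv 1 1 := by
    have h := LD.of_ps 1 (PowerSeries.invOfUnit (PowerSeries.mk fun m => PowerSeries.coeff (m + 1) Dq) 1)
    rw [PowerSeries.constantCoeff_invOfUnit] at h
    simpa [Dinv] using h
  have h3 := h1.mul h2
  simpa [Jq] using h3

end LD

private theorem LD.lexp {A : Type*} [CommRing A] {n : ℕ} (hn : n ≠ 0) {a : LaurentSeries A} {d : ℤ} {c : A}
    (h : LD a d c) : LD (lexp n a) (n * d) c := by
  refine ⟨?_, fun m hm => ?_⟩
  · rw [← mul_neg, lexp_coeff_mul hn, h.1]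
  · by_cases hd : (n : ℤ) ∣ m
    · obtain ⟨k, rfl⟩ := hd
      rw [lexp_coeff_mul hn]
      refine h.2 k ?_
      have h0 : (0 : ℤ) < n := by exact_mod_cast Nat.pos_of_ne_zero hn
      rw [← mul_neg] at hm
      exact lt_of_mul_lt_mul_left hm h0.le
    · exact lexp_coeff_of_not_dvd hn a hd

private theorem LD.lsc {K : Type*} [Field K] (z : K) {a : LaurentSeries K} {d : ℤ} {c : K}
    (h : LD a d c) : LD (lsc z a) d (z ^ (-d) * c) := by
  refine ⟨?_, fun m hm => ?_⟩
  · show z ^ (-d) * a.coeff (-d) = _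
    rw [h.1]
  · show z ^ m * a.coeff m = 0
    rw [h.2 m hm, mul_zero]

private theorem LD.prod {A : Type*} [CommRing A] (s : Finset ℕ) {a : ℕ → LaurentSeries A} {d : ℤ}
    (h : ∀ i ∈ s, LD (a i) d 1) : LD (∏ i ∈ s, a i) (s.card * d) 1 := by
  classical
  induction s using Finset.induction_on with
  | empty => simpa using LD.one (A := A)
  | insert i s hi ih =>
    rw [Finset.prod_insert hi, Finset.card_insert_of_notMem hi]
    have h1 := (h i (Finset.mem_insert_self _ _)).mul (ih fun j hj => h j (Finset.mem_insert_of_mem hj))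
    rw [one_mul] at h1
    convert h1 using 1
    push_cast
    ring

private theorem PhiDiag_cast (n : ℕ) {A : Type*} [CommRing A] (x : A) :
    (PhiDiag n).eval₂ (Int.castRingHom _) x = (PhiAt n x).eval x := by
  rw [← PhiDiag_aeval, aeval_def]
  rfl

private theorem PhiDiag_key {n : ℕ} (hn : n.Prime) :
    (PhiDiag n).natDegree = 2 * n ∧ (PhiDiag n).leadingCoeff = -1 := by
  have hn0 : n ≠ 0 := hn.ne_zero
  have hn1 : 1 < n := hn.one_lt
  have hn1' : (1 : ℤ) < n := by exact_mod_cast hn1
  set J : LaurentSeries ℂ := lmap (Int.castRingHom ℂ) Jq with hJ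
  have lJ : LD J 1 1 := by
    have := LD_Jq.lmap (Int.castRingHom ℂ)
    rwa [map_one] at this
  set a := lexp n J with ha
  have la : LD a n 1 := by
    have := lJ.lexp hn0
    rwa [mul_one] at this
  have hζ := Complex.isPrimitiveRoot_exp n hn0
  have e2 : (PhiDiag n).eval₂ (Int.castRingHom _) a = (PhiAt n a).eval a := PhiDiag_cast n a
  rw [ha, hJ, PhiAt_prod hn hζ, ← hJ, ← ha, eval_mul, eval_sub, eval_X, eval_C, eval_prod] at e2
  have l1 : LD (a - lexp (n ^ 2) J) ((n : ℤ) ^ 2) (-1) := by
    have h1 : LD a ((n : ℤ) ^ 2) 0 := la.shift (by nlinarith)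
    have h2 := (lJ.lexp (pow_ne_zero 2 hn0)).neg
    rw [mul_one] at h2
    push_cast at h2
    have h3 := h1.add h2
    rwa [zero_add, ← sub_eq_add_neg] at h3
  have l2 : LD (∏ b ∈ Finset.range n, (X - C (lsc (Complex.exp (2 * Real.pi * Complex.I / n) ^ b) J)).eval a)
      ((n : ℤ) * n) 1 := by
    have h1 := LD.prod (Finset.range n) (a := fun b =>
      (X - C (lsc (Complex.exp (2 * Real.pi * Complex.I / n) ^ b) J)).eval a) (d := n) (by
        intro b _
        rw [eval_sub, eval_X, eval_C]
        have h2 := ((lJ.lsc (Complex.exp (2 * Real.pi * Complex.I / n) ^ b)).shift hn1').neg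
        rw [neg_zero] at h2
        have h3 := la.add h2
        rwa [add_zero, ← sub_eq_add_neg] at h3)
    rwa [Finset.card_range] at h1
  have l3 := l1.mul l2
  rw [← e2, mul_one] at l3
  have e3 : (PhiDiag n).eval₂ (Int.castRingHom _) a =
      ((PhiDiag n).map (Int.castRingHom ℂ)).eval₂ HahnSeries.C a := by
    rw [eval₂_map]
    congr 1
  rw [e3] at l3
  have hinj : Function.Injective (Int.castRingHom ℂ) := Int.cast_injective
  have l4 := la.poly (by omega) ((PhiDiag n).map (Int.castRingHom ℂ)) (N := (PhiDiag n).natDegree)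
    natDegree_map_le
  rw [coeff_map] at l4
  have hP : PhiDiag n ≠ 0 := by
    intro h0
    rw [h0, Polynomial.map_zero, eval₂_zero] at l3
    have := l3.1
    rw [HahnSeries.coeff_zero] at this
    exact absurd this (by norm_num)
  have hlc : Int.castRingHom ℂ ((PhiDiag n).coeff (PhiDiag n).natDegree) ≠ 0 := by
    rw [Ne, map_eq_zero_iff _ hinj]
    exact leadingCoeff_ne_zero.2 hP
  obtain ⟨h1, h2⟩ := l4.unique l3 hlc (by norm_num)
  constructor
  · have h3 : ((PhiDiag n).natDegree : ℤ) * n = (2 * n) * n := by rw [h1]; ring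
    have h4 : ((PhiDiag n).natDegree : ℤ) = 2 * n := mul_right_cancel₀ (by omega) h3
    exact_mod_cast h4
  · apply hinj
    rw [map_neg, map_one]
    exact h2

theorem PhiDiag_natDegree {n : ℕ} (hn : n.Prime) : (PhiDiag n).natDegree = 2 * n := (PhiDiag_key hn).1

theorem PhiDiag_leadingCoeff {n : ℕ} (hn : n.Prime) : (PhiDiag n).leadingCoeff = -1 := (PhiDiag_key hn).2

end Pool.Agent.SS
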