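import Pool.Agent.Work.MP_a5099b_nt.B.PhiX

/-!
# Module B.Dual (S-M)

Dual isogeny. If `L ⊆ L'` has index `n` then `n L' ⊆ L` (the quotient has order `n`:
`AddSubgroup.pow_relIndex_mem`-type lemma / `card_nsmul_eq_zero'`), so `L' ⊆ n⁻¹ L`, and
`[n⁻¹L : L] = n^2` (a lattice has rank 2: index of `L` in `n⁻¹L`; e.g. from `exists_tau`, the map
`(xτ + y)/n ↦ (x, y) mod n`), so `[n⁻¹L : L'] = n`. `jL (n⁻¹ • L) = jL L` (`jL_smul`), `PhiAt_root`.
-/

set_option autoImplicit false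

namespace Pool.Agent.SS

open UpperHalfPlane Polynomial
open Pool.Agent.Work.CM (IsLat g2 g3 tauLat)
open scoped Pointwise MatrixGroups

/-- `n z ∈ L` for `z ∈ L'`. -/
private theorem Dual_mul_mem {n : ℕ} {L L' : Submodule ℤ ℂ} (h : Sup n L L') {z : ℂ}
    (hz : z ∈ L') : (n : ℂ) * z ∈ L := by
  have h1 := (L.toAddSubgroup.addSubgroupOf L'.toAddSubgroup).nsmul_index_mem ⟨z, hz⟩
  have h2 : (L.toAddSubgroup.addSubgroupOf L'.toAddSubgroup).index = n := h.idx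
  rw [h2, AddSubgroup.mem_addSubgroupOf] at h1
  have h3 : ((n • (⟨z, hz⟩ : L'.toAddSubgroup) : L'.toAddSubgroup) : ℂ) = (n : ℂ) * z := by
    rw [AddSubgroup.coe_nsmul, nsmul_eq_mul]
  rw [h3] at h1
  exact h1

/-- `(x, y) ↦ (x ω₁ + y ω₂)/n`. -/
private noncomputable def Dual_par (n : ℕ) (P : PeriodPair) : ℤ × ℤ →+ ℂ where
  toFun p := (n : ℂ)⁻¹ * (p.1 * P.ω₁ + p.2 * P.ω₂)
  map_zero' := by simp
  map_add' p q := by
    simp only [Prod.fst_add, Prod.snd_add, Int.cast_add]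
    ring

private theorem Dual_index {n : ℕ} (hn : n.Prime) {L : Submodule ℤ ℂ} (hL : IsLat L) :
    L.toAddSubgroup.relIndex (((n : ℂ)⁻¹) • L).toAddSubgroup = n * n := by
  obtain ⟨P, rfl⟩ := hL
  have hn0 : (n : ℂ) ≠ 0 := by exact_mod_cast hn.ne_zero
  have : NeZero n := ⟨hn.ne_zero⟩
  have hrange : (Dual_par n P).range = (((n : ℂ)⁻¹) • P.lattice).toAddSubgroup := by
    ext z
    rw [AddMonoidHom.mem_range, Submodule.mem_toAddSubgroup,
      Submodule.mem_smul_pointwise_iff_exists]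
    constructor
    · rintro ⟨p, rfl⟩
      exact ⟨p.1 * P.ω₁ + p.2 * P.ω₂, PeriodPair.mem_lattice.2 ⟨p.1, p.2, rfl⟩, rfl⟩
    · rintro ⟨s, hs, rfl⟩
      obtain ⟨a, b, rfl⟩ := PeriodPair.mem_lattice.1 hs
      exact ⟨(a, b), rfl⟩
  rw [← hrange, ← AddSubgroup.index_comap]
  let g : ℤ × ℤ →+ ZMod n × ZMod n :=
    AddMonoidHom.prodMap (Int.castAddHom (ZMod n)) (Int.castAddHom (ZMod n))
  have hker : P.lattice.toAddSubgroup.comap (Dual_par n P) = g.ker := by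
    ext p
    rw [AddSubgroup.mem_comap, Submodule.mem_toAddSubgroup, AddMonoidHom.mem_ker]
    have hg : g p = 0 ↔ (n : ℤ) ∣ p.1 ∧ (n : ℤ) ∣ p.2 := by
      show ((p.1 : ZMod n), (p.2 : ZMod n)) = (0, 0) ↔ _
      rw [Prod.mk.injEq, ZMod.intCast_zmod_eq_zero_iff_dvd, ZMod.intCast_zmod_eq_zero_iff_dvd]
    rw [hg]
    show (n : ℂ)⁻¹ * (p.1 * P.ω₁ + p.2 * P.ω₂) ∈ P.lattice ↔ _
    rw [PeriodPair.mem_lattice]
    constructor
    · rintro ⟨a, b, hab⟩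
      have h1 : ((p.1 : ℂ) - n * a) * P.ω₁ + ((p.2 : ℂ) - n * b) * P.ω₂ = 0 := by
        have h2 : (n : ℂ) * ((a : ℂ) * P.ω₁ + b * P.ω₂) = p.1 * P.ω₁ + p.2 * P.ω₂ := by
          rw [hab, ← mul_assoc, mul_inv_cancel₀ hn0, one_mul]
        linear_combination -h2
      have h3 := LinearIndependent.pair_iff.1 P.indep ((p.1 : ℝ) - n * a) ((p.2 : ℝ) - n * b) (by
        rw [Complex.real_smul, Complex.real_smul]
        push_cast
        exact h1)
      refine ⟨⟨a, ?_⟩, ⟨b, ?_⟩⟩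
      · have := h3.1
        have h4 : (p.1 : ℝ) = n * a := by linarith
        exact_mod_cast h4
      · have := h3.2
        have h4 : (p.2 : ℝ) = n * b := by linarith
        exact_mod_cast h4
    · rintro ⟨⟨a, ha⟩, ⟨b, hb⟩⟩
      refine ⟨a, b, ?_⟩
      rw [ha, hb]
      push_cast
      field_simp
  rw [hker, AddSubgroup.index_ker]
  have hsurj : g.range = ⊤ := by
    rw [AddMonoidHom.range_eq_top]
    rintro ⟨u, v⟩
    obtain ⟨a, rfl⟩ := ZMod.intCast_surjective u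
    obtain ⟨b, rfl⟩ := ZMod.intCast_surjective v
    exact ⟨(a, b), rfl⟩
  rw [hsurj, AddSubgroup.card_top, Nat.card_prod, Nat.card_zmod]

theorem Sup_dual {n : ℕ} (hn : n.Prime) {L L' : Submodule ℤ ℂ} (h : Sup n L L') :
    Sup n L' (((n : ℂ)⁻¹) • L) := by
  have hn0 : (n : ℂ) ≠ 0 := by exact_mod_cast hn.ne_zero
  have hle : L' ≤ ((n : ℂ)⁻¹) • L := by
    intro z hz
    rw [Submodule.mem_smul_pointwise_iff_exists]
    refine ⟨(n : ℂ) * z, Dual_mul_mem h hz, ?_⟩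
    rw [smul_eq_mul, ← mul_assoc, inv_mul_cancel₀ hn0, one_mul]
  refine ⟨h.lat', h.lat.smul (inv_ne_zero hn0), hle, ?_⟩
  have h1 := AddSubgroup.relIndex_mul_relIndex L.toAddSubgroup L'.toAddSubgroup
    (((n : ℂ)⁻¹) • L).toAddSubgroup h.le hle
  rw [h.idx, Dual_index hn h.lat] at h1
  exact Nat.eq_of_mul_eq_mul_left hn.pos h1

theorem PhiAt_dual {n : ℕ} (hn : n.Prime) {L L' : Submodule ℤ ℂ} (h : Sup n L L') :
    (PhiAt n (jL L')).eval (jL L) = 0 := by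
  have hn0 : (n : ℂ) ≠ 0 := by exact_mod_cast hn.ne_zero
  rw [PhiAt_root hn h.lat']
  exact ⟨_, Sup_dual hn h, jL_smul h.lat (inv_ne_zero hn0)⟩

end Pool.Agent.SS
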