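import Pool.Agent.Work.MP_a5099b_nt.B.PhiJ
import Pool.Agent.Work.MP_a5099b_nt.B.Dual

/-!
# Module B.Sym (M)

Symmetry. Let `K = ℂ`, `ζ` a primitive `n`-th root of unity. By `PhiAt_prod` the polynomial
`PhiAt n (J(t^n))` over `ℂ((t))` has the `n + 1` roots `J(t^(n^2))`, `J(ζ^b t)`, `0 ≤ b < n`, pairwise
different (orders `-n^2` and `-1`; leading coefficients `ζ^(-b)`). Let `Φ*` be `Phi n` with the variables
exchanged (`Polynomial.Bivariate.swap`). For every root `y` of `PhiAt n (J(t^n))` we have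
`(PhiAt n y).eval (J(t^n)) = 0`: by `PhiAt_dual` at `L = tauLat τ` and uniqueness of expansions (for
`y = J(ζ^b t)`: the function `τ ↦ jL (supb n τ b)`, `QX n`; for `y = J(t^(n^2))`: `τ ↦ jL (supi n τ)`), the
expansion being `(PhiAt n y).eval (J(t^n))`. So all `n + 1` different roots of the monic polynomial
`PhiAt n (J(t^n))` are roots of `Φ*(J(t^n), Y)`, hence `PhiAt n (J(t^n))` divides `Φ*(J(t^n), Y)` in
`ℂ((t))[Y]`. Division with remainder of `Φ*` by the monic `Phi n` in `ℤ[X][Y]`: the remainder `r` has degree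
`≤ n` in `Y` and is divisible by a polynomial of degree `n + 1` after `X ↦ J(t^n)`, so `r(J(t^n), Y) = 0` and
`r = 0` (a polynomial in `X` vanishing at `J(t^n)` is zero, by the order). So `Φ* = Φ G`. Exchanging the
variables, `Φ = Φ* G*`, so `G G* = 1`, `G = ±1` (units of `ℤ[X][Y]`). If `G = -1`, `Φ(X, X) = -Φ(X, X) = 0`,
but `Φ(J(t^n), J(t^n)) ≠ 0` by the product formula (`J(t^n)` has order `-n`, different from the orders
`-n^2`, `-1` of the roots). So `Φ* = Φ`.
-/

set_option autoImplicit false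

namespace Pool.Agent.SS

open UpperHalfPlane Polynomial
open Pool.Agent.Work.CM (IsLat g2 g3 tauLat)
open scoped Pointwise MatrixGroups

/-- substitution of `x` for the inner variable (generic, to fix the algebra structure) -/
private noncomputable def sX {A : Type*} [CommRing A] (x : A) : ℤ[X] →+* A :=
  (aeval x : ℤ[X] →ₐ[ℤ] A).toRingHom

/-- the value of a polynomial in two variables (generic, to fix the algebra structure) -/
private noncomputable def ev {A : Type*} [CommRing A] (x y : A) (P : ℤ[X][X]) : A :=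
  aevalAeval x y P

private theorem map_eval_eq {A : Type*} [CommRing A] (x y : A) (P : ℤ[X][X]) :
    (P.map (sX x)).eval y = ev x y P := by
  unfold ev sX
  induction P using Polynomial.induction_on' with
  | add p q hp hq => rw [Polynomial.map_add, eval_add, hp, hq, map_add]
  | monomial k a =>
    rw [Polynomial.map_monomial, eval_monomial, ← C_mul_X_pow_eq_monomial, map_mul, map_pow,
      aevalAeval_C, aevalAeval_Y]
    rfl

private theorem PhiAt_sX {A : Type*} [CommRing A] (n : ℕ) (x : A) :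
    PhiAt n x = (Phi n).map (sX x) := rfl

private theorem PhiAt_eval {A : Type*} [CommRing A] (n : ℕ) (x y : A) :
    (PhiAt n x).eval y = ev x y (Phi n) := map_eval_eq x y _

private theorem sX_map {A B : Type*} [CommRing A] [CommRing B] (f : A →+* B) (x : A)
    (P : ℤ[X]) : f (sX x P) = sX (f x) P := by
  change f (aeval x P) = aeval (f x) P
  rw [aeval_def, aeval_def, hom_eval₂]
  congr 1
  exact RingHom.ext_int _ _

private theorem ev_mul {A : Type*} [CommRing A] (x y : A) (P Q : ℤ[X][X]) :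
    ev x y (P * Q) = ev x y P * ev x y Q := map_mul _ _ _

private theorem ev_C {A : Type*} [CommRing A] (x y : A) (P : ℤ[X]) :
    ev x y (C P) = sX x P := by
  unfold ev
  rw [aevalAeval_C]
  rfl

private theorem sX_C {A : Type*} [CommRing A] (x : A) (c : ℤ) :
    sX x (C c) = (c : A) := by
  change aeval x (C c) = (c : A)
  rw [aeval_C]
  simp

private theorem ev_swap {A : Type*} [CommRing A] (x y : A) (P : ℤ[X][X]) :
    ev x y (Bivariate.swap P) = ev y x P := Bivariate.aevalAeval_swap x y P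

private theorem ev_map {A B : Type*} [CommRing A] [CommRing B] (f : A →+* B) (x y : A)
    (P : ℤ[X][X]) : f (ev x y P) = ev (f x) (f y) P := by
  unfold ev
  induction P using Polynomial.induction_on' with
  | add p q hp hq => rw [map_add, map_add, hp, hq, map_add]
  | monomial k a =>
    rw [← C_mul_X_pow_eq_monomial, map_mul, map_pow, map_mul, map_pow,
      aevalAeval_C, aevalAeval_Y, map_mul, map_pow, aevalAeval_C, aevalAeval_Y]
    congr 1
    exact sX_map f x a

/-- the expansion of a polynomial expression -/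
private theorem QX_ev {n : ℕ} (hn : n ≠ 0) {f g : ℍ → ℂ} {a b : LaurentSeries ℂ}
    (hf : QX n f a) (hg : QX n g b) (P : ℤ[X][X]) :
    QX n (fun τ => ev (f τ) (g τ) P) (ev a b P) := by
  let x : QXring n hn := ⟨(f, a), hf⟩
  let y : QXring n hn := ⟨(g, b), hg⟩
  have h := (ev x y P).2
  have h' : QX n ((ev x y P : QXring n hn) : (ℍ → ℂ) × LaurentSeries ℂ).1
    ((ev x y P : QXring n hn) : (ℍ → ℂ) × LaurentSeries ℂ).2 := h
  have e1 : ((ev x y P : QXring n hn) : (ℍ → ℂ) × LaurentSeries ℂ).1 =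
      fun τ => ev (f τ) (g τ) P := by
    funext τ
    exact ev_map (((Pi.evalRingHom (fun _ : ℍ => ℂ) τ).comp
      (RingHom.fst (ℍ → ℂ) (LaurentSeries ℂ))).comp (QXring n hn).subtype) x y P
  have e2 : ((ev x y P : QXring n hn) : (ℍ → ℂ) × LaurentSeries ℂ).2 =
      ev a b P :=
    ev_map ((RingHom.snd (ℍ → ℂ) (LaurentSeries ℂ)).comp (QXring n hn).subtype) x y P
  rwa [e1, e2] at h'

private theorem QX_zero (n : ℕ) : QX n (fun _ => 0) 0 := by
  have h := QX.const n 0
  rwa [map_zero] at h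

/-- `PhiAt n J (J(t^n)) = 0` -/
private theorem root_J {n : ℕ} (hn : n.Prime) :
    ev (toC Jq) (lexp n (toC Jq)) (Phi n) = 0 := by
  have h := QX_ev hn.ne_zero (QX_supb hn.ne_zero QX_jL)
    (QX_lexp hn.ne_zero QX_jL) (Phi n)
  refine QX.unique hn.ne_zero h ?_
  have : (fun τ : ℍ => ev (jL (supb n τ 0)) (jL (tauLat τ)) (Phi n)) = fun _ => 0 := by
    funext τ
    rw [← PhiAt_eval]
    exact PhiAt_dual hn (Sup_supb hn τ 0)
  rw [this]
  exact QX_zero n

/-- `PhiAt n (J(t^n)) J = 0` -/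
private theorem root_J' {n : ℕ} (hn : n.Prime) :
    ev (lexp n (toC Jq)) (toC Jq) (Phi n) = 0 := by
  have h1 := QX_supi hn.ne_zero Wt_jL QX_jL
  rw [zpow_zero, map_one, one_mul] at h1
  have h := QX_ev one_ne_zero h1 QX_jL (Phi n)
  refine QX.unique one_ne_zero h ?_
  have : (fun τ : ℍ => ev (jL (supi n τ)) (jL (tauLat τ)) (Phi n)) = fun _ => 0 := by
    funext τ
    rw [← PhiAt_eval]
    exact PhiAt_dual hn (Sup_supi hn τ)
  rw [this]
  exact QX_zero 1

private noncomputable def lscHom {z : ℂ} (hz : z ≠ 0) : LaurentSeries ℂ →+* LaurentSeries ℂ where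
  toFun := lsc z
  map_one' := lsc_one hz
  map_mul' := lsc_mul hz
  map_zero' := by
    have h := lsc_add z 0 (0 : LaurentSeries ℂ)
    rw [add_zero] at h
    exact left_eq_add.mp h
  map_add' := lsc_add z

private theorem lsc_lexp {n : ℕ} (hn : n ≠ 0) {z : ℂ} (hz : z ^ n = 1) (a : LaurentSeries ℂ) :
    lsc z (lexp n a) = lexp n a := by
  ext m
  change z ^ m * (lexp n a).coeff m = (lexp n a).coeff m
  by_cases h : (n : ℤ) ∣ m
  · obtain ⟨k, rfl⟩ := h
    rw [zpow_mul, zpow_natCast, hz, one_zpow, one_mul]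
  · rw [lexp_coeff_of_not_dvd hn a h, mul_zero]

private theorem lexp_lexp {n : ℕ} (hn : n ≠ 0) (a : LaurentSeries ℂ) :
    lexp n (lexp n a) = lexp (n ^ 2) a := by
  have hn2 : n ^ 2 ≠ 0 := pow_ne_zero 2 hn
  ext m
  by_cases h : (n : ℤ) ∣ m
  · obtain ⟨k, rfl⟩ := h
    rw [lexp_coeff_mul hn]
    by_cases h' : (n : ℤ) ∣ k
    · obtain ⟨l, rfl⟩ := h'
      rw [lexp_coeff_mul hn]
      have : (n : ℤ) * (n * l) = ((n ^ 2 : ℕ) : ℤ) * l := by push_cast; ring
      rw [this, lexp_coeff_mul hn2]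
    · rw [lexp_coeff_of_not_dvd hn _ h', lexp_coeff_of_not_dvd hn2]
      rintro ⟨l, hl⟩
      apply h'
      refine ⟨l, ?_⟩
      have hn' : (n : ℤ) ≠ 0 := by exact_mod_cast hn
      apply mul_left_cancel₀ hn'
      rw [hl]
      push_cast
      ring
  · rw [lexp_coeff_of_not_dvd hn _ h, lexp_coeff_of_not_dvd hn2]
    rintro ⟨l, rfl⟩
    exact h ⟨n * l, by push_cast; ring⟩

private theorem J_coeff : (toC Jq).coeff (-1) = 1 := by
  change (Int.castRingHom ℂ) (Jq.coeff (-1)) = 1
  rw [Jq_coeff_neg_one, map_one]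

private theorem lexp_coeff_neg_one {n : ℕ} (hn : n ≠ 0) (h1 : n ≠ 1) (a : LaurentSeries ℂ) :
    (lexp n a).coeff (-1) = 0 := by
  apply lexp_coeff_of_not_dvd hn
  rw [dvd_neg]
  intro h
  have := Int.eq_one_of_dvd_one (by positivity) h
  exact h1 (by exact_mod_cast this)

private theorem lsc_coeff_neg_one {z : ℂ} : (lsc z (toC Jq)).coeff (-1) = z⁻¹ := by
  change z ^ (-1 : ℤ) * (toC Jq).coeff (-1) = z⁻¹
  rw [J_coeff, mul_one, zpow_neg_one]

/-- `J` is transcendental -/
private theorem sX_J_injective {P : ℤ[X]} (h : sX (toC Jq) P = 0) : P = 0 := by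
  have h1 := QX_ev one_ne_zero QX_jL QX_jL (C P)
  rw [ev_C, h] at h1
  have h2 : ∀ c : ℂ, sX c P = 0 := by
    intro c
    obtain ⟨τ, hτ⟩ := exists_jL c
    have h3 := h1 τ
    simp only [ev_C] at h3
    rw [hτ] at h3
    have h4 : HasSum (fun m : ℤ => (0 : LaurentSeries ℂ).coeff m *
      Function.Periodic.qParam ((1 : ℕ) : ℝ) τ ^ m) 0 := by
      simp only [HahnSeries.coeff_zero, zero_mul]
      exact hasSum_zero
    exact h3.unique h4
  have h5 : P.map (Int.castRingHom ℂ) = 0 := by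
    apply Polynomial.funext
    intro c
    rw [eval_zero, ← h2 c, eval_map]
    rfl
  exact (Polynomial.map_eq_zero_iff (RingHom.injective_int _)).mp h5

private theorem sX_T_injective {n : ℕ} (hn : n ≠ 0) :
    Function.Injective (sX (lexp n (toC Jq))) := by
  rw [injective_iff_map_eq_zero]
  intro P hP
  apply sX_J_injective
  apply lexp_injective hn
  rw [map_zero, ← hP, sX_map]

/-- the family of roots -/
private noncomputable def rts (n : ℕ) (ζ : ℂ) (i : Option (Fin n)) : LaurentSeries ℂ :=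
  match i with
  | none => lexp (n ^ 2) (toC Jq)
  | some b => lsc (ζ ^ (b : ℕ)) (toC Jq)

private theorem rts_injective {n : ℕ} (hn : n.Prime) {ζ : ℂ} (hζ : IsPrimitiveRoot ζ n) :
    Function.Injective (rts n ζ) := by
  have hz : ζ ≠ 0 := hζ.ne_zero hn.ne_zero
  have key : ∀ b : Fin n, lexp (n ^ 2) (toC Jq) ≠ lsc (ζ ^ (b : ℕ)) (toC Jq) := by
    intro b hb
    have h1 : (lexp (n ^ 2) (toC Jq)).coeff (-1) = (lsc (ζ ^ (b : ℕ)) (toC Jq)).coeff (-1) :=
      congrArg (fun s : LaurentSeries ℂ => s.coeff (-1)) hb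
    rw [lexp_coeff_neg_one (pow_ne_zero 2 hn.ne_zero), lsc_coeff_neg_one] at h1
    · exact inv_ne_zero (pow_ne_zero _ hz) h1.symm
    · intro h
      exact hn.one_lt.ne' ((Nat.pow_eq_one.mp h).resolve_right two_ne_zero)
  intro i j hij
  match i, j, hij with
  | none, none, _ => rfl
  | none, some b, h => exact absurd h (key b)
  | some b, none, h => exact absurd h.symm (key b)
  | some b, some c, h =>
    have h1 : (lsc (ζ ^ (b : ℕ)) (toC Jq)).coeff (-1) = (lsc (ζ ^ (c : ℕ)) (toC Jq)).coeff (-1) :=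
      congrArg (fun s : LaurentSeries ℂ => s.coeff (-1)) h
    rw [lsc_coeff_neg_one, lsc_coeff_neg_one, inv_inj] at h1
    rw [Fin.ext (hζ.pow_inj b.2 c.2 h1)]

private theorem PhiAt_rts {n : ℕ} (hn : n.Prime) {ζ : ℂ} (hζ : IsPrimitiveRoot ζ n) :
    PhiAt n (lexp n (toC Jq)) = ∏ i : Option (Fin n), (X - C (rts n ζ i)) := by
  have h := PhiAt_prod hn hζ
  change PhiAt n (lexp n (toC Jq)) = (X - C (lexp (n ^ 2) (toC Jq))) *
        ∏ b ∈ Finset.range n, (X - C (lsc (ζ ^ b) (toC Jq))) at h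
  rw [h, Fintype.prod_option, Finset.prod_range]
  rfl

private theorem rts_root {n : ℕ} (hn : n.Prime) {ζ : ℂ} (hζ : IsPrimitiveRoot ζ n)
    (i : Option (Fin n)) : ev (rts n ζ i) (lexp n (toC Jq)) (Phi n) = 0 := by
  match i with
  | none =>
    change ev (lexp (n ^ 2) (toC Jq)) (lexp n (toC Jq)) (Phi n) = 0
    rw [← lexp_lexp hn.ne_zero, ← ev_map, root_J' hn, map_zero]
  | some b =>
    change ev (lsc (ζ ^ (b : ℕ)) (toC Jq)) (lexp n (toC Jq)) (Phi n) = 0
    have hz : ζ ^ (b : ℕ) ≠ 0 := pow_ne_zero _ (hζ.ne_zero hn.ne_zero)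
    have hz1 : (ζ ^ (b : ℕ)) ^ n = 1 := by
      rw [← pow_mul, mul_comm, pow_mul, hζ.pow_eq_one, one_pow]
    have h := ev_map (lscHom hz) (toC Jq) (lexp n (toC Jq)) (Phi n)
    rw [root_J hn, map_zero] at h
    have e : lscHom hz (lexp n (toC Jq)) = lexp n (toC Jq) := lsc_lexp hn.ne_zero hz1 _
    rw [e] at h
    exact h.symm

private theorem dvd_swap {n : ℕ} (hn : n.Prime) : Phi n ∣ Bivariate.swap (Phi n) := by
  have hmon := (isPhi hn).monic
  rw [← modByMonic_eq_zero_iff_dvd hmon]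
  have hφi := sX_T_injective hn.ne_zero
  apply Polynomial.map_injective _ hφi
  rw [map_modByMonic _ hmon, Polynomial.map_zero,
    modByMonic_eq_zero_iff_dvd (hmon.map _), ← PhiAt_sX]
  have hζ := Complex.isPrimitiveRoot_exp n hn.ne_zero
  rw [PhiAt_rts hn hζ]
  apply Finset.prod_dvd_of_coprime
  · intro i _ j _ hij
    exact (isCoprime_X_sub_C_of_isUnit_sub
      (sub_ne_zero.mpr fun h => hij (rts_injective hn hζ h)).isUnit)
  · intro i _
    rw [dvd_iff_isRoot, IsRoot.def, map_eval_eq, ev_swap]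
    exact rts_root hn hζ i

private theorem diag_ne_zero {n : ℕ} (hn : n.Prime) :
    ev (lexp n (toC Jq)) (lexp n (toC Jq)) (Phi n) ≠ 0 := by
  have hζ := Complex.isPrimitiveRoot_exp n hn.ne_zero
  rw [← PhiAt_eval, PhiAt_rts hn hζ, eval_prod, Finset.prod_ne_zero_iff]
  intro i _
  rw [eval_sub, eval_X, eval_C, sub_ne_zero]
  match i with
  | none =>
    intro h
    change lexp n (toC Jq) = lexp (n ^ 2) (toC Jq) at h
    have h1 : (lexp n (toC Jq)).coeff ((n : ℤ) * (-1)) =
        (lexp (n ^ 2) (toC Jq)).coeff ((n : ℤ) * (-1)) :=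
      congrArg (fun s : LaurentSeries ℂ => s.coeff ((n : ℤ) * (-1))) h
    rw [lexp_coeff_mul hn.ne_zero, J_coeff,
      lexp_coeff_of_not_dvd (pow_ne_zero 2 hn.ne_zero)] at h1
    · exact one_ne_zero h1
    · rintro ⟨l, hl⟩
      push_cast at hl
      have hn' : (n : ℤ) ≠ 0 := by exact_mod_cast hn.ne_zero
      have h2 : (-1 : ℤ) = n * l := by
        apply mul_left_cancel₀ hn'
        rw [hl]
        ring
      have h3 : (n : ℤ) ∣ 1 := ⟨-l, by linarith⟩
      have h4 := Int.eq_one_of_dvd_one (by positivity) h3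
      exact hn.one_lt.ne' (by exact_mod_cast h4)
  | some b =>
    intro h
    change lexp n (toC Jq) = lsc _ (toC Jq) at h
    have h1 := congrArg (fun s : LaurentSeries ℂ => s.coeff (-1)) h
    change (lexp n (toC Jq)).coeff (-1) = (lsc _ (toC Jq)).coeff (-1) at h1
    rw [lexp_coeff_neg_one hn.ne_zero hn.one_lt.ne', lsc_coeff_neg_one] at h1
    exact inv_ne_zero (pow_ne_zero _ (hζ.ne_zero hn.ne_zero)) h1.symm

theorem Phi_swap {n : ℕ} (hn : n.Prime) : Bivariate.swap (Phi n) = Phi n := by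
  obtain ⟨G, hG⟩ := dvd_swap hn
  have hmon := (isPhi hn).monic
  have h1 : Phi n = Phi n * (G * Bivariate.swap G) := by
    have h2 := congrArg (Bivariate.swap (R := ℤ)) hG
    rw [Bivariate.swap_swap_apply, map_mul, hG, mul_assoc] at h2
    exact h2
  have h3 : G * Bivariate.swap G = 1 := by
    apply mul_left_cancel₀ hmon.ne_zero
    rw [← h1, mul_one]
  have h4 : IsUnit G := IsUnit.of_mul_eq_one _ h3
  rw [Polynomial.isUnit_iff] at h4
  obtain ⟨r, hr, rfl⟩ := h4
  rw [Polynomial.isUnit_iff] at hr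
  obtain ⟨u, hu, rfl⟩ := hr
  rcases Int.isUnit_iff.mp hu with rfl | rfl
  · rw [hG]
    simp
  · exfalso
    have h5 := ev_swap (lexp n (toC Jq)) (lexp n (toC Jq)) (Phi n)
    rw [hG, ev_mul, ev_C, sX_C] at h5
    apply diag_ne_zero hn
    have h7 : (2 : LaurentSeries ℂ) *
        ev (lexp n (toC Jq)) (lexp n (toC Jq)) (Phi n) = 0 := by
      push_cast at h5
      linear_combination -h5
    have h8 : (2 : LaurentSeries ℂ) ≠ 0 := by
      have h9 : (2 : LaurentSeries ℂ) = HahnSeries.C (2 : ℂ) := by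
        rw [map_ofNat]
      rw [h9]
      intro h10
      have := HahnSeries.C_injective (Γ := ℤ) (R := ℂ) (h10.trans (map_zero _).symm)
      exact two_ne_zero this
    exact (mul_eq_zero.mp h7).resolve_left h8

theorem PhiAt_symm {n : ℕ} (hn : n.Prime) {A : Type*} [CommRing A] (x y : A) :
    (PhiAt n x).eval y = (PhiAt n y).eval x := by
  rw [PhiAt_eval, PhiAt_eval, ← ev_swap, Phi_swap hn]

end Pool.Agent.SS
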