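import Pool.Agent.Work.MP_a5099b_nt.B.Kro
import Pool.Agent.Work.MP_a5099b_nt.B.Sym

/-!
# Module B.Kro2 (S-M)

Consequences of `GG_spec`. `kron_at`, `GGAt_map`, `PhiAt_kron`: evaluate. `GGAt_symm`: in `ℤ[X][Y]`,
`Kron n` is symmetric: `(x^n - y)(x - y^n) = (y^n - x)(y - x^n)`, `Phi n` is symmetric (`PhiAt_symm` or
`Phi_swap`), so `n (GG n - swap (GG n)) = 0` and `GG n` is symmetric.
-/

set_option autoImplicit false

namespace Pool.Agent.SS

open UpperHalfPlane Polynomial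
open Pool.Agent.Work.CM (IsLat g2 g3 tauLat)
open scoped Pointwise MatrixGroups

private theorem kro2_ext {A : Type*} [CommRing A] (f g : ℤ[X] →+* A) (h : f X = g X) : f = g :=
  Polynomial.ringHom_ext' (RingHom.ext_int _ _) h

theorem kron_at {n : ℕ} (hn : n.Prime) {A : Type*} [CommRing A] (x y : A) :
    (PhiAt n x).eval y = (x ^ n - y) * (x - y ^ n) + n * GGAt n x y := by
  rw [PhiAt, GG_spec hn, GGAt]
  simp [Kron]

theorem GGAt_map {n : ℕ} {A B : Type*} [CommRing A] [CommRing B] (f : A →+* B) (x y : A) :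
    f (GGAt n x y) = GGAt n (f x) (f y) := by
  rw [GGAt, GGAt, eval_map, eval_map, Polynomial.hom_eval₂]
  congr 1
  apply kro2_ext
  simp

theorem GGAt_symm {n : ℕ} (hn : n.Prime) {A : Type*} [CommRing A] (x y : A) :
    GGAt n x y = GGAt n y x := by
  have h0 : GGAt n (C X : ℤ[X][X]) X = GGAt n (X : ℤ[X][X]) (C X) := by
    have h1 := kron_at hn (C X : ℤ[X][X]) X
    have h2 := kron_at hn (X : ℤ[X][X]) (C X)
    rw [PhiAt_symm hn, h2] at h1
    have h3 : (n : ℤ[X][X]) * GGAt n (X : ℤ[X][X]) (C X) =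
        (n : ℤ[X][X]) * GGAt n (C X : ℤ[X][X]) X := by
      linear_combination h1
    have hn0 : (n : ℤ[X][X]) ≠ 0 := by
      exact_mod_cast hn.ne_zero
    exact (mul_left_cancel₀ hn0 h3).symm
  have h1 := congrArg (eval₂RingHom ((aeval x : ℤ[X] →ₐ[ℤ] A) : ℤ[X] →+* A) y) h0
  rw [GGAt_map, GGAt_map] at h1
  simpa using h1

theorem PhiAt_kron {n : ℕ} (hn : n.Prime) {A : Type*} [CommRing A] [CharP A n] (x : A) :
    PhiAt n x = (C (x ^ n) - X) * (C x - X ^ n) := by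
  rw [PhiAt, GG_spec hn]
  simp [Kron]

end Pool.Agent.SS
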