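import Pool.Agent.Work.MP_a5099b_nt.B.HHx
import Pool.Agent.Work.MP_a5099b_nt.B.Kro2

/-!
# Module B.HHs (S-M)

`HH l` is a square modulo `l`. By `PhiAt_kron`/`GG_spec`, `PhiDiag l ≡ (X^l - X)(X - X^l) = -(X^l - X)^2 mod l`, so
in `F_l[X]`: `H S^2 = (X^l - X)^2 =: V^2`, `H, S` monic. `F_l[X]` is factorial and `S^2 ∣ V^2` gives `S ∣ V`
(`pow_dvd_pow_iff`), `V = S R`, `H S^2 = S^2 R^2`, `H = R^2`. Lift `R` to `ℤ[X]`.
-/

set_option autoImplicit false

namespace Pool.Agent.SS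

open Polynomial
open Pool.Agent.Work.CM (IsLat g2 g3 tauLat)
open scoped Pointwise MatrixGroups

private theorem hhs_dvd {l : ℕ} (F : ℤ[X]) :
    C (l : ℤ) ∣ F ↔ F.map (Int.castRingHom (ZMod l)) = 0 := by
  rw [C_dvd_iff_dvd_coeff, Polynomial.ext_iff]
  apply forall_congr'
  intro i
  rw [coeff_map, coeff_zero, eq_intCast, ZMod.intCast_zmod_eq_zero_iff_dvd]

private theorem hhs_aeval {A : Type*} [CommRing A] (x : A) (F : ℤ[X]) :
    aeval x F = (F.map (Int.castRingHom A)).eval x := by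
  rw [aeval_def, eval_map]
  rfl

private theorem hhs_evalX {R : Type*} [CommRing R] (F : ℤ[X]) :
    (F.map (Int.castRingHom R[X])).eval X = F.map (Int.castRingHom R) := by
  have h : (F.map (Int.castRingHom R[X])) = (F.map (Int.castRingHom R)).map C := by
    rw [Polynomial.map_map]
    congr 1
  rw [h, eval_map, eval₂_C_X]

theorem HH_sq {l : ℕ} (hl : LPrime l) : ∃ R : ℤ[X], C (l : ℤ) ∣ HH l - R ^ 2 := by
  have hp : l.Prime := hl.prime
  haveI : Fact l.Prime := ⟨hp⟩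
  obtain ⟨S, hS, hPS⟩ := HH_factor hl
  have h1 := kron_at hp (X : (ZMod l)[X]) X
  have h2 : ((l : ℕ) : (ZMod l)[X]) = 0 := by
    rw [← map_natCast (C : ZMod l →+* (ZMod l)[X]), CharP.cast_eq_zero, map_zero]
  rw [h2, zero_mul, add_zero, ← PhiDiag_aeval, hhs_aeval, hhs_evalX, hPS, Polynomial.map_neg, Polynomial.map_mul,
    Polynomial.map_pow] at h1
  set H' := (HH l).map (Int.castRingHom (ZMod l)) with hH'
  set S' := S.map (Int.castRingHom (ZMod l)) with hS'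
  have h3 : H' * S' ^ 2 = (X ^ l - X) ^ 2 := by linear_combination -h1
  have h4 : S' ∣ X ^ l - X := by
    rw [← UniqueFactorizationMonoid.pow_dvd_pow_iff_dvd (two_ne_zero), ← h3]
    exact dvd_mul_left _ _
  obtain ⟨R', hR'⟩ := h4
  have hS0 : S' ^ 2 ≠ 0 := pow_ne_zero _ (hS.map _).ne_zero
  have h5 : H' = R' ^ 2 := by
    apply mul_right_cancel₀ hS0
    rw [h3, hR']
    ring
  obtain ⟨R, hR⟩ := Polynomial.map_surjective (Int.castRingHom (ZMod l)) ZMod.intCast_surjective R'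
  refine ⟨R, ?_⟩
  rw [hhs_dvd, Polynomial.map_sub, Polynomial.map_pow, hR, ← hH', h5, sub_self]

end Pool.Agent.SS
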