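import Pool.Agent.Work.MP_a5099b_nt.B.Fam
import Pool.Agent.Work.MP_a5099b_nt.A.FormJ
import Pool.Agent.Work.MP_a5099b_nt.A.Exp

/-!
# Module B.PhiX (M)

Existence of the modular polynomial. Apply `fam` to `F L L' = jL L'`, `k = 0`, `a = toC Jq` (`QX_supb`,
`QX_jL`), `b = lexp n (toC Jq)` (`QX_supi` with `k = 0`). Let `R = (Int.castRingHom ℂ).range`. The coefficients of
`(X - C b) * Nm n a` have coefficients in `R` (`Nm_InR`, `InR.mul`, ...), so by `formsJ` coefficient `i` of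
`∏_{L'} (X - jL L')` is `aeval (jL L) Q_i` with `Q_i ∈ R[X]`, i.e. the image of `Q_i ∈ ℤ[X]`. Take
`P = X^(n+1) + ∑_{i ≤ n} Q_i(X) Y^i`. (`PhiAt_monic` etc.: `Polynomial.map` of a monic polynomial.)
`PhiAt_unique`: two polynomials with `IsPhi` agree after `X ↦ jL L`, and every complex number is `jL L`
(`exists_jL`), so all their coefficients agree as functions on `ℂ`.
-/

set_option autoImplicit false

namespace Pool.Agent.SS

open UpperHalfPlane Polynomial
open Pool.Agent.Work.CM (IsLat g2 g3 tauLat)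
open scoped Pointwise MatrixGroups

private theorem InR_sub {R : Subring ℂ} {a b : LaurentSeries ℂ} (ha : InR R a) (hb : InR R b) :
    InR R (a - b) := by
  intro m
  rw [HahnSeries.coeff_sub]
  exact R.sub_mem (ha m) (hb m)

private theorem InR_neg {R : Subring ℂ} {a : LaurentSeries ℂ} (ha : InR R a) :
    InR R (-a) := by
  intro m
  rw [HahnSeries.coeff_neg]
  exact R.neg_mem (ha m)

private theorem coeff_exists {n : ℕ} (hn : n.Prime) {i : ℕ} (hi : i ≤ n + 1) :
    ∃ Q : ℤ[X], ∀ L, IsLat L →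
      (∏ L' ∈ supF n L, (X - C (jL L'))).coeff i = aeval (jL L) Q := by
  have hn0 : n ≠ 0 := hn.ne_zero
  have ha : QX n (fun τ => jL (supb n τ 0)) (toC Jq) := QX_supb hn0 QX_jL
  have hb0 := QX_supi hn0 Wt_jL QX_jL
  have hb1 : HahnSeries.C ((n : ℂ) ^ (0 : ℤ)) * lexp n (toC Jq) = toC (lexp n Jq) := by
    rw [zpow_zero, map_one, one_mul, toC, toC, lmap_lexp]
  rw [hb1] at hb0
  have hF : ∀ L L' : Submodule ℤ ℂ, Sup n L L' → ∀ m : ℂ, m ≠ 0 →
      m ^ (0 : ℤ) * (fun _ L' => jL L' : Submodule ℤ ℂ → Submodule ℤ ℂ → ℂ) (m • L) (m • L') =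
        (fun _ L' => jL L' : Submodule ℤ ℂ → Submodule ℤ ℂ → ℂ) L L' := by
    intro L L' h m hm
    simp only [zpow_zero, one_mul]
    exact jL_smul h.lat' hm
  obtain ⟨h1, h2⟩ := fam hn (k := 0) (F := fun _ L' => jL L') hF ha hb0 hi
  rw [zero_mul] at h1
  have hR : InR (Int.castRingHom ℂ).range
      (((X - C (toC (lexp n Jq))) * Nm n (toC Jq)).coeff i) := by
    have hA : ∀ j, InR (Int.castRingHom ℂ).range ((Nm n (toC Jq)).coeff j) := fun j =>
      Nm_InR _ n (InR.toC _ Jq) j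
    have hB : ∀ j, InR (Int.castRingHom ℂ).range
        ((C (toC (lexp n Jq)) * Nm n (toC Jq)).coeff j) := by
      intro j
      rw [coeff_C_mul]
      exact InR.mul (InR.toC _ _) (hA j)
    have e : ((X - C (toC (lexp n Jq))) * Nm n (toC Jq)).coeff i =
        (X * Nm n (toC Jq)).coeff i - (C (toC (lexp n Jq)) * Nm n (toC Jq)).coeff i := by
      have h := congrArg (fun p => Polynomial.coeff p i)
        (sub_mul (X : (LaurentSeries ℂ)[X]) (C (toC (lexp n Jq))) (Nm n (toC Jq)))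
      exact h.trans (coeff_sub _ _ _)
    rw [e]
    refine InR_sub ?_ (hB i)
    rcases i with _ | i
    · rw [mul_coeff_zero, coeff_X_zero, zero_mul]
      intro m
      simp only [HahnSeries.coeff_zero]
      exact Subring.zero_mem _
    · rw [coeff_X_mul]
      exact hA i
  obtain ⟨Q, hQ⟩ := formsJ (Int.castRingHom ℂ).range h1 h2 hR
  obtain ⟨Q', rfl⟩ := Polynomial.map_surjective (Int.castRingHom ℂ).rangeRestrict
    (Int.castRingHom ℂ).rangeRestrict_surjective Q
  refine ⟨Q', fun L hL => ?_⟩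
  rw [hQ L hL]
  rw [aeval_def, eval₂_map, aeval_def]
  congr 1

theorem exists_isPhi {n : ℕ} (hn : n.Prime) : ∃ P, IsPhi n P := by
  have hQ : ∀ i : ℕ, ∃ Q : ℤ[X], i ≤ n + 1 → ∀ L, IsLat L →
      (∏ L' ∈ supF n L, (X - C (jL L'))).coeff i = aeval (jL L) Q := by
    intro i
    by_cases hi : i ≤ n + 1
    · obtain ⟨Q, hQ⟩ := coeff_exists hn hi
      exact ⟨Q, fun _ => hQ⟩
    · exact ⟨0, fun h => absurd h hi⟩
  choose Q hQ using hQ
  set p : ℤ[X][X] := ∑ i ∈ Finset.range (n + 1), C (Q i) * X ^ i with hp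
  have hpc : ∀ m, p.coeff m = if m < n + 1 then Q m else 0 := by
    intro m
    rw [hp, finsetSum_coeff]
    simp only [coeff_C_mul, coeff_X_pow, mul_ite, mul_one, mul_zero]
    rw [Finset.sum_ite_eq]
    simp only [Finset.mem_range]
  have hpd : p.degree < ((n + 1 : ℕ) : WithBot ℕ) := by
    rw [degree_lt_iff_coeff_zero]
    intro m hm
    rw [hpc, if_neg (by omega)]
  have hmon : (X ^ (n + 1) + p).Monic := monic_X_pow_add hpd
  have hdeg : (X ^ (n + 1) + p).natDegree = n + 1 := by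
    rw [natDegree_add_eq_left_of_degree_lt (by rw [degree_X_pow]; exact hpd), natDegree_X_pow]
  refine ⟨X ^ (n + 1) + p, hmon, hdeg, ?_⟩
  intro L hL
  rw [finprod_Sup hn hL]
  have hmon2 : (∏ L' ∈ supF n L, (X - C (jL L'))).Monic :=
    monic_prod_of_monic _ _ fun L' _ => monic_X_sub_C _
  have hdeg2 : (∏ L' ∈ supF n L, (X - C (jL L'))).natDegree = n + 1 := by
    rw [natDegree_prod_of_monic _ _ fun L' _ => monic_X_sub_C _]
    simp only [natDegree_X_sub_C, Finset.sum_const, smul_eq_mul, mul_one]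
    exact card_supF hn hL
  have hmon1 := hmon.map (aeval (jL L) : ℤ[X] →ₐ[ℤ] ℂ).toRingHom
  have hdeg1 : ((X ^ (n + 1) + p).map (aeval (jL L) : ℤ[X] →ₐ[ℤ] ℂ).toRingHom).natDegree =
      n + 1 := by
    rw [hmon.natDegree_map, hdeg]
  ext m
  rcases lt_trichotomy m (n + 1) with hm | hm | hm
  · rw [coeff_map, coeff_add, coeff_X_pow, if_neg (by omega), zero_add, hpc, if_pos hm,
      hQ m hm.le L hL]
    rfl
  · rw [hm]
    have e1 := hmon1.coeff_natDegree
    have e2 := hmon2.coeff_natDegree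
    rw [hdeg1] at e1
    rw [hdeg2] at e2
    rw [e1, e2]
  · rw [coeff_eq_zero_of_natDegree_lt (by rw [hdeg1]; exact hm),
      coeff_eq_zero_of_natDegree_lt (by rw [hdeg2]; exact hm)]

theorem isPhi {n : ℕ} (hn : n.Prime) : IsPhi n (Phi n) :=
  Classical.epsilon_spec (exists_isPhi hn)

theorem IsPhi.unique {n : ℕ} {P Q : ℤ[X][X]} (hP : IsPhi n P) (hQ : IsPhi n Q) : P = Q := by
  ext1 i
  have hinj : Function.Injective (Polynomial.map (Int.castRingHom ℂ)) :=
    Polynomial.map_injective _ (RingHom.injective_int _)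
  apply hinj
  apply Polynomial.funext
  intro c
  obtain ⟨τ, hτ⟩ := exists_jL c
  have hL : IsLat (tauLat τ) := Pool.Agent.Work.CM.tauLat_isLat τ
  have h := (hP.spec _ hL).trans (hQ.spec _ hL).symm
  have h2 := congrArg (fun f => f.coeff i) h
  simp only [coeff_map] at h2
  rw [hτ] at h2
  rw [eval_map, eval_map]
  exact h2

theorem PhiAt_monic {n : ℕ} (hn : n.Prime) {A : Type*} [CommRing A] (x : A) :
    (PhiAt n x).Monic :=
  (isPhi hn).monic.map _

theorem PhiAt_natDegree {n : ℕ} (hn : n.Prime) {A : Type*} [CommRing A] [Nontrivial A] (x : A) :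
    (PhiAt n x).natDegree = n + 1 := by
  rw [PhiAt, (isPhi hn).monic.natDegree_map, (isPhi hn).deg]

theorem PhiAt_map {n : ℕ} {A B : Type*} [CommRing A] [CommRing B] (f : A →+* B) (x : A) :
    (PhiAt n x).map f = PhiAt n (f x) := by
  rw [PhiAt, PhiAt, Polynomial.map_map]
  congr 1
  apply Polynomial.ringHom_ext
  · intro a
    simp
  · simp

theorem PhiAt_lat {n : ℕ} (hn : n.Prime) {L : Submodule ℤ ℂ} (hL : IsLat L) :
    PhiAt n (jL L) = ∏ᶠ L' ∈ {L' | Sup n L L'}, (X - C (jL L')) :=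
  (isPhi hn).spec L hL

theorem PhiAt_supF {n : ℕ} (hn : n.Prime) {L : Submodule ℤ ℂ} (hL : IsLat L) :
    PhiAt n (jL L) = ∏ L' ∈ supF n L, (X - C (jL L')) := by
  rw [PhiAt_lat hn hL, finprod_Sup hn hL]

theorem PhiAt_root {n : ℕ} (hn : n.Prime) {L : Submodule ℤ ℂ} (hL : IsLat L) (y : ℂ) :
    (PhiAt n (jL L)).eval y = 0 ↔ ∃ L', Sup n L L' ∧ jL L' = y := by
  rw [PhiAt_supF hn hL, eval_prod, Finset.prod_eq_zero_iff]
  constructor
  · rintro ⟨L', h1, h2⟩
    refine ⟨L', (mem_supF hn hL).1 h1, ?_⟩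
    rw [eval_sub, eval_X, eval_C, sub_eq_zero] at h2
    exact h2.symm
  · rintro ⟨L', h1, h2⟩
    refine ⟨L', (mem_supF hn hL).2 h1, ?_⟩
    rw [eval_sub, eval_X, eval_C, h2, sub_self]

theorem PhiDiag_aeval {n : ℕ} {A : Type*} [CommRing A] (x : A) :
    aeval x (PhiDiag n) = (PhiAt n x).eval x := by
  rw [PhiDiag, PhiAt, eval_map]
  have h := Polynomial.hom_eval₂ (Phi n) (RingHom.id ℤ[X])
    (aeval x : ℤ[X] →ₐ[ℤ] A).toRingHom X
  rw [RingHom.comp_id] at h
  have h2 : (aeval x : ℤ[X] →ₐ[ℤ] A).toRingHom X = x := by simp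
  rw [h2] at h
  rw [← h]
  rfl

end Pool.Agent.SS
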