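import Pool.Agent.Work.MP_a5099b_nt.B.Odd
import Pool.Agent.Work.MP_a5099b_nt.B.PhiX

/-!
# Module B.At (M)

`Φ_n(1728, 1728) ≠ 0` for `n ≡ 3 mod 4` and `Φ_n(0, 0) ≠ 0` for `n ≡ 2 mod 3`. `L = ℤi + ℤ = tauLat I` has `iL = L`,
so `e6 L = i^6 e6 (iL)... = -e6 L`, `e6 L = 0`, `jL L = 1728` (`jL_eq`, `dl`). If `Φ_n(1728, 1728) = 0` there is `L'` with
`Sup n L L'`, `jL L' = 1728` (`PhiAt_root`, `PhiDiag_aeval`) and by `mul_of_Sup` an `m` with `mL ⊆ L`, `|m|^2 = n`: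
`m = m * 1 ∈ L`, `m = a i + b`, `n = a^2 + b^2`, impossible for `n ≡ 3 mod 4`. For `0`: `ρ = (-1 + i√3)/2` (or
`(1 + i√3)/2`), `L = ℤρ + ℤ`, `ρL = L`, `e4 L = 0`; `m = aρ + b`, `n = a^2 - ab + b^2` (resp. `a^2 + ab + b^2`), which
is `0` or `1 mod 3`. Use `Wt_e4`, `Wt_e6`.
-/

set_option autoImplicit false

namespace Pool.Agent.SS

open UpperHalfPlane Polynomial
open Pool.Agent.Work.CM (IsLat g2 g3 tauLat)
open scoped Pointwise MatrixGroups

private theorem at_smul {L : Submodule ℤ ℂ} {m : ℂ} (h1 : ∀ z ∈ L, m * z ∈ L)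
    (h2 : ∀ z ∈ L, ∃ w ∈ L, m * w = z) : m • L = L := by
  apply le_antisymm
  · intro z hz
    obtain ⟨w, hw, rfl⟩ := Submodule.mem_smul_pointwise_iff_exists z m L |>.1 hz
    exact h1 w hw
  · intro z hz
    obtain ⟨w, hw, rfl⟩ := h2 z hz
    exact Submodule.smul_mem_pointwise_smul _ m L hw

private theorem at_root {n : ℕ} (hn : n.Prime) {L : Submodule ℤ ℂ} (hL : IsLat L)
    (h : aeval (jL L) (PhiDiag n) = 0) : ∃ m : ℂ, Complex.normSq m = n ∧ ∀ z ∈ L, m * z ∈ L := by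
  rw [PhiDiag_aeval, PhiAt_root hn hL] at h
  obtain ⟨L', h1, h2⟩ := h
  obtain ⟨m, h3, h4, -⟩ := mul_of_Sup hn.ne_zero h1 h2
  exact ⟨m, h3, h4⟩

theorem diag_1728 {n : ℕ} (hn : n.Prime) (h4 : n % 4 = 3) :
    aeval (1728 : ℂ) (PhiDiag n) ≠ 0 := by
  have hL : IsLat (tauLat UpperHalfPlane.I) := Pool.Agent.Work.CM.tauLat_isLat _
  have hI : ((UpperHalfPlane.I : ℍ) : ℂ) = Complex.I := rfl
  have mem : ∀ z, z ∈ tauLat UpperHalfPlane.I ↔ ∃ a b : ℤ, (a : ℂ) * Complex.I + b = z := by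
    intro z
    rw [tauLat, Submodule.mem_span_pair, hI]
    simp
  have hs : Complex.I • tauLat UpperHalfPlane.I = tauLat UpperHalfPlane.I := by
    apply at_smul
    · intro z hz
      obtain ⟨a, b, rfl⟩ := (mem z).1 hz
      refine (mem _).2 ⟨b, -a, ?_⟩
      push_cast
      linear_combination (-(a : ℂ)) * Complex.I_mul_I
    · intro z hz
      obtain ⟨a, b, rfl⟩ := (mem z).1 hz
      refine ⟨(-b : ℤ) * Complex.I + (a : ℤ), (mem _).2 ⟨-b, a, rfl⟩, ?_⟩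
      push_cast
      linear_combination (-(b : ℂ)) * Complex.I_mul_I
  have h6 := Wt_e6 _ hL Complex.I Complex.I_ne_zero
  rw [hs, zpow_ofNat] at h6
  have hI6 : (Complex.I : ℂ) ^ 6 = -1 := by
    linear_combination (Complex.I ^ 4 - Complex.I ^ 2 + 1) * Complex.I_mul_I
  have h60 : e6 (tauLat UpperHalfPlane.I) = 0 := by
    rw [hI6] at h6
    linear_combination (-1 / 2 : ℂ) * h6
  have hD := dl_ne_zero hL
  have hj : jL (tauLat UpperHalfPlane.I) = 1728 := by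
    have hD' : dl (tauLat UpperHalfPlane.I) = e4 (tauLat UpperHalfPlane.I) ^ 3 / 1728 := by
      rw [dl, h60]
      ring
    rw [jL_eq, hD']
    rw [hD'] at hD
    have h4' : e4 (tauLat UpperHalfPlane.I) ^ 3 ≠ 0 := by
      intro h
      apply hD
      rw [h, zero_div]
    rw [div_div_eq_mul_div, mul_comm, mul_div_assoc, div_self h4', mul_one]
  intro h
  rw [← hj] at h
  obtain ⟨m, h1, h2⟩ := at_root hn hL h
  have h3 : m ∈ tauLat UpperHalfPlane.I := by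
    have := h2 1 ((mem 1).2 ⟨0, 1, by simp⟩)
    rwa [mul_one] at this
  obtain ⟨a, b, rfl⟩ := (mem m).1 h3
  have h5 : (a : ℝ) ^ 2 + (b : ℝ) ^ 2 = n := by
    rw [← h1, Complex.normSq_apply]
    simp
    ring
  have h5' : a ^ 2 + b ^ 2 = (n : ℤ) := by exact_mod_cast h5
  have h7 : (n : ℤ) % 4 = 3 := by omega
  rw [← h5'] at h7
  have ha : a ^ 2 % 4 = 0 ∨ a ^ 2 % 4 = 1 := by
    rcases Int.emod_two_eq_zero_or_one a with h | h
    · left
      obtain ⟨c, rfl⟩ : ∃ c, a = 2 * c := ⟨a / 2, by omega⟩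
      have : (2 * c) ^ 2 = 4 * (c ^ 2) := by ring
      omega
    · right
      obtain ⟨c, rfl⟩ : ∃ c, a = 2 * c + 1 := ⟨a / 2, by omega⟩
      have : (2 * c + 1) ^ 2 = 4 * (c ^ 2 + c) + 1 := by ring
      omega
  have hb : b ^ 2 % 4 = 0 ∨ b ^ 2 % 4 = 1 := by
    rcases Int.emod_two_eq_zero_or_one b with h | h
    · left
      obtain ⟨c, rfl⟩ : ∃ c, b = 2 * c := ⟨b / 2, by omega⟩
      have : (2 * c) ^ 2 = 4 * (c ^ 2) := by ring
      omega
    · right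
      obtain ⟨c, rfl⟩ : ∃ c, b = 2 * c + 1 := ⟨b / 2, by omega⟩
      have : (2 * c + 1) ^ 2 = 4 * (c ^ 2 + c) + 1 := by ring
      omega
  omega

private noncomputable def atRho : ℍ := ⟨⟨-1 / 2, Real.sqrt 3 / 2⟩, by
  show 0 < Real.sqrt 3 / 2
  positivity⟩

private theorem atRho_sq : (atRho : ℂ) ^ 2 + atRho + 1 = 0 := by
  have h3 : Real.sqrt 3 * Real.sqrt 3 = 3 := Real.mul_self_sqrt (by norm_num)
  show (⟨-1 / 2, Real.sqrt 3 / 2⟩ : ℂ) ^ 2 + ⟨-1 / 2, Real.sqrt 3 / 2⟩ + 1 = 0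
  apply Complex.ext
  · simp [pow_two]
    linear_combination (-1 / 4 : ℝ) * h3
  · simp [pow_two]
    ring

private theorem atRho_normSq (a b : ℝ) :
    Complex.normSq ((a : ℂ) * atRho + b) = a ^ 2 - a * b + b ^ 2 := by
  have h3 : Real.sqrt 3 * Real.sqrt 3 = 3 := Real.mul_self_sqrt (by norm_num)
  show Complex.normSq ((a : ℂ) * ⟨-1 / 2, Real.sqrt 3 / 2⟩ + b) = _
  rw [Complex.normSq_apply]
  simp
  linear_combination (a ^ 2 / 4 : ℝ) * h3

theorem diag_0 {n : ℕ} (hn : n.Prime) (h3 : n % 3 = 2) :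
    aeval (0 : ℂ) (PhiDiag n) ≠ 0 := by
  have hL : IsLat (tauLat atRho) := Pool.Agent.Work.CM.tauLat_isLat _
  have hr := atRho_sq
  have mem : ∀ z, z ∈ tauLat atRho ↔ ∃ a b : ℤ, (a : ℂ) * atRho + b = z := by
    intro z
    rw [tauLat, Submodule.mem_span_pair]
    simp
  have hs : (atRho : ℂ) • tauLat atRho = tauLat atRho := by
    apply at_smul
    · intro z hz
      obtain ⟨a, b, rfl⟩ := (mem z).1 hz
      refine (mem _).2 ⟨b - a, -a, ?_⟩
      push_cast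
      linear_combination (-(a : ℂ)) * hr
    · intro z hz
      obtain ⟨a, b, rfl⟩ := (mem z).1 hz
      refine ⟨((-b : ℤ) : ℂ) * atRho + ((a - b : ℤ) : ℂ), (mem _).2 ⟨-b, a - b, rfl⟩, ?_⟩
      push_cast
      linear_combination (-(b : ℂ)) * hr
  have hne : (atRho : ℂ) ≠ 0 := by
    intro h
    rw [h] at hr
    norm_num at hr
  have h4 := Wt_e4 _ hL (atRho : ℂ) hne
  rw [hs, zpow_ofNat] at h4
  have hne1 : (atRho : ℂ) ≠ 1 := by
    intro h
    rw [h] at hr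
    norm_num at hr
  have h40 : e4 (tauLat atRho) = 0 := by
    have h5 : ((atRho : ℂ) - 1) * e4 (tauLat atRho) = 0 := by
      linear_combination h4 - ((atRho : ℂ) ^ 2 - atRho) * e4 (tauLat atRho) * hr
    rcases mul_eq_zero.1 h5 with h6 | h6
    · exact absurd (sub_eq_zero.1 h6) hne1
    · exact h6
  have hj : jL (tauLat atRho) = 0 := by
    rw [jL_eq, h40]
    simp
  intro h
  obtain ⟨m, h1, h2⟩ := at_root hn hL (by rw [hj]; exact h)
  have h5 : m ∈ tauLat atRho := by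
    have := h2 1 ((mem 1).2 ⟨0, 1, by simp⟩)
    rwa [mul_one] at this
  obtain ⟨a, b, rfl⟩ := (mem m).1 h5
  have h6 : (a : ℝ) ^ 2 - a * b + (b : ℝ) ^ 2 = n := by
    rw [← h1]
    have := atRho_normSq a b
    push_cast at this
    rw [this]
  have h6' : a ^ 2 - a * b + b ^ 2 = (n : ℤ) := by exact_mod_cast h6
  have h7 : (n : ℤ) % 3 = 2 := by omega
  have h8 : (n : ℤ) = (a + b) ^ 2 - 3 * (a * b) := by rw [← h6']; ring
  have h9 : (a + b) ^ 2 % 3 = 0 ∨ (a + b) ^ 2 % 3 = 1 := by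
    set x := a + b
    have : x % 3 = 0 ∨ x % 3 = 1 ∨ x % 3 = 2 := by omega
    rcases this with h | h | h
    · left
      obtain ⟨c, hc⟩ : ∃ c, x = 3 * c := ⟨x / 3, by omega⟩
      have : x ^ 2 = 3 * (3 * c ^ 2) := by rw [hc]; ring
      omega
    · right
      obtain ⟨c, hc⟩ : ∃ c, x = 3 * c + 1 := ⟨x / 3, by omega⟩
      have : x ^ 2 = 3 * (3 * c ^ 2 + 2 * c) + 1 := by rw [hc]; ring
      omega
    · right
      obtain ⟨c, hc⟩ : ∃ c, x = 3 * c + 2 := ⟨x / 3, by omega⟩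
      have : x ^ 2 = 3 * (3 * c ^ 2 + 4 * c + 1) + 1 := by rw [hc]; ring
      omega
  omega

end Pool.Agent.SS
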