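import Pool.Agent.Work.MP_a5099b_nt.B.SupD
import Pool.Agent.Work.MP_a5099b_nt.A.Lat

/-!
# Module B.SupF (M)

Finite sets of superlattices. `Sup n (m • L) (m • L') ↔ Sup n L L'` for `m ≠ 0` (multiplication by `m` is a
bijection; the relative index is preserved: `AddSubgroup.relIndex_map_map`-type lemma for the injective map
`z ↦ m z`). By `exists_tau` and `B.SupD` the set `{L' | Sup n L L'}` is finite with `n + 1` elements; `finprod`
over a finite set: `finprod_mem_eq_finite_toFinset_prod`.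
-/

set_option autoImplicit false

namespace Pool.Agent.SS

open UpperHalfPlane Polynomial
open Pool.Agent.Work.CM (IsLat g2 g3 tauLat)
open scoped Pointwise MatrixGroups

private theorem smul_toAddSubgroup (m : ℂ) (L : Submodule ℤ ℂ) :
    (m • L).toAddSubgroup = L.toAddSubgroup.map (AddMonoidHom.mulLeft m) := by
  ext z
  rw [Submodule.mem_toAddSubgroup, Submodule.mem_smul_pointwise_iff_exists, AddSubgroup.mem_map]
  rfl

private theorem inv_smul_smul' {m : ℂ} (hm : m ≠ 0) (L : Submodule ℤ ℂ) : m⁻¹ • m • L = L := by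
  rw [smul_smul, inv_mul_cancel₀ hm, one_smul]

private theorem smul_inv_smul' {m : ℂ} (hm : m ≠ 0) (L : Submodule ℤ ℂ) : m • m⁻¹ • L = L := by
  rw [smul_smul, mul_inv_cancel₀ hm, one_smul]

theorem Sup_smul {n : ℕ} {L L' : Submodule ℤ ℂ} (h : Sup n L L') {m : ℂ} (hm : m ≠ 0) :
    Sup n (m • L) (m • L') := by
  refine ⟨h.lat.smul hm, h.lat'.smul hm, ?_, ?_⟩
  · intro z hz
    rw [Submodule.mem_smul_pointwise_iff_exists] at hz ⊢
    obtain ⟨s, hs, rfl⟩ := hz
    exact ⟨s, h.le hs, rfl⟩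
  · rw [smul_toAddSubgroup, smul_toAddSubgroup, AddSubgroup.relIndex_map_map_of_injective, h.idx]
    intro a b hab
    exact mul_left_cancel₀ hm hab

open Classical in
/-- the explicit finite set for `tauLat τ` -/
private noncomputable def expl (n : ℕ) (τ : ℍ) : Finset (Submodule ℤ ℂ) :=
  insert (supi n τ) ((Finset.range n).image fun b : ℕ => supb n τ b)

private theorem mem_expl {n : ℕ} (hn : n.Prime) {τ : ℍ} {L' : Submodule ℤ ℂ} :
    L' ∈ expl n τ ↔ Sup n (tauLat τ) L' := by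
  classical
  unfold expl
  rw [Finset.mem_insert, Finset.mem_image]
  constructor
  · rintro (rfl | ⟨b, _, rfl⟩)
    · exact Sup_supi hn τ
    · exact Sup_supb hn τ b
  · intro h
    rcases Sup_tauLat hn h with h | ⟨b, hb, h⟩
    · exact Or.inl h
    · exact Or.inr ⟨b, Finset.mem_range.mpr hb, h.symm⟩

private theorem fin_Sup {n : ℕ} (hn : n.Prime) {L : Submodule ℤ ℂ} (hL : IsLat L) :
    {L' | Sup n L L'}.Finite := by
  classical
  obtain ⟨m, hm, τ, rfl⟩ := exists_tau hL
  refine ((expl n τ).image fun M => m • M).finite_toSet.subset ?_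
  intro L' hL'
  rw [Finset.mem_coe, Finset.mem_image]
  refine ⟨m⁻¹ • L', ?_, smul_inv_smul' hm L'⟩
  rw [mem_expl hn]
  have h := Sup_smul (n := n) hL' (inv_ne_zero hm)
  rwa [inv_smul_smul' hm] at h

theorem mem_supF {n : ℕ} (hn : n.Prime) {L L' : Submodule ℤ ℂ} (hL : IsLat L) :
    L' ∈ supF n L ↔ Sup n L L' := by
  unfold supF
  rw [dif_pos (fin_Sup hn hL), Set.Finite.mem_toFinset]
  rfl

private theorem supF_tauLat {n : ℕ} (hn : n.Prime) (τ : ℍ) : supF n (tauLat τ) = expl n τ := by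
  ext L'
  rw [mem_supF hn (Pool.Agent.Work.CM.tauLat_isLat τ), mem_expl hn]

private theorem injOn_supb {n : ℕ} (hn : n.Prime) (τ : ℍ) :
    Set.InjOn (fun b : ℕ => supb n τ b) (Finset.range n : Finset ℕ) := by
  intro b hb b' hb' h
  rw [Finset.mem_coe, Finset.mem_range] at hb hb'
  exact supb_inj hn τ hb hb' h

private theorem notMem_image {n : ℕ} (hn : n.Prime) (τ : ℍ) [DecidableEq (Submodule ℤ ℂ)] :
    supi n τ ∉ (Finset.range n).image fun b : ℕ => supb n τ b := by
  rw [Finset.mem_image]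
  rintro ⟨b, _, h⟩
  exact supb_ne_supi hn τ b h

theorem supF_smul {n : ℕ} (hn : n.Prime) {L : Submodule ℤ ℂ} (hL : IsLat L) {m : ℂ}
    (hm : m ≠ 0) {M : Type*} [CommMonoid M] (F : Submodule ℤ ℂ → M) :
    ∏ L' ∈ supF n (m • L), F L' = ∏ L' ∈ supF n L, F (m • L') := by
  refine Finset.prod_nbij' (fun L' => m⁻¹ • L') (fun L' => m • L') ?_ ?_ ?_ ?_ ?_
  · intro L' h
    rw [mem_supF hn (hL.smul hm)] at h
    rw [mem_supF hn hL]
    have h2 := Sup_smul h (inv_ne_zero hm)
    rwa [inv_smul_smul' hm] at h2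
  · intro L' h
    rw [mem_supF hn hL] at h
    rw [mem_supF hn (hL.smul hm)]
    exact Sup_smul h hm
  · intro L' _
    exact smul_inv_smul' hm L'
  · intro L' _
    exact inv_smul_smul' hm L'
  · intro L' _
    show F L' = F (m • m⁻¹ • L')
    rw [smul_inv_smul' hm]

theorem card_supF {n : ℕ} (hn : n.Prime) {L : Submodule ℤ ℂ} (hL : IsLat L) :
    (supF n L).card = n + 1 := by
  classical
  have key : ∀ τ : ℍ, (supF n (tauLat τ)).card = n + 1 := by
    intro τ
    rw [supF_tauLat hn]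
    unfold expl
    rw [Finset.card_insert_of_notMem, Finset.card_image_of_injOn (injOn_supb hn τ),
      Finset.card_range]
    exact notMem_image hn τ
  obtain ⟨m, hm, τ, rfl⟩ := exists_tau hL
  have h := supF_smul hn (Pool.Agent.Work.CM.tauLat_isLat τ) hm
    (fun _ => (Multiplicative.ofAdd 1 : Multiplicative ℕ))
  rw [Finset.prod_const, Finset.prod_const] at h
  have h' := congrArg Multiplicative.toAdd h
  rw [toAdd_pow, toAdd_pow, toAdd_ofAdd, smul_eq_mul, smul_eq_mul, mul_one, mul_one] at h'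
  rw [h', key]

theorem finprod_Sup {n : ℕ} (hn : n.Prime) {L : Submodule ℤ ℂ} (hL : IsLat L)
    {M : Type*} [CommMonoid M] (F : Submodule ℤ ℂ → M) :
    ∏ᶠ L' ∈ {L' | Sup n L L'}, F L' = ∏ L' ∈ supF n L, F L' := by
  have h : {L' | Sup n L L'} = (supF n L : Set (Submodule ℤ ℂ)) := by
    ext L'
    rw [Finset.mem_coe, mem_supF hn hL]
    rfl
  rw [h, finprod_mem_coe_finset]

theorem prod_supF_tauLat {n : ℕ} (hn : n.Prime) (τ : ℍ) {M : Type*} [CommMonoid M]
    (F : Submodule ℤ ℂ → M) :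
    ∏ L' ∈ supF n (tauLat τ), F L' =
      F (supi n τ) * ∏ b ∈ Finset.range n, F (supb n τ b) := by
  classical
  rw [supF_tauLat hn]
  unfold expl
  rw [Finset.prod_insert, Finset.prod_image (injOn_supb hn τ)]
  exact notMem_image hn τ

theorem exists_Sup {n : ℕ} (hn : n.Prime) {L : Submodule ℤ ℂ} (hL : IsLat L) :
    ∃ L', Sup n L L' := by
  have h : 0 < (supF n L).card := by rw [card_supF hn hL]; omega
  obtain ⟨L', hL'⟩ := Finset.card_pos.mp h
  exact ⟨L', (mem_supF hn hL).mp hL'⟩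

end Pool.Agent.SS
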