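import Pool.Agent.Work.MP_a5099b_nt.B.Simple
import Pool.Agent.Work.MP_a5099b_nt.B.PhiX
import Pool.Agent.Work.MP_a5099b_nt.B.SupF

/-!
# Module B.Mult (M)

The multiplicity of `j(L)` as a root of `Φ_n(X, X)`. By scaling (`exists_tau`, `Sup_smul`, `jL_smul`) assume
`L = tauLat τ`. Let `P = PhiDiag n` over `ℂ`, `j0 = jL L`, `P = (X - j0)^r G`, `G(j0) ≠ 0`
(`P ≠ 0` by `PhiDiag_leadingCoeff`; `r` = root multiplicity). For `z` near `τ`:
`P(J(z)) = (J(z) - J(g_∞ z)) ∏_{b<n} (J(z) - J(g_b z))` (`PhiDiag_aeval`, `PhiAt_supF`, `prod_supF_tauLat`), where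
`J(g_∞ z) = jL (supi n z)`, `J(g_b z) = jL (supb n z b)`. Orders at `τ` (`analyticOrderAt_mul`,
`analyticOrderAt_pow`): the left side has order `r * 1 + 0`, as `J - j0` has a simple zero (`jL_deriv_ne`) and
`G(J(τ)) ≠ 0`; on the right side a factor has order `1` if it vanishes at `τ` (`simple_supb`,
`simple_supi`) and `0` otherwise. So `r` is the number of `L' ∈ supF n L` with `jL L' = jL L`; and
`{L' | Sup n L L' ∧ jL L' = jL L}` is this finite set (`mem_supF`, `Set.ncard_coe_finset`).
-/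

set_option autoImplicit false

namespace Pool.Agent.SS

open UpperHalfPlane Polynomial
open Pool.Agent.Work.CM (IsLat g2 g3 tauLat)
open scoped Pointwise MatrixGroups

open scoped Classical in
private theorem count_eq {n : ℕ} (hn : n.Prime) {L : Submodule ℤ ℂ} (hL : IsLat L) (c : ℂ) :
    {L' | Sup n L L' ∧ jL L' = c}.ncard = ∑ L' ∈ supF n L, if jL L' = c then 1 else 0 := by
  have h1 : {L' | Sup n L L' ∧ jL L' = c} = (((supF n L).filter fun L' => jL L' = c : Finset _) : Set _) := by
    ext L'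
    simp only [Set.mem_ofPred_eq, Finset.coe_filter, mem_supF hn hL]
  rw [h1, Set.ncard_coe_finset, Finset.card_filter]

open scoped Classical in
private theorem count_tau {n : ℕ} (hn : n.Prime) (τ : ℍ) (c : ℂ) :
    (∑ L' ∈ supF n (tauLat τ), if jL L' = c then 1 else 0) =
      (if jL (supi n τ) = c then 1 else 0) + ∑ b ∈ Finset.range n, if jL (supb n τ b) = c then 1 else 0 := by
  have h1 := prod_supF_tauLat hn τ (M := Multiplicative ℕ)
    (fun L' => Multiplicative.ofAdd (if jL L' = c then 1 else 0))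
  rw [← ofAdd_sum, ← ofAdd_sum, ← ofAdd_add] at h1
  exact Multiplicative.ofAdd.injective h1

open scoped Classical in
private theorem count_smul {n : ℕ} (hn : n.Prime) {L : Submodule ℤ ℂ} (hL : IsLat L) {m : ℂ} (hm : m ≠ 0)
    (c : ℂ) : (∑ L' ∈ supF n (m • L), if jL L' = c then 1 else 0) =
      ∑ L' ∈ supF n L, if jL L' = c then 1 else 0 := by
  have h1 := supF_smul hn hL hm (M := Multiplicative ℕ)
    (fun L' => Multiplicative.ofAdd (if jL L' = c then 1 else 0))
  rw [← ofAdd_sum, ← ofAdd_sum] at h1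
  rw [Multiplicative.ofAdd.injective h1]
  refine Finset.sum_congr rfl fun L' hL' => ?_
  rw [jL_smul ((mem_supF hn hL).1 hL').lat' hm]

private theorem order_prod {ι : Type} (s : Finset ι) (f : ι → ℂ → ℂ) (k : ι → ℕ) (z : ℂ)
    (hf : ∀ i ∈ s, AnalyticAt ℂ (f i) z) (hk : ∀ i ∈ s, analyticOrderAt (f i) z = (k i : ℕ∞)) :
    AnalyticAt ℂ (fun w => ∏ i ∈ s, f i w) z ∧
      analyticOrderAt (fun w => ∏ i ∈ s, f i w) z = ((∑ i ∈ s, k i : ℕ) : ℕ∞) := by
  classical
  induction s using Finset.induction_on with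
  | empty =>
    simp only [Finset.prod_empty, Finset.sum_empty, Nat.cast_zero]
    refine ⟨analyticAt_const, ?_⟩
    rw [(analyticAt_const (v := (1 : ℂ))).analyticOrderAt_eq_zero]
    exact one_ne_zero
  | insert a s ha ih =>
    obtain ⟨h1, h2⟩ := ih (fun i hi => hf i (Finset.mem_insert_of_mem hi))
      (fun i hi => hk i (Finset.mem_insert_of_mem hi))
    simp only [Finset.prod_insert ha, Finset.sum_insert ha]
    have h3 := hf a (Finset.mem_insert_self a s)
    refine ⟨h3.mul h1, ?_⟩
    have h4 := analyticOrderAt_mul h3 h1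
    rw [hk a (Finset.mem_insert_self a s), h2] at h4
    rw [Nat.cast_add, ← h4]
    rfl

open scoped Classical in
private theorem diag_tau {n : ℕ} (hn : n.Prime) (τ : ℍ) (h0 : jL (tauLat τ) ≠ 0)
    (h1 : jL (tauLat τ) ≠ 1728) :
    ((PhiDiag n).map (Int.castRingHom ℂ)).rootMultiplicity (jL (tauLat τ)) =
      ∑ L' ∈ supF n (tauLat τ), if jL L' = jL (tauLat τ) then 1 else 0 := by
  set P : ℂ[X] := (PhiDiag n).map (Int.castRingHom ℂ) with hP
  set j0 : ℂ := jL (tauLat τ) with hj0
  set J : ℂ → ℂ := fun z => jL (tauLat (ofComplex z)) with hJ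
  have hJτ : J τ = j0 := by
    rw [hJ, hj0]
    simp only [ofComplex_apply]
  have hJan : AnalyticAt ℂ J τ :=
    jL_differentiable.analyticAt ((isOpen_lt continuous_const Complex.continuous_im).mem_nhds τ.im_pos)
  have hJ1 : analyticOrderAt (fun z => J z - j0) τ = 1 := by
    rw [← hJτ]
    exact hJan.analyticOrderAt_sub_eq_one_of_deriv_ne_zero (jL_deriv_ne h0 h1)
  -- the product
  have hprod : ∀ z : ℂ, P.eval (J z) = (J z - jL (supi n (ofComplex z))) *
      ∏ b ∈ Finset.range n, (J z - jL (supb n (ofComplex z) b)) := by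
    intro z
    have e1 : P.eval (J z) = aeval (J z) (PhiDiag n) := by
      rw [hP, eval_map, aeval_def]
      rfl
    rw [e1, PhiDiag_aeval, hJ, PhiAt_supF hn (Pool.Agent.Work.CM.tauLat_isLat _), eval_prod,
      ← prod_supF_tauLat hn (ofComplex z) (fun L' => jL (tauLat (ofComplex z)) - jL L')]
    simp
  -- orders of the factors
  have hi : AnalyticAt ℂ (fun z => J z - jL (supi n (ofComplex z))) τ := hJan.sub (analytic_supi hn τ)
  have hb : ∀ b : ℕ, AnalyticAt ℂ (fun z => J z - jL (supb n (ofComplex z) b)) τ := fun b =>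
    hJan.sub (analytic_supb hn b τ)
  have hio : analyticOrderAt (fun z => J z - jL (supi n (ofComplex z))) τ =
      ((if jL (supi n τ) = j0 then 1 else 0 : ℕ) : ℕ∞) := by
    split_ifs with hc
    · rw [Nat.cast_one]
      exact simple_supi hn h0 h1 hc.symm
    · rw [Nat.cast_zero, hi.analyticOrderAt_eq_zero, hJτ, ofComplex_apply]
      exact sub_ne_zero.2 (Ne.symm hc)
  have hbo : ∀ b ∈ Finset.range n, analyticOrderAt (fun z => J z - jL (supb n (ofComplex z) b)) τ =
      ((if jL (supb n τ b) = j0 then 1 else 0 : ℕ) : ℕ∞) := by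
    intro b _
    split_ifs with hc
    · rw [Nat.cast_one]
      exact simple_supb hn b h0 h1 hc.symm
    · rw [Nat.cast_zero, (hb b).analyticOrderAt_eq_zero, hJτ, ofComplex_apply]
      exact sub_ne_zero.2 (Ne.symm hc)
  obtain ⟨hpa, hpo⟩ := order_prod (Finset.range n) (fun b z => J z - jL (supb n (ofComplex z) b))
    (fun b => if jL (supb n τ b) = j0 then 1 else 0) τ (fun b _ => hb b) hbo
  have htot : analyticOrderAt (fun z => P.eval (J z)) τ =
      ((∑ L' ∈ supF n (tauLat τ), if jL L' = j0 then 1 else 0 : ℕ) : ℕ∞) := by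
    rw [count_tau hn, Nat.cast_add, ← hio, ← hpo]
    have h4 := analyticOrderAt_mul hi hpa
    rw [← h4]
    refine analyticOrderAt_congr (Filter.Eventually.of_forall fun z => ?_)
    exact hprod z
  have hP0 : P ≠ 0 := by
    intro hP0
    have h5 : analyticOrderAt (fun z => P.eval (J z)) τ = ⊤ := by
      rw [analyticOrderAt_eq_top]
      exact Filter.Eventually.of_forall fun z => by rw [hP0, eval_zero]
    rw [h5] at htot
    exact absurd htot.symm (ENat.natCast_ne_top _)
  obtain ⟨G, hG1, hG2⟩ := exists_eq_pow_rootMultiplicity_mul_and_not_dvd P hP0 j0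
  have hG : G.eval j0 ≠ 0 := fun h => hG2 (dvd_iff_isRoot.2 h)
  have hGa : AnalyticAt ℂ (fun z => G.eval (J z)) τ := by
    have := hJan.aeval_polynomial G
    simpa [Polynomial.aeval_def] using this
  have hGo : analyticOrderAt (fun z => G.eval (J z)) τ = 0 := by
    rw [hGa.analyticOrderAt_eq_zero, hJτ]
    exact hG
  have hJs : AnalyticAt ℂ (fun z => J z - j0) τ := hJan.sub analyticAt_const
  have hr : analyticOrderAt (fun z => P.eval (J z)) τ = (P.rootMultiplicity j0 : ℕ∞) := by
    have h6 : analyticOrderAt (fun z => P.eval (J z)) τ =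
        analyticOrderAt (((fun z => J z - j0) ^ (P.rootMultiplicity j0)) * (fun z => G.eval (J z))) τ := by
      refine analyticOrderAt_congr (Filter.Eventually.of_forall fun z => ?_)
      have h7 := congrArg (fun Q : ℂ[X] => Q.eval (J z)) hG1
      simp only [eval_mul, eval_pow, eval_sub, eval_X, eval_C] at h7
      simp only [Pi.mul_apply, Pi.pow_apply]
      exact h7
    rw [h6, analyticOrderAt_mul (hJs.pow _) hGa, analyticOrderAt_pow hJs, hJ1, hGo]
    simp
  rw [hr] at htot
  exact_mod_cast htot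

theorem diag_mult {n : ℕ} (hn : n.Prime) {L : Submodule ℤ ℂ} (hL : IsLat L) (h0 : jL L ≠ 0)
    (h1 : jL L ≠ 1728) :
    ((PhiDiag n).map (Int.castRingHom ℂ)).rootMultiplicity (jL L) =
      {L' | Sup n L L' ∧ jL L' = jL L}.ncard := by
  classical
  rw [count_eq hn hL]
  obtain ⟨m, hm, τ, rfl⟩ := exists_tau hL
  have hj : jL (m • tauLat τ) = jL (tauLat τ) := jL_smul (Pool.Agent.Work.CM.tauLat_isLat τ) hm
  rw [hj] at h0 h1 ⊢
  rw [count_smul hn (Pool.Agent.Work.CM.tauLat_isLat τ) hm]
  exact diag_tau hn τ h0 h1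

end Pool.Agent.SS
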