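import Pool.Agent.Work.MP_a5099b_nt.B.EndR
import Pool.Agent.Work.MP_a5099b_nt.B.SupF

/-!
# Module B.Odd (M)

Parity of the number of self-isogenies. Let `E = {m : m L ⊆ L, |m|^2 = n}`. The map `m ↦ m⁻¹ L` is onto
`{L' | Sup n L L', jL L' = jL L}`: `Sup n L (m⁻¹L)` by `relIndex_smul` (scaled by `m`); conversely if `Sup n L L'` and
`jL L' = jL L`, then `L' = ν L` (`exists_smul_of_jL`), and `m = ν⁻¹` satisfies `mL ⊆ L` (`L ⊆ νL`), `|m|^2 = n`. Its fibres
are the pairs `{m, -m}` (`unit_smul`). The involution `m ↦ conj m` of `E` (`conj_smul_le`) induces an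
involution of the set of pairs; the pair of `m` is fixed iff `conj m = ± m`. `conj m = m`: `m` real, so
an integer (`real_mul_mem`) and `m^2 = n` prime: impossible. `conj m = -m`: `m = ± i√n = ± sq n`. So there is
exactly one fixed pair if `HasSq n L`, none otherwise, and the number of pairs has the parity of the
number of fixed pairs (`Finset.card_involution`-type lemma: `Finset.sum_involution`,
`Function.Involutive.card_fixedPoints`..., or `ZMod 2` sums). (`E` is finite since the set of `L'` is.)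
-/

set_option autoImplicit false

namespace Pool.Agent.SS

open UpperHalfPlane Polynomial
open Pool.Agent.Work.CM (IsLat g2 g3 tauLat)
open scoped Pointwise MatrixGroups

/-- a multiplier of norm `n` gives a root of `Φ_n(X, X)` -/
theorem Sup_of_mul {n : ℕ} {L : Submodule ℤ ℂ} (hL : IsLat L) {m : ℂ}
    (hm : Complex.normSq m = n) (hn : n ≠ 0) (hle : ∀ z ∈ L, m * z ∈ L) :
    Sup n L (m⁻¹ • L) := by
  have hm0 : m ≠ 0 := by
    rintro rfl
    rw [map_zero] at hm
    exact hn (by exact_mod_cast hm.symm)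
  have hle' : L ≤ m⁻¹ • L := by
    intro z hz
    rw [Submodule.mem_smul_pointwise_iff_exists]
    exact ⟨m * z, hle z hz, by rw [smul_eq_mul, inv_mul_cancel_left₀ hm0]⟩
  have h1 : m • (m⁻¹ • L) = L := smul_inv_smul₀ hm0 L
  have hL' : IsLat (m⁻¹ • L) := Pool.Agent.Work.CM.IsLat.smul hL (inv_ne_zero hm0)
  refine ⟨hL, hL', hle', ?_⟩
  have h2 := relIndex_smul hL' hm0 (by rw [h1]; exact hle')
  rw [h1, hm] at h2
  exact_mod_cast h2

theorem mul_of_Sup {n : ℕ} (hn : n ≠ 0) {L L' : Submodule ℤ ℂ} (h : Sup n L L')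
    (hj : jL L' = jL L) :
    ∃ m : ℂ, Complex.normSq m = n ∧ (∀ z ∈ L, m * z ∈ L) ∧ L' = m⁻¹ • L := by
  obtain ⟨ν, hν, rfl⟩ := exists_smul_of_jL h.lat h.lat' hj.symm
  have h1 : ν⁻¹ • (ν • L) = L := inv_smul_smul₀ hν L
  refine ⟨ν⁻¹, ?_, ?_, by rw [inv_inv]⟩
  · have h2 := relIndex_smul h.lat' (inv_ne_zero hν) (by rw [h1]; exact h.le)
    rw [h1, h.idx] at h2
    exact h2.symm
  · intro z hz
    obtain ⟨w, hw, hwz⟩ := (Submodule.mem_smul_pointwise_iff_exists _ _ _).1 (h.le hz)
    rw [← hwz, smul_eq_mul, inv_mul_cancel_left₀ hν]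
    exact hw

private theorem sq_imag {n : ℕ} {m : ℂ} (hm : Complex.normSq m = n)
    (hc : starRingEnd ℂ m = -m) : m = sq n ∨ m = -sq n := by
  have hre : m.re = 0 := by
    have := congrArg Complex.re hc
    simp at this
    linarith
  have him : m.im ^ 2 = n := by
    rw [← hm, Complex.normSq_apply, hre]
    ring
  have h2 : m.im = Real.sqrt n ∨ m.im = -Real.sqrt n := by
    rw [← him, Real.sqrt_sq_eq_abs]
    rcases abs_choice m.im with h | h
    · exact Or.inl h.symm
    · exact Or.inr (by rw [h, neg_neg])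
  rcases h2 with h | h
  · left
    apply Complex.ext
    · simp [sq, hre]
    · simp [sq, h]
  · right
    apply Complex.ext
    · simp [sq, hre]
    · simp [sq, h]

private theorem pm_of_eq {L : Submodule ℤ ℂ} (h0 : jL L ≠ 0) (h1 : jL L ≠ 1728) (hL : IsLat L)
    {a b : ℂ} (ha : a ≠ 0) (hb : b ≠ 0) (h : a⁻¹ • L = b⁻¹ • L) : b = a ∨ b = -a := by
  have h2 : (b * a⁻¹) • L = L := by
    rw [mul_smul, h, smul_inv_smul₀ hb]
  rcases unit_smul hL h0 h1 h2 with h3 | h3
  · left
    field_simp at h3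
    exact h3
  · right
    field_simp at h3
    exact h3

private theorem neg_inv_smul (m : ℂ) (L : Submodule ℤ ℂ) : (-m)⁻¹ • L = m⁻¹ • L := by
  ext z
  simp only [Submodule.mem_smul_pointwise_iff_exists]
  constructor
  · rintro ⟨w, hw, rfl⟩
    exact ⟨-w, L.neg_mem hw, by simp only [smul_eq_mul, inv_neg]; ring⟩
  · rintro ⟨w, hw, rfl⟩
    exact ⟨-w, L.neg_mem hw, by simp only [smul_eq_mul, inv_neg]; ring⟩

private theorem sq_normSq (n : ℕ) : Complex.normSq (sq n) = n := by
  rw [Complex.normSq_apply]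
  simp [sq]

private theorem sq_conj (n : ℕ) : starRingEnd ℂ (sq n) = -sq n := by
  unfold sq
  rw [map_mul, Complex.conj_I, Complex.conj_ofReal]
  ring

theorem odd_ncard {n : ℕ} (hn : n.Prime) {L : Submodule ℤ ℂ} (hL : IsLat L) (h0 : jL L ≠ 0)
    (h1 : jL L ≠ 1728) :
    Odd {L' | Sup n L L' ∧ jL L' = jL L}.ncard ↔ HasSq n L := by
  classical
  set T : Set (Submodule ℤ ℂ) := {L' | Sup n L L' ∧ jL L' = jL L} with hT
  have hfin : T.Finite := by
    refine ((supF n L).finite_toSet).subset ?_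
    intro L' h
    exact Finset.mem_coe.2 ((mem_supF hn hL).2 h.1)
  have : Fintype T := hfin.fintype
  have hex : ∀ L' : T, ∃ m : ℂ, Complex.normSq m = n ∧ (∀ z ∈ L, m * z ∈ L) ∧
      (L' : Submodule ℤ ℂ) = m⁻¹ • L := fun L' => mul_of_Sup hn.ne_zero L'.2.1 L'.2.2
  choose μ hμn hμL hμ using hex
  have hne : ∀ {m : ℂ}, Complex.normSq m = n → m ≠ 0 := by
    rintro m hm rfl
    rw [map_zero] at hm
    exact hn.ne_zero (by exact_mod_cast hm.symm)
  have hcn : ∀ {m : ℂ}, Complex.normSq m = n → Complex.normSq (starRingEnd ℂ m) = n := by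
    intro m hm
    rw [Complex.normSq_conj, hm]
  have hmemT : ∀ {m : ℂ}, Complex.normSq m = n → (∀ z ∈ L, m * z ∈ L) → m⁻¹ • L ∈ T := by
    intro m hm hle
    exact ⟨Sup_of_mul hL hm hn.ne_zero hle, jL_smul hL (inv_ne_zero (hne hm))⟩
  let ι : T → T := fun L' => ⟨(starRingEnd ℂ (μ L'))⁻¹ • L,
    hmemT (hcn (hμn L')) (conj_smul_le hL (hμL L'))⟩
  have hιι : ∀ L' : T, ι (ι L') = L' := by
    intro L'
    have h2 := hμ (ι L')
    have h3 : (starRingEnd ℂ (μ L'))⁻¹ • L = (μ (ι L'))⁻¹ • L := h2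
    have h4 := pm_of_eq h0 h1 hL (hne (hcn (hμn L'))) (hne (hμn (ι L'))) h3
    apply Subtype.ext
    show (starRingEnd ℂ (μ (ι L')))⁻¹ • L = (L' : Submodule ℤ ℂ)
    rcases h4 with h4 | h4
    · rw [h4, Complex.conj_conj, ← hμ L']
    · rw [h4, map_neg, Complex.conj_conj, neg_inv_smul, ← hμ L']
  have hfix : ∀ L' : T, ι L' = L' ↔ starRingEnd ℂ (μ L') = -μ L' := by
    intro L'
    constructor
    · intro h
      have h2 : (starRingEnd ℂ (μ L'))⁻¹ • L = (μ L')⁻¹ • L := by
        rw [← hμ L']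
        exact congrArg Subtype.val h
      rcases pm_of_eq h0 h1 hL (hne (hcn (hμn L'))) (hne (hμn L')) h2 with h3 | h3
      · exfalso
        have h4 : ((μ L').re : ℂ) = μ L' := Complex.conj_eq_iff_re.1 h3.symm
        obtain ⟨k, hk⟩ := real_mul_mem hL (r := (μ L').re) (by rw [h4]; exact hμL L')
        have h5 : ((k ^ 2 : ℤ) : ℝ) = (n : ℝ) := by
          rw [← hμn L', ← h4, Complex.normSq_ofReal, hk]
          push_cast
          ring
        have h6 : k ^ 2 = (n : ℤ) := by exact_mod_cast h5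
        have h7 : k.natAbs ^ 2 = n := by
          have := congrArg Int.natAbs h6
          rwa [Int.natAbs_pow, Int.natAbs_natCast] at this
        exact (Nat.Prime.not_prime_pow (le_refl 2)) (h7 ▸ hn)
      · have h4 := congrArg Neg.neg h3
        rw [neg_neg] at h4
        exact h4.symm
    · intro h
      apply Subtype.ext
      show (starRingEnd ℂ (μ L'))⁻¹ • L = (L' : Submodule ℤ ℂ)
      rw [h, neg_inv_smul, ← hμ L']
  have hmod : Fintype.card T ≡ Fintype.card (Function.fixedPoints ι) [MOD 2] := by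
    have : Fact (Nat.Prime 2) := ⟨Nat.prime_two⟩
    have h2 := Equiv.Perm.card_fixedPoints_modEq (f := (ι : Function.End T)) (p := 2) (n := 1) (by
      rw [pow_one]
      exact (pow_two (M := Function.End T) ι).trans (funext hιι))
    exact h2
  have hcard : T.ncard = Fintype.card T := by
    rw [Set.ncard_eq_toFinset_card', Set.toFinset_card]
  rw [hcard, Nat.odd_iff, hmod]
  constructor
  · intro h
    have h2 : 0 < Fintype.card (Function.fixedPoints ι) := by
      rcases Nat.eq_zero_or_pos (Fintype.card (Function.fixedPoints ι)) with h3 | h3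
      · rw [h3] at h
        exact absurd h (by norm_num)
      · exact h3
    obtain ⟨⟨L', hL'⟩⟩ := Fintype.card_pos_iff.1 h2
    have h3 := (hfix L').1 hL'
    rcases sq_imag (hμn L') h3 with h4 | h4
    · intro z hz
      rw [← h4]
      exact hμL L' z hz
    · intro z hz
      have h5 := L.neg_mem (hμL L' z hz)
      rw [h4] at h5
      have h6 : -(-sq n * z) = sq n * z := by ring
      rwa [h6] at h5
  · intro h
    have hs := sq_normSq n
    have hL0 : (sq n)⁻¹ • L ∈ T := hmemT hs h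
    have huniq : ∀ L' : T, ι L' = L' ↔ L' = ⟨(sq n)⁻¹ • L, hL0⟩ := by
      intro L'
      rw [hfix]
      constructor
      · intro h3
        apply Subtype.ext
        show (L' : Submodule ℤ ℂ) = (sq n)⁻¹ • L
        rcases sq_imag (hμn L') h3 with h4 | h4
        · rw [hμ L', h4]
        · rw [hμ L', h4, neg_inv_smul]
      · intro h3
        have h4 : (sq n)⁻¹ • L = (μ L')⁻¹ • L := by
          rw [← hμ L', h3]
        rcases pm_of_eq h0 h1 hL (hne hs) (hne (hμn L')) h4 with h5 | h5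
        · rw [h5, sq_conj]
        · rw [h5, map_neg, sq_conj]
    have h2 : Fintype.card (Function.fixedPoints ι) = 1 := by
      rw [Fintype.card_eq_one_iff]
      refine ⟨⟨⟨(sq n)⁻¹ • L, hL0⟩, (huniq _).2 rfl⟩, ?_⟩
      rintro ⟨L', hL'⟩
      exact Subtype.ext ((huniq L').1 hL')
    rw [h2]

end Pool.Agent.SS
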