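import Pool.Agent.Work.MP_a5099b_nt.B.OddP
import Pool.Agent.Work.MP_a5099b_nt.B.Odd
import Pool.Agent.Work.MP_a5099b_nt.B.Mult
import Pool.Agent.Work.MP_a5099b_nt.B.At
import Pool.Agent.Work.MP_a5099b_nt.B.Diag

/-!
# Module B.HHx (S-M)

The class polynomial `HH l`. `P = -PhiDiag l` is monic (`PhiDiag_leadingCoeff`). `odd_part` gives `H, S`. For
`x = jL L` (every `x` is of this form, `exists_jL`): if `x = 0` or `x = 1728`, `P(x) ≠ 0` (`diag_0`, `diag_1728`:
`l ≡ 7 mod 8`, `l ≡ 2 mod 3`), so `H(x) ≠ 0`; and no lattice `L` with `jL L = x` has `HasSq l L` (otherwise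
`Sup_of_mul` with `m = sq l`, `|sq l|^2 = l`, and `jL_smul`, `PhiAt_root` give `P(x) = 0`). If `x ≠ 0, 1728`:
`H(x) = 0` iff the multiplicity of `x` in `P` is odd (it is the multiplicity in `PhiDiag l`) iff (`diag_mult`)
the number of `L'` is odd iff (`odd_ncard`) `HasSq l L`. `HasSq l` depends only on `jL L` (scaling). So
`IsHH l H`. Uniqueness of `IsHH l`: two monic polynomials, separable over `ℂ`, with the same complex roots
are equal; so `HH l = H` and `HH_factor`. `HH_even`: `2l = deg H + 2 deg S` (`PhiDiag_natDegree`).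
-/

set_option autoImplicit false

namespace Pool.Agent.SS

open Polynomial
open Pool.Agent.Work.CM (IsLat g2 g3 tauLat)
open scoped Pointwise MatrixGroups

private theorem hhx_aeval (x : ℂ) (F : ℤ[X]) :
    aeval x F = (F.map (Int.castRingHom ℂ)).eval x := by
  rw [aeval_def, eval_map]
  rfl

private theorem hhx_normSq (l : ℕ) : Complex.normSq (sq l) = l := by
  rw [sq, Complex.normSq_mul, Complex.normSq_I, one_mul, Complex.normSq_ofReal,
    Real.mul_self_sqrt (Nat.cast_nonneg l)]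

private theorem hhx_smul {l : ℕ} {L : Submodule ℤ ℂ} (h : HasSq l L) (m : ℂ) :
    HasSq l (m • L) := by
  intro z hz
  obtain ⟨w, hw, rfl⟩ := Submodule.mem_smul_pointwise_iff_exists z m L |>.1 hz
  rw [smul_eq_mul, show sq l * (m * w) = m • (sq l * w) by rw [smul_eq_mul]; ring]
  exact Submodule.smul_mem_pointwise_smul _ m L (h w hw)

private theorem hhx_not {l : ℕ} (hl : LPrime l) {x : ℂ} (hx : aeval x (PhiDiag l) ≠ 0) :
    ¬ ∃ L : Submodule ℤ ℂ, IsLat L ∧ HasSq l L ∧ jL L = x := by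
  rintro ⟨L, hL, hs, rfl⟩
  have h0 : l ≠ 0 := hl.prime.ne_zero
  have hm : sq l ≠ 0 := by
    intro h
    have h1 := hhx_normSq l
    rw [h, map_zero] at h1
    exact h0 (by exact_mod_cast h1.symm)
  apply hx
  rw [PhiDiag_aeval, PhiAt_root hl.prime hL]
  exact ⟨_, Sup_of_mul hL (hhx_normSq l) h0 hs, jL_smul hL (inv_ne_zero hm)⟩

private theorem hhx_exists {l : ℕ} (hl : LPrime l) :
    ∃ H S : ℤ[X], IsHH l H ∧ S.Monic ∧ PhiDiag l = -(H * S ^ 2) := by
  have hP : (-PhiDiag l).Monic := by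
    rw [Monic, leadingCoeff_neg, PhiDiag_leadingCoeff hl.prime, neg_neg]
  obtain ⟨H, S, hH, hS, he, hsep, hodd⟩ := odd_part hP
  have he' : PhiDiag l = -(H * S ^ 2) := by rw [← he, neg_neg]
  refine ⟨H, S, ⟨hH, hsep, ?_⟩, hS, he'⟩
  intro x
  have hval : aeval x H = 0 → aeval x (PhiDiag l) = 0 := by
    intro h
    rw [he', map_neg, map_mul, h, zero_mul, neg_zero]
  by_cases hx0 : x = 0
  · have h1 : aeval x (PhiDiag l) ≠ 0 := by
      rw [hx0]
      exact diag_0 hl.prime hl.mod3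
    exact ⟨fun h => absurd (hval h) h1, fun h => absurd h (hhx_not hl h1)⟩
  by_cases hx1 : x = 1728
  · have h1 : aeval x (PhiDiag l) ≠ 0 := by
      rw [hx1]
      exact diag_1728 hl.prime (by have := hl.mod8; omega)
    exact ⟨fun h => absurd (hval h) h1, fun h => absurd h (hhx_not hl h1)⟩
  obtain ⟨τ, rfl⟩ := exists_jL x
  have hL : IsLat (tauLat τ) := Pool.Agent.Work.CM.tauLat_isLat τ
  rw [hodd, Polynomial.map_neg, ← count_roots, roots_neg, count_roots, diag_mult hl.prime hL hx0 hx1,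
    odd_ncard hl.prime hL hx0 hx1]
  constructor
  · intro h
    exact ⟨_, hL, h, rfl⟩
  · rintro ⟨L, hL1, hs, hj⟩
    obtain ⟨m, -, hm⟩ := exists_smul_of_jL hL1 hL hj
    rw [hm]
    exact hhx_smul hs m

theorem isHH {l : ℕ} (hl : LPrime l) : IsHH l (HH l) := by
  obtain ⟨H, -, hH, -⟩ := hhx_exists hl
  exact Classical.epsilon_spec (p := IsHH l) ⟨H, hH⟩

theorem IsHH.unique {l : ℕ} {H H' : ℤ[X]} (h : IsHH l H) (h' : IsHH l H') : H = H' := by
  apply Polynomial.map_injective (Int.castRingHom ℂ) Int.cast_injective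
  have key : ∀ G : ℤ[X], IsHH l G → ∀ x : ℂ, x ∈ (G.map (Int.castRingHom ℂ)).roots ↔
      ∃ L : Submodule ℤ ℂ, IsLat L ∧ HasSq l L ∧ jL L = x := by
    intro G hG x
    rw [mem_roots (hG.monic.map _).ne_zero, IsRoot, ← hhx_aeval]
    exact hG.spec x
  have hr : (H.map (Int.castRingHom ℂ)).roots = (H'.map (Int.castRingHom ℂ)).roots := by
    rw [Multiset.Nodup.ext (nodup_roots h.sep) (nodup_roots h'.sep)]
    intro x
    rw [key H h, key H' h']
  have e1 := (IsAlgClosed.splits (H.map (Int.castRingHom ℂ))).eq_prod_roots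
  have e2 := (IsAlgClosed.splits (H'.map (Int.castRingHom ℂ))).eq_prod_roots
  rw [(h.monic.map _).leadingCoeff] at e1
  rw [(h'.monic.map _).leadingCoeff] at e2
  rw [e1, e2, hr]

theorem HH_factor {l : ℕ} (hl : LPrime l) :
    ∃ S : ℤ[X], S.Monic ∧ PhiDiag l = -(HH l * S ^ 2) := by
  obtain ⟨H, S, hH, hS, he⟩ := hhx_exists hl
  refine ⟨S, hS, ?_⟩
  rw [(isHH hl).unique hH]
  exact he

theorem HH_even {l : ℕ} (hl : LPrime l) : Even (HH l).natDegree := by
  obtain ⟨S, hS, he⟩ := HH_factor hl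
  have h1 := PhiDiag_natDegree hl.prime
  rw [he, natDegree_neg, (isHH hl).monic.natDegree_mul (hS.pow 2), hS.natDegree_pow] at h1
  rw [Nat.even_iff]
  omega

end Pool.Agent.SS
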