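import Pool.Agent.Work.MP_a5099b_nt.B.PhiJ

/-!
# Module B.Sep (M)

Separability. Let `D ∈ ℤ[X]` be the resultant of `Phi n` and its derivative in `Y`
(`Polynomial.resultant (Phi n) (derivative (Phi n)) (n+1) n`, or the discriminant). For a field `k` and
`x ∈ k`, `aeval x D` is the resultant of the monic polynomial `PhiAt n x` of degree `n + 1` and its
derivative (as a polynomial of formal degree `n`; `Polynomial.resultant_map_map`), and it is not zero iff
`PhiAt n x` is separable (`Polynomial.resultant_ne_zero_iff...`/ product over the roots of `f`). In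
characteristic `p ≠ n`: let `K` be an algebraic closure of `F_p`, `ζ ∈ K` a primitive `n`-th root of unity.
`PhiAt n (J(t^n))` over `K((t))` is the product of the `n + 1` different linear factors of `PhiAt_prod`
(orders `-n^2` and `-1`, leading coefficients `ζ^(-b)`), so it is separable and `D(J(t^n)) ≠ 0` in `K((t))`;
hence `D mod p ≠ 0`.
(Any other construction of `D` is fine: e.g. `D` = norm or the constant in a Bezout relation.)
-/

set_option autoImplicit false

namespace Pool.Agent.SS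

open UpperHalfPlane Polynomial
open Pool.Agent.Work.CM (IsLat g2 g3 tauLat)
open scoped Pointwise MatrixGroups

/-- the discriminant used: the resultant of `Phi n` and its derivative -/
private noncomputable def Dsep (n : ℕ) : ℤ[X] := resultant (Phi n) (derivative (Phi n)) (n + 1) n

private theorem aeval_Dsep {A : Type*} [CommRing A] (n : ℕ) (x : A) :
    aeval x (Dsep n) = resultant (PhiAt n x) (derivative (PhiAt n x)) (n + 1) n := by
  unfold Dsep PhiAt
  rw [derivative_map, resultant_map_map]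
  rfl

private theorem deg_aux {n : ℕ} (hn : n.Prime) {A : Type*} [CommRing A] [Nontrivial A] (x : A) :
    (PhiAt n x).natDegree ≤ n + 1 ∧ (derivative (PhiAt n x)).natDegree ≤ n := by
  have h := PhiAt_natDegree hn x
  refine ⟨h.le, ?_⟩
  have h1 := natDegree_derivative_le (PhiAt n x)
  rw [h] at h1
  exact h1.trans (by omega)

private theorem sep_of_ne {n : ℕ} (hn : n.Prime) {k : Type*} [Field k] {x : k}
    (h : aeval x (Dsep n) ≠ 0) : (PhiAt n x).Separable := by
  rw [aeval_Dsep] at h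
  obtain ⟨hd1, hd2⟩ := deg_aux hn x
  obtain ⟨a, b, -, -, e⟩ := exists_mul_add_mul_eq_C_resultant (PhiAt n x) (derivative (PhiAt n x))
    hd1 hd2 (Or.inl (Nat.succ_ne_zero n))
  refine ⟨C (resultant (PhiAt n x) (derivative (PhiAt n x)) (n + 1) n)⁻¹ * a,
    C (resultant (PhiAt n x) (derivative (PhiAt n x)) (n + 1) n)⁻¹ * b, ?_⟩
  have e2 : C (resultant (PhiAt n x) (derivative (PhiAt n x)) (n + 1) n)⁻¹ *
      C (resultant (PhiAt n x) (derivative (PhiAt n x)) (n + 1) n) = (1 : k[X]) := by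
    rw [← C_mul, inv_mul_cancel₀ h, C_1]
  calc _ = C (resultant (PhiAt n x) (derivative (PhiAt n x)) (n + 1) n)⁻¹ *
        (PhiAt n x * a + derivative (PhiAt n x) * b) := by ring
    _ = 1 := by rw [e, e2]

private theorem ne_of_sep {n : ℕ} (hn : n.Prime) {k : Type*} [Field k] {x : k}
    (h : (PhiAt n x).Separable) : aeval x (Dsep n) ≠ 0 := by
  rw [aeval_Dsep]
  obtain ⟨hd1, hd2⟩ := deg_aux hn x
  have hm : (PhiAt n x).Monic := PhiAt_monic hn x
  have hdeg : (PhiAt n x).natDegree = n + 1 := PhiAt_natDegree hn x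
  have hu := (isUnit_resultant_iff_isCoprime hm).2 h
  rw [hdeg] at hu
  obtain ⟨c, hc⟩ := Nat.exists_eq_add_of_le hd2
  have e := resultant_add_right_deg (PhiAt n x) (derivative (PhiAt n x)) (n + 1)
    (derivative (PhiAt n x)).natDegree c le_rfl
  rw [← hc] at e
  have hcoeff : (PhiAt n x).coeff (n + 1) = 1 := by
    rw [← hdeg]
    exact hm
  rw [hcoeff, one_pow, one_mul] at e
  rw [e]
  exact hu.ne_zero

private theorem charzero_aux {p : ℕ} {L : Type*} [CommRing L] (g : ZMod p →+* L) {D : ℤ[X]}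
    (hD : D.map (Int.castRingHom (ZMod p)) = 0) (x : L) : aeval x D = 0 := by
  have h1 : algebraMap ℤ L = g.comp (Int.castRingHom (ZMod p)) := RingHom.ext_int _ _
  rw [aeval_def, h1, ← eval₂_map, hD, eval₂_zero]

private theorem sep_Jq {K : Type*} [Field K] {n : ℕ} (hn : n.Prime) {ζ : K}
    (hζ : IsPrimitiveRoot ζ n) :
    (PhiAt n (lexp n (lmap (Int.castRingHom K) Jq))).Separable := by
  rw [PhiAt_prod hn hζ]
  have hc1 : (lmap (Int.castRingHom K) Jq).coeff (-1) = 1 := by
    show (Int.castRingHom K) (Jq.coeff (-1)) = 1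
    rw [Jq_coeff_neg_one, map_one]
  have hζ0 : ζ ≠ 0 := hζ.ne_zero hn.ne_zero
  have hb : ∀ b : ℕ, (lsc (ζ ^ b) (lmap (Int.castRingHom K) Jq)).coeff (-1) = (ζ ^ b)⁻¹ := by
    intro b
    show (ζ ^ b) ^ (-1 : ℤ) * (lmap (Int.castRingHom K) Jq).coeff (-1) = _
    rw [hc1, mul_one, zpow_neg_one]
  have hn2 : (lexp (n ^ 2) (lmap (Int.castRingHom K) Jq)).coeff (-1) = 0 := by
    apply lexp_coeff_of_not_dvd (pow_ne_zero 2 hn.ne_zero)
    intro hd
    have h1 : ((n ^ 2 : ℕ) : ℤ) ∣ 1 := by
      rw [← dvd_neg]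
      exact hd
    have h2 : n ^ 2 ∣ 1 := by exact_mod_cast h1
    have h3 := Nat.dvd_one.1 h2
    have h4 := hn.two_le
    nlinarith
  set f : ℕ → LaurentSeries K := fun b =>
    if b = n then lexp (n ^ 2) (lmap (Int.castRingHom K) Jq)
      else lsc (ζ ^ b) (lmap (Int.castRingHom K) Jq) with hf
  have e : (X - C (lexp (n ^ 2) (lmap (Int.castRingHom K) Jq))) *
      ∏ b ∈ Finset.range n, (X - C (lsc (ζ ^ b) (lmap (Int.castRingHom K) Jq))) =
      ∏ b ∈ Finset.range (n + 1), (X - C (f b)) := by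
    rw [Finset.prod_range_succ, mul_comm]
    congr 1
    · refine Finset.prod_congr rfl fun b hb => ?_
      have : b ≠ n := (Finset.mem_range.1 hb).ne
      rw [hf]
      simp only [if_neg this]
    · rw [hf]
      simp only [if_true]
  rw [e, separable_prod_X_sub_C_iff']
  intro b hbm b' hbm' hbb
  have hbm1 := Finset.mem_range.1 hbm
  have hbm1' := Finset.mem_range.1 hbm'
  have hcoe : (f b).coeff (-1) = (f b').coeff (-1) := by rw [hbb]
  rw [hf] at hcoe
  by_cases h1 : b = n
  · by_cases h2 : b' = n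
    · rw [h1, h2]
    · simp only [if_pos h1, if_neg h2] at hcoe
      rw [hn2, hb] at hcoe
      exact absurd hcoe.symm (inv_ne_zero (pow_ne_zero _ hζ0))
  · by_cases h2 : b' = n
    · simp only [if_neg h1, if_pos h2] at hcoe
      rw [hn2, hb] at hcoe
      exact absurd hcoe (inv_ne_zero (pow_ne_zero _ hζ0))
    · simp only [if_neg h1, if_neg h2] at hcoe
      rw [hb, hb, inv_inj] at hcoe
      exact hζ.pow_inj (by omega) (by omega) hcoe

theorem PhiAt_sep {n p : ℕ} (hn : n.Prime) (hp : p.Prime) (hpn : p ≠ n) :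
    ∃ D : ℤ[X], D.map (Int.castRingHom (ZMod p)) ≠ 0 ∧
      ∀ (k : Type) [Field k] [CharP k p] (x : k), aeval x D ≠ 0 → (PhiAt n x).Separable := by
  haveI : Fact p.Prime := ⟨hp⟩
  refine ⟨Dsep n, ?_, fun k _ _ x hx => sep_of_ne hn hx⟩
  intro h0
  have hn0 : ((n : ℕ) : AlgebraicClosure (ZMod p)) ≠ 0 := by
    rw [Ne, CharP.cast_eq_zero_iff (AlgebraicClosure (ZMod p)) p]
    intro hd
    exact hpn ((Nat.prime_dvd_prime_iff_eq hp hn).1 hd)
  haveI : NeZero ((n : ℕ) : AlgebraicClosure (ZMod p)) := ⟨hn0⟩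
  obtain ⟨ζ, hζ⟩ := HasEnoughRootsOfUnity.exists_primitiveRoot (AlgebraicClosure (ZMod p)) n
  have h1 := ne_of_sep hn (sep_Jq hn hζ)
  refine h1 (charzero_aux ?_ h0 _)
  exact (HahnSeries.C : AlgebraicClosure (ZMod p) →+* LaurentSeries (AlgebraicClosure (ZMod p))).comp
    (algebraMap (ZMod p) (AlgebraicClosure (ZMod p)))

end Pool.Agent.SS
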