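import Pool.Agent.Work.MP_a5099b_nt.A.Theta
import Pool.Agent.Work.MP_a5099b_nt.A.Lat

/-!
# Module B.Der (S-M)

The derivative of `j`. `jL_deriv_ne`: `deriv_j` and `E₄(τ) ≠ 0` (as `j(τ) = E₄³/Δ ≠ 0`), `E₆(τ) ≠ 0` (as
`j - 1728 = E₆²/Δ`), `Derivative.normalizedDerivOfComplex` is `(2πi)^(-1) deriv (f ∘ ofComplex) τ`.
`exists_sl_of_jL`: `exists_smul_of_jL` gives `m • tauLat τ = tauLat τ'` up to the order:
`tauLat τ' = m • tauLat τ`; so `(τ', 1)` and `(mτ, m)` are two bases of the same lattice: `τ' = m(aτ + b)`,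
`1 = m(cτ + d)` with an integral invertible matrix, of determinant `1` since both `τ, τ'` have positive
imaginary part; so `τ' = (aτ+b)/(cτ+d)`.
-/

set_option autoImplicit false

namespace Pool.Agent.SS

open UpperHalfPlane Polynomial
open Pool.Agent.Work.CM (IsLat g2 g3 tauLat)
open scoped Pointwise MatrixGroups

theorem jL_deriv_ne {τ : ℍ} (h0 : jL (tauLat τ) ≠ 0) (h1 : jL (tauLat τ) ≠ 1728) :
    deriv (fun z : ℂ => jL (tauLat (ofComplex z))) τ ≠ 0 := by
  intro hd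
  have h := deriv_j τ
  unfold Derivative.normalizedDerivOfComplex at h
  have hcomp : ((fun τ : ℍ => jL (tauLat τ)) ∘ ofComplex : ℂ → ℂ)
      = fun z : ℂ => jL (tauLat (ofComplex z)) := rfl
  rw [hcomp, hd, mul_zero, zero_mul] at h
  have hdl : dl (tauLat τ) ≠ 0 := dl_ne_zero (Pool.Agent.Work.CM.tauLat_isLat τ)
  have h' : ModularForm.E₄ τ ^ 2 * ModularForm.E₆ τ = 0 := by
    have := congrArg Neg.neg h
    rw [neg_zero, neg_neg] at this
    exact this.symm
  rcases mul_eq_zero.mp h' with h4 | h6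
  · have h4' : ModularForm.E₄ τ = 0 := by simpa using h4
    apply h0
    rw [jL_eq, e4_tauLat, h4']
    simp
  · apply h1
    have h6' : e6 (tauLat τ) = 0 := by rw [e6_tauLat, h6]
    have hd1 : dl (tauLat τ) = e4 (tauLat τ) ^ 3 / 1728 := by
      unfold dl
      rw [h6']
      ring
    rw [hd1] at hdl
    have hne : e4 (tauLat τ) ^ 3 ≠ 0 := by
      intro h3
      apply hdl
      rw [h3, zero_div]
    rw [jL_eq, hd1, div_div_eq_mul_div, mul_comm, mul_div_assoc, div_self hne, mul_one]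

theorem jL_differentiable : DifferentiableOn ℂ (fun z : ℂ => jL (tauLat (ofComplex z)))
    {z : ℂ | 0 < z.im} := by
  have hE4 : DifferentiableOn ℂ ((ModularForm.E₄ : ℍ → ℂ) ∘ ofComplex) {z : ℂ | 0 < z.im} :=
    UpperHalfPlane.mdifferentiable_iff.mp ModularForm.E₄.holo'
  have hE6 : DifferentiableOn ℂ ((ModularForm.E₆ : ℍ → ℂ) ∘ ofComplex) {z : ℂ | 0 < z.im} :=
    UpperHalfPlane.mdifferentiable_iff.mp ModularForm.E₆.holo'
  have heq : (fun z : ℂ => jL (tauLat (ofComplex z))) = fun z : ℂ =>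
      (((ModularForm.E₄ : ℍ → ℂ) ∘ ofComplex) z) ^ 3 /
      (((((ModularForm.E₄ : ℍ → ℂ) ∘ ofComplex) z) ^ 3 -
        (((ModularForm.E₆ : ℍ → ℂ) ∘ ofComplex) z) ^ 2) / 1728) := by
    funext z
    rw [jL_eq]
    unfold dl
    rw [e4_tauLat, e6_tauLat]
    rfl
  rw [heq]
  refine (hE4.pow 3).div (((hE4.pow 3).sub (hE6.pow 2)).div_const _) ?_
  intro z _
  have := dl_ne_zero (Pool.Agent.Work.CM.tauLat_isLat (ofComplex z))
  unfold dl at this
  rw [e4_tauLat, e6_tauLat] at this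
  exact this

private theorem mem_tauLat {τ : ℍ} {z : ℂ} :
    z ∈ tauLat τ ↔ ∃ a b : ℤ, (a : ℂ) * τ + b = z := by
  unfold tauLat
  rw [Submodule.mem_span_pair]
  simp only [zsmul_eq_mul, mul_one]

theorem exists_sl_of_jL {τ τ' : ℍ} (h : jL (tauLat τ) = jL (tauLat τ')) :
    ∃ γ : SL(2, ℤ), γ • τ = τ' := by
  obtain ⟨m, hm, hL⟩ := exists_smul_of_jL (Pool.Agent.Work.CM.tauLat_isLat τ)
    (Pool.Agent.Work.CM.tauLat_isLat τ') h
  have hτ' : (τ' : ℂ) ∈ m • tauLat τ := by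
    rw [← hL, mem_tauLat]
    exact ⟨1, 0, by simp⟩
  have h1 : (1 : ℂ) ∈ m • tauLat τ := by
    rw [← hL, mem_tauLat]
    exact ⟨0, 1, by simp⟩
  have hmτ : m * (τ : ℂ) ∈ tauLat τ' := by
    rw [hL, Pool.Agent.Work.CM.mem_smul_iff hm, mem_tauLat]
    exact ⟨1, 0, by simp⟩
  have hm1 : m * 1 ∈ tauLat τ' := by
    rw [hL, Pool.Agent.Work.CM.mem_smul_iff hm, mem_tauLat]
    exact ⟨0, 1, by simp⟩
  rw [Submodule.mem_smul_pointwise_iff_exists] at hτ' h1
  obtain ⟨s, hs, hs'⟩ := hτ'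
  obtain ⟨t, ht, ht'⟩ := h1
  rw [mem_tauLat] at hs ht hmτ hm1
  obtain ⟨a, b, rfl⟩ := hs
  obtain ⟨c, d, rfl⟩ := ht
  obtain ⟨a', b', h3⟩ := hmτ
  obtain ⟨c', d', h4⟩ := hm1
  rw [smul_eq_mul] at hs' ht'
  -- integer relations
  have indep : ∀ x y : ℤ, (x : ℂ) * τ + y = 0 → x = 0 ∧ y = 0 := by
    intro x y hxy
    have him := congrArg Complex.im hxy
    have hre := congrArg Complex.re hxy
    simp only [Complex.add_im, Complex.mul_im, Complex.intCast_re, Complex.intCast_im, zero_mul,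
      add_zero, Complex.zero_im, Complex.add_re, Complex.mul_re, sub_zero, Complex.zero_re] at him hre
    have hx : (x : ℝ) = 0 := by
      rcases mul_eq_zero.mp him with h5 | h5
      · exact h5
      · exact absurd h5 τ.im_pos.ne'
    rw [hx, zero_mul, zero_add] at hre
    exact ⟨by exact_mod_cast hx, by exact_mod_cast hre⟩
  have e1 : ((a' * a + b' * c - 1 : ℤ) : ℂ) * τ + ((a' * b + b' * d : ℤ) : ℂ) = 0 := by
    have : m * (((a' * a + b' * c - 1 : ℤ) : ℂ) * τ + ((a' * b + b' * d : ℤ) : ℂ)) = 0 := by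
      push_cast
      linear_combination (a' : ℂ) * hs' + (b' : ℂ) * ht' + h3
    exact (mul_eq_zero.mp this).resolve_left hm
  have e2 : ((c' * a + d' * c : ℤ) : ℂ) * τ + ((c' * b + d' * d - 1 : ℤ) : ℂ) = 0 := by
    have : m * (((c' * a + d' * c : ℤ) : ℂ) * τ + ((c' * b + d' * d - 1 : ℤ) : ℂ)) = 0 := by
      push_cast
      linear_combination (c' : ℂ) * hs' + (d' : ℂ) * ht' + h4
    exact (mul_eq_zero.mp this).resolve_left hm
  obtain ⟨r1, r2⟩ := indep _ _ e1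
  obtain ⟨r3, r4⟩ := indep _ _ e2
  have hdet : (a' * d' - b' * c') * (a * d - b * c) = 1 := by
    linear_combination (d' * d + c' * b) * r1 - (c' * a + d' * c) * r2 + r4
  have hu : a * d - b * c = 1 ∨ a * d - b * c = -1 := by
    apply Int.isUnit_iff.mp
    exact IsUnit.of_mul_eq_one _ (by rw [mul_comm]; exact hdet)
  have hmul : (τ' : ℂ) * ((c : ℂ) * τ + d) = (a : ℂ) * τ + b := by
    linear_combination (-((c : ℂ) * τ + d)) * hs' + ((a : ℂ) * τ + b) * ht'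
  have hy := τ.im_pos
  have hv := τ'.im_pos
  have him := congrArg Complex.im hmul
  have hre := congrArg Complex.re hmul
  simp only [Complex.add_im, Complex.mul_im, Complex.intCast_re, Complex.intCast_im, zero_mul,
    add_zero, Complex.add_re, Complex.mul_re, sub_zero] at him hre
  have hpos : ((a * d - b * c : ℤ) : ℝ) * (τ : ℂ).im
      = (τ' : ℂ).im * (((c : ℝ) * (τ : ℂ).re + d) ^ 2 + ((c : ℝ) * (τ : ℂ).im) ^ 2) := by
    push_cast
    linear_combination (-((c : ℝ) * (τ : ℂ).re + d)) * him + ((c : ℝ) * (τ : ℂ).im) * hre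
  have hdet1 : a * d - b * c = 1 := by
    rcases hu with h5 | h5
    · exact h5
    · exfalso
      rw [h5] at hpos
      push_cast at hpos
      have h6 : 0 ≤ (τ' : ℂ).im * (((c : ℝ) * (τ : ℂ).re + d) ^ 2 + ((c : ℝ) * (τ : ℂ).im) ^ 2) := by
        have : 0 ≤ (τ' : ℂ).im := hv.le
        positivity
      have h7 : 0 < (τ : ℂ).im := hy
      linarith
  have hne : ((c : ℂ) * τ + d) ≠ 0 := by
    intro h5
    rw [h5, mul_zero] at ht'
    exact zero_ne_one ht'
  obtain ⟨γ, ga, gb, gc, gd⟩ : ∃ γ : SL(2, ℤ), γ 0 0 = a ∧ γ 0 1 = b ∧ γ 1 0 = c ∧ γ 1 1 = d :=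
    ⟨⟨!![a, b; c, d], by rw [Matrix.det_fin_two_of]; exact hdet1⟩, rfl, rfl, rfl, rfl⟩
  refine ⟨γ, ?_⟩
  apply UpperHalfPlane.ext
  rw [UpperHalfPlane.coe_specialLinearGroup_apply, ga, gb, gc, gd, div_eq_iff]
  · simpa using hmul.symm
  · simpa using hne

end Pool.Agent.SS
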