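import Pool.Agent.Work.MP_a5099b_nt.A.Lat
import Pool.Agent.Work.MP_a5099b_nt.A.Defs

/-!
# Module B.EndR (M)

Multipliers of a lattice. Let `L = ℤω₁ + ℤω₂`, `m L ⊆ L`, `m ≠ 0`: `mω₁ = aω₁ + bω₂`, `mω₂ = cω₁ + dω₂` (integers).
Then `m` is an eigenvalue of the integral matrix `M = (a b; c d)`, and if `m` is not real the other one is
`conj m`, so `m + conj m = a + d`, `m conj m = det M = |m|^2`. If `m` is real: `(a - m)ω₁ + bω₂ = 0` gives `b = 0`,
`m = a` (independence over `ℝ`), similarly `c = 0`, `d = m`: `m` is an integer and `det M = m^2`. So in all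
cases `det M = |m|^2`, and the index of `mL` in `L` is `|det M|`
(`AddSubgroup.relIndex`, `Submodule`-index of the image of an integral matrix:
`Int.natAbs_det_equiv`/`Submodule.natAbs_det_equiv`, or `ZLattice.covolume` facts:
`ZLattice.covolume_div_covolume_eq_relIndex`, the covolume of `mL` is `|m|^2` times that of `L`).
`conj_smul_le`: `conj m = (a + d) - m` (not real case), `conj m = m` (real case).
`unit_smul`: `m L = L`, `e4 (mL) = m^(-4) e4 L` and `e4 L ≠ 0` (as `j ≠ 0`) give `m^4 = 1`; `e6 L ≠ 0` (as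
`j ≠ 1728`) gives `m^6 = 1`; so `m^2 = 1`.
-/

set_option autoImplicit false

namespace Pool.Agent.SS

open UpperHalfPlane Polynomial
open Pool.Agent.Work.CM (IsLat g2 g3 tauLat)
open scoped Pointwise MatrixGroups

/-- multiplication by `m` on a lattice -/
private def mulMap (M : Submodule ℤ ℂ) (m : ℂ) (hle : ∀ z ∈ M, m * z ∈ M) : M →ₗ[ℤ] M where
  toFun x := ⟨m * x, hle x x.2⟩
  map_add' x y := by
    ext1
    simp [mul_add]
  map_smul' k x := by
    ext1
    simp [mul_left_comm]

private theorem det_mulMap {M : Submodule ℤ ℂ} (hM : IsLat M) (m : ℂ) (hle : ∀ z ∈ M, m * z ∈ M) :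
    ((LinearMap.det (mulMap M m hle) : ℤ) : ℝ) = Complex.normSq m := by
  obtain ⟨P, hP⟩ := hM
  have hlat := P.lattice_eq_span_range_basis
  rw [hP] at hlat
  subst hlat
  rw [← Algebra.norm_complex_apply, Algebra.norm_apply, ← LinearMap.det_toMatrix P.basis,
    ← LinearMap.det_toMatrix (P.basis.restrictScalars ℤ), ← eq_intCast (algebraMap ℤ ℝ), RingHom.map_det]
  congr 1
  ext i j
  rw [RingHom.mapMatrix_apply, Matrix.map_apply, LinearMap.toMatrix_apply, LinearMap.toMatrix_apply,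
    Module.Basis.restrictScalars_repr_apply]
  simp [mulMap]

private theorem mul_mem_of_le {L : Submodule ℤ ℂ} {m : ℂ} (hle : m • L ≤ L) : ∀ z ∈ L, m * z ∈ L :=
  fun z hz => hle (Submodule.smul_mem_pointwise_smul z m L hz)

theorem relIndex_smul {L : Submodule ℤ ℂ} (hL : IsLat L) {m : ℂ} (hm : m ≠ 0)
    (hle : m • L ≤ L) :
    ((m • L).toAddSubgroup.relIndex L.toAddSubgroup : ℝ) = Complex.normSq m := by
  have hle' := mul_mem_of_le hle
  have hfree : Module.Free ℤ L ∧ Module.Finite ℤ L := by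
    obtain ⟨P, rfl⟩ := hL
    have hlat := P.lattice_eq_span_range_basis
    rw [hlat]
    exact ⟨Module.Free.of_basis (P.basis.restrictScalars ℤ), Module.Finite.of_basis (P.basis.restrictScalars ℤ)⟩
  obtain ⟨h1, h2⟩ := hfree
  let N : Submodule ℤ L := (m • L).comap L.subtype
  let g : L →+ N := 
    { toFun := fun x => ⟨⟨m * x, hle' x x.2⟩, Submodule.smul_mem_pointwise_smul x.1 m L x.2⟩
      map_zero' := by
        ext1; ext1
        simp
      map_add' := by
        intro x y
        ext1; ext1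
        simp [mul_add] }
  have hg : Function.Bijective g := by
    constructor
    · intro x y hxy
      have h3 : m * (x : ℂ) = m * (y : ℂ) := congrArg (fun z : N => ((z : L) : ℂ)) hxy
      exact Subtype.ext (mul_left_cancel₀ hm h3)
    · rintro ⟨⟨y, hy⟩, hy'⟩
      obtain ⟨x, hx, hxy⟩ := (Submodule.mem_smul_pointwise_iff_exists y m L).1 hy'
      exact ⟨⟨x, hx⟩, by ext1; ext1; exact hxy⟩
  have h3 := Submodule.natAbs_det_equiv N (AddEquiv.ofBijective g hg)
  have h4 : (N.subtype ∘ₗ AddMonoidHom.toIntLinearMap ((AddEquiv.ofBijective g hg : L ≃+ N) : L →+ N)) =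
      mulMap L m hle' := by
    ext x
    rfl
  rw [h4] at h3
  have h5 : (m • L).toAddSubgroup.relIndex L.toAddSubgroup = Nat.card (L ⧸ N) := rfl
  rw [h5, ← h3, Nat.cast_natAbs, Int.cast_abs, det_mulMap hL, abs_of_nonneg (Complex.normSq_nonneg m)]

private theorem exists_int {L : Submodule ℤ ℂ} (hL : IsLat L) {m : ℂ} (hle : ∀ z ∈ L, m * z ∈ L) :
    ∃ t N : ℤ, m + starRingEnd ℂ m = t ∧ m * starRingEnd ℂ m = N ∧ (m.im = 0 → ∃ k : ℤ, m = k) := by
  obtain ⟨P, rfl⟩ := hL
  obtain ⟨a, b, h1⟩ := PeriodPair.mem_lattice.1 (hle _ P.ω₁_mem_lattice)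
  obtain ⟨c, d, h2⟩ := PeriodPair.mem_lattice.1 (hle _ P.ω₂_mem_lattice)
  have hind : ∀ x y : ℝ, (x : ℂ) * P.ω₁ + (y : ℂ) * P.ω₂ = 0 → x = 0 ∧ y = 0 := by
    intro x y hxy
    have := LinearIndependent.pair_iff.1 P.indep x y (by simpa using hxy)
    exact this
  have hw : P.ω₁ ≠ 0 := by
    intro h0
    have := hind 1 0 (by rw [h0]; simp)
    exact one_ne_zero this.1
  have hq : m ^ 2 - (a + d : ℤ) * m + (a * d - b * c : ℤ) = 0 := by
    apply mul_right_cancel₀ hw
    push_cast
    linear_combination (d - m) * h1 - b * h2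
  by_cases him : m.im = 0
  · have hmr : m = (m.re : ℂ) := by
      apply Complex.ext <;> simp [him]
    have h3 := hind (a - m.re) b (by
      push_cast
      rw [← hmr]
      linear_combination h1)
    have hma : m = (a : ℂ) := by
      rw [hmr]
      have : m.re = (a : ℝ) := by linarith [h3.1]
      rw [this]
      simp
    refine ⟨2 * a, a ^ 2, ?_, ?_, fun _ => ⟨a, hma⟩⟩
    · rw [hma]
      simp
      ring
    · rw [hma]
      simp
      ring
  · have hne : m - starRingEnd ℂ m ≠ 0 := by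
      intro h0
      apply him
      have := congrArg Complex.im h0
      simp at this
      linarith
    have hqc : (starRingEnd ℂ m) ^ 2 - (a + d : ℤ) * starRingEnd ℂ m + (a * d - b * c : ℤ) = 0 := by
      have := congrArg (starRingEnd ℂ) hq
      simpa using this
    have ht : m + starRingEnd ℂ m = ((a + d : ℤ) : ℂ) := by
      apply mul_left_cancel₀ hne
      linear_combination hq - hqc
    refine ⟨a + d, a * d - b * c, ht, ?_, fun h0 => absurd h0 him⟩
    linear_combination m * ht - hq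

theorem conj_smul_le {L : Submodule ℤ ℂ} (hL : IsLat L) {m : ℂ} (hle : ∀ z ∈ L, m * z ∈ L) :
    ∀ z ∈ L, (starRingEnd ℂ m) * z ∈ L := by
  intro z hz
  obtain ⟨t, N, ht, -, -⟩ := exists_int hL hle
  have h1 : starRingEnd ℂ m * z = t • z - m * z := by
    rw [zsmul_eq_mul, ← ht]
    ring
  rw [h1]
  exact L.sub_mem (L.smul_mem t hz) (hle z hz)

theorem real_mul_mem {L : Submodule ℤ ℂ} (hL : IsLat L) {r : ℝ}
    (hle : ∀ z ∈ L, (r : ℂ) * z ∈ L) : ∃ k : ℤ, r = k := by
  obtain ⟨-, -, -, -, h⟩ := exists_int hL hle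
  obtain ⟨k, hk⟩ := h (Complex.ofReal_im r)
  exact ⟨k, by exact_mod_cast hk⟩

theorem trace_norm {L : Submodule ℤ ℂ} (hL : IsLat L) {m : ℂ} (hle : ∀ z ∈ L, m * z ∈ L) :
    ∃ t N : ℤ, m + starRingEnd ℂ m = t ∧ m * starRingEnd ℂ m = N := by
  obtain ⟨t, N, ht, hN, -⟩ := exists_int hL hle
  exact ⟨t, N, ht, hN⟩

theorem unit_smul {L : Submodule ℤ ℂ} (hL : IsLat L) (h0 : jL L ≠ 0) (h1 : jL L ≠ 1728) {m : ℂ}
    (h : m • L = L) : m = 1 ∨ m = -1 := by
  have hm : m ≠ 0 := by
    rintro rfl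
    obtain ⟨P, rfl⟩ := hL
    have hw : P.ω₁ ≠ 0 := by
      intro h0
      have := LinearIndependent.pair_iff.1 P.indep 1 0 (by simpa using h0)
      exact one_ne_zero this.1
    have h2 : P.ω₁ ∈ (0 : ℂ) • P.lattice := by
      rw [h]
      exact P.ω₁_mem_lattice
    obtain ⟨x, hx, hxy⟩ := (Submodule.mem_smul_pointwise_iff_exists _ _ _).1 h2
    exact hw (by rw [← hxy, zero_smul])
  have h4 := Wt_e4 L hL m hm
  have h6 := Wt_e6 L hL m hm
  rw [h] at h4 h6
  have he4 : e4 L ≠ 0 := by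
    intro he
    apply h0
    rw [jL_eq, he]
    simp
  have he6 : e6 L ≠ 0 := by
    intro he
    apply h1
    have hd := dl_ne_zero hL
    have hd' : dl L = e4 L ^ 3 / 1728 := by
      rw [dl, he]
      ring
    rw [jL_eq, hd']
    rw [hd'] at hd
    have : e4 L ^ 3 ≠ 0 := by
      intro h3
      apply hd
      rw [h3]
      simp
    field_simp
  have hm4 : m ^ 4 = 1 := by
    have : m ^ (4 : ℤ) = 1 := by
      apply mul_right_cancel₀ he4
      rw [h4, one_mul]
    exact_mod_cast this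
  have hm6 : m ^ 6 = 1 := by
    have : m ^ (6 : ℤ) = 1 := by
      apply mul_right_cancel₀ he6
      rw [h6, one_mul]
    exact_mod_cast this
  have hm2 : m ^ 2 = 1 := by
    calc m ^ 2 = m ^ 6 := by rw [show m ^ 6 = m ^ 4 * m ^ 2 by ring, hm4, one_mul]
      _ = 1 := hm6
  have h7 : (m - 1) * (m + 1) = 0 := by linear_combination hm2
  rcases mul_eq_zero.1 h7 with h8 | h8
  · exact Or.inl (by linear_combination h8)
  · exact Or.inr (by linear_combination h8)

end Pool.Agent.SS
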