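import Pool.Agent.Work.MP_a5099b_nt.B.Fam
import Pool.Agent.Work.MP_a5099b_nt.A.FormL
import Pool.Agent.Work.MP_a5099b_nt.A.Exp
import Pool.Agent.Work.MP_a5099b_nt.A.Uniq

/-!
# Module B.Dprod (S-M)

The product of the discriminants of the superlattices of index `n` (`n` an odd prime):
`∏ Δ(L') = n^12 Δ(L)^(n+1)`.

`fam` with `F L L' = dl L'`, `k = 12`, `i = 0` (`QX_supb`, `QX_supi`, `QX_dl`): the function
`P L = ∏_{L'} dl L' = (-1)^(n+1) coeff 0` is homogeneous of weight `12(n+1)` with expansion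
`n^12 Δ(q^n) N(q)`, `N = (-1)^n (Nm n Δ).coeff 0`, and `lexp n N = ∏_b Δ(ζ^b t)` (`Nm_prod`) has the leading
term `∏_b ζ^b t = ζ^(n(n-1)/2) t^n = t^n` (`n` odd). So `P` has the expansion `n^12 q^(n+1) + ...`, and
`S L = P L / dl L ^ (n+1)` is homogeneous of weight `0` with expansion (`QX_dinv`)
`n^12 + ...` without negative coefficients. By `formsL` with `k = 0`, `R = ⊤`: `S` is given by a weighted
homogeneous polynomial of weight `0`, i.e. a constant, equal to the constant coefficient `n^12`.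
`dsc_prod`: `g2^3 - 27 g3^2 = (2π)^12 dl`.
-/

set_option autoImplicit false

namespace Pool.Agent.SS

open UpperHalfPlane Polynomial
open Pool.Agent.Work.CM (IsLat g2 g3 tauLat)
open scoped Pointwise MatrixGroups

/-- leading terms -/
private def Dp_Lead (m : ℤ) (c : ℂ) (a : LaurentSeries ℂ) : Prop :=
  (∀ k < m, a.coeff k = 0) ∧ a.coeff m = c

private theorem Dp_mul {m m' : ℤ} {c c' : ℂ} {a b : LaurentSeries ℂ} (ha : Dp_Lead m c a)
    (hb : Dp_Lead m' c' b) : Dp_Lead (m + m') (c * c') (a * b) := by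
  constructor
  · intro k hk
    rw [HahnSeries.coeff_mul]
    refine Finset.sum_eq_zero fun ij hij => ?_
    rw [Finset.mem_antidiagonal] at hij
    have h3 := hij.2.2
    by_cases h1 : ij.1 < m
    · rw [ha.1 _ h1, zero_mul]
    · rw [hb.1 _ (by omega), mul_zero]
  · rw [HahnSeries.coeff_mul, Finset.sum_eq_single (m, m')]
    · rw [ha.2, hb.2]
    · intro ij hij hne
      rw [Finset.mem_antidiagonal] at hij
      have h3 := hij.2.2
      by_cases h1 : ij.1 < m
      · rw [ha.1 _ h1, zero_mul]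
      · by_cases h4 : ij.2 < m'
        · rw [hb.1 _ h4, mul_zero]
        · exact absurd (Prod.ext (by simp only; omega) (by simp only; omega)) hne
    · intro h
      by_contra hne
      apply h
      rw [Finset.mem_antidiagonal]
      exact ⟨left_ne_zero_of_mul hne, right_ne_zero_of_mul hne, rfl⟩

private theorem Dp_one : Dp_Lead 0 1 1 :=
  ⟨fun k hk => by rw [HahnSeries.coeff_one, if_neg (by omega)],
    by rw [HahnSeries.coeff_one, if_pos rfl]⟩

private theorem Dp_pow {m : ℤ} {c : ℂ} {a : LaurentSeries ℂ} (h : Dp_Lead m c a) (k : ℕ) :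
    Dp_Lead (k * m) (c ^ k) (a ^ k) := by
  induction k with
  | zero =>
    rw [pow_zero, pow_zero, Nat.cast_zero, zero_mul]
    exact Dp_one
  | succ k ih =>
    have h1 := Dp_mul ih h
    rw [pow_succ, pow_succ]
    have e : ((k + 1 : ℕ) : ℤ) * m = k * m + m := by push_cast; ring
    rw [e]
    exact h1

private theorem Dp_prod {k : ℕ} {c : ℕ → ℂ} {a : ℕ → LaurentSeries ℂ}
    (h : ∀ i, Dp_Lead 1 (c i) (a i)) :
    Dp_Lead k (∏ i ∈ Finset.range k, c i) (∏ i ∈ Finset.range k, a i) := by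
  induction k with
  | zero => exact Dp_one
  | succ k ih =>
    rw [Finset.prod_range_succ, Finset.prod_range_succ]
    have h1 := Dp_mul ih (h k)
    rw [Nat.cast_succ]
    exact h1

private theorem Dp_lexp {n : ℕ} (hn : 0 < n) {c : ℂ} {a : LaurentSeries ℂ} (h : Dp_Lead 1 c a) :
    Dp_Lead n c (lexp n a) := by
  have hn0 : n ≠ 0 := hn.ne'
  have hnZ : (0 : ℤ) < n := by exact_mod_cast hn
  constructor
  · intro k hk
    by_cases hd : (n : ℤ) ∣ k
    · obtain ⟨j, rfl⟩ := hd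
      rw [lexp_coeff_mul hn0]
      refine h.1 j ?_
      by_contra hj
      have : 1 ≤ j := by omega
      nlinarith
    · exact lexp_coeff_of_not_dvd hn0 a hd
  · have h1 := lexp_coeff_mul hn0 a 1
    rw [mul_one] at h1
    rw [h1, h.2]

private theorem Dp_lexp' {n : ℕ} (hn : 0 < n) {c : ℂ} {a : LaurentSeries ℂ}
    (h : Dp_Lead n c (lexp n a)) : Dp_Lead 1 c a := by
  have hn0 : n ≠ 0 := hn.ne'
  have hnZ : (0 : ℤ) < n := by exact_mod_cast hn
  constructor
  · intro k hk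
    rw [← lexp_coeff_mul hn0]
    refine h.1 _ ?_
    nlinarith
  · rw [← lexp_coeff_mul hn0, mul_one, h.2]

private theorem Dp_lsc {z c : ℂ} {a : LaurentSeries ℂ} (h : Dp_Lead 1 c a) :
    Dp_Lead 1 (z * c) (lsc z a) := by
  constructor
  · intro k hk
    show z ^ k * a.coeff k = 0
    rw [h.1 k hk, mul_zero]
  · show z ^ (1 : ℤ) * a.coeff 1 = _
    rw [h.2, zpow_one]

private theorem Dp_toC {m : ℤ} {a : LaurentSeries ℤ} (h : ∀ k < m, a.coeff k = 0)
    (h1 : a.coeff m = 1) : Dp_Lead m 1 (toC a) := by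
  have e : ∀ k, (toC a).coeff k = ((a.coeff k : ℤ) : ℂ) := fun k => rfl
  refine ⟨fun k hk => ?_, ?_⟩
  · rw [e, h k hk, Int.cast_zero]
  · rw [e, h1, Int.cast_one]

private theorem Dp_prod_root {n : ℕ} (hn : n.Prime) (h2 : n ≠ 2) {ζ : ℂ}
    (hζ : IsPrimitiveRoot ζ n) : ∏ b ∈ Finset.range n, ζ ^ b = 1 := by
  rw [Finset.prod_pow_eq_pow_sum]
  obtain ⟨m, hm⟩ := hn.odd_of_ne_two h2
  have h1 : (∑ i ∈ Finset.range n, i) = n * m := by
    have h3 := Finset.sum_range_id_mul_two n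
    have h4 : n - 1 = 2 * m := by omega
    rw [h4] at h3
    have h5 : (∑ i ∈ Finset.range n, i) * 2 = (n * m) * 2 := by rw [h3]; ring
    exact Nat.eq_of_mul_eq_mul_right (by norm_num) h5
  rw [h1, pow_mul, hζ.pow_eq_one, one_pow]

private theorem Dp_const {P : MvPolynomial (Fin 3) (⊤ : Subring ℂ)}
    (hP : P.IsWeightedHomogeneous ![4, 6, 12] 0) : P = MvPolynomial.C (MvPolynomial.coeff 0 P) := by
  ext1 d
  rw [MvPolynomial.coeff_C]
  split_ifs with h
  · rw [h]
  · by_contra hne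
    have h1 := hP hne
    rw [Finsupp.weight_apply, Finsupp.sum_fintype _ _ (by simp), Fin.sum_univ_three] at h1
    simp at h1
    apply h
    ext i
    fin_cases i
    · simpa using h1.1.1.symm
    · simpa using h1.1.2.symm
    · simpa using h1.2.symm

theorem prod_dl {n : ℕ} (hn : n.Prime) (h2 : n ≠ 2) {L : Submodule ℤ ℂ} (hL : IsLat L) :
    ∏ L' ∈ supF n L, dl L' = (n : ℂ) ^ 12 * dl L ^ (n + 1) := by
  have hn0 : n ≠ 0 := hn.ne_zero
  have hodd : Odd n := hn.odd_of_ne_two h2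
  have heven : Even (n + 1) := hodd.add_one
  set a : LaurentSeries ℂ := toC (HahnSeries.ofPowerSeries ℤ ℤ Dq) with ha
  have hla : Dp_Lead 1 1 a := by
    refine Dp_toC (fun k hk => ?_) ?_
    · rw [PowerSeries.coeff_coe]
      split_ifs with h
      · rfl
      · have h1 : k.natAbs = 0 := by omega
        rw [h1, Dq_zero]
    · rw [PowerSeries.coeff_coe, if_neg (by norm_num)]
      exact Dq_one
  have hlD : Dp_Lead (-1) 1 (toC Dinv) := Dp_toC (fun k hk => Dinv_coeff_lt hk) Dinv_coeff_neg_one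
  set b : LaurentSeries ℂ := HahnSeries.C ((n : ℂ) ^ (12 : ℤ)) * lexp n a with hb
  obtain ⟨hw, hq⟩ := fam hn (k := 12) (F := fun _ L' => dl L')
    (fun L L' h m hm => Wt_dl L' h.lat' m hm) (a := a) (b := b) (QX_supb hn0 QX_dl)
    (QX_supi hn0 Wt_dl QX_dl) (i := 0) (by omega)
  have hPe : ∀ L : Submodule ℤ ℂ, IsLat L → (∏ L' ∈ supF n L, (X - C (dl L'))).coeff 0 =
      ∏ L' ∈ supF n L, dl L' := by
    intro L hL
    rw [Polynomial.coeff_zero_eq_eval_zero, Polynomial.eval_prod]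
    simp only [eval_sub, eval_X, eval_C, zero_sub]
    rw [Finset.prod_neg, card_supF hn hL, heven.neg_one_pow, one_mul]
  -- the norm
  set N : LaurentSeries ℂ := -((Nm n a).coeff 0) with hN
  have hζ := Complex.isPrimitiveRoot_exp n hn0
  set ζ := Complex.exp (2 * Real.pi * Complex.I / n) with hζd
  have hNl : lexp n N = ∏ b ∈ Finset.range n, lsc (ζ ^ b) a := by
    rw [hN, map_neg, ← Polynomial.coeff_map, Nm_prod hn0 hζ, Polynomial.coeff_zero_eq_eval_zero,
      Polynomial.eval_prod]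
    simp only [eval_sub, eval_X, eval_C, zero_sub]
    rw [Finset.prod_neg, Finset.card_range, hodd.neg_one_pow]
    ring
  have hlN : Dp_Lead 1 1 N := by
    refine Dp_lexp' hn.pos ?_
    rw [hNl]
    have h1 := Dp_prod (k := n) (c := fun b => ζ ^ b * 1) (a := fun b => lsc (ζ ^ b) a)
      (fun b => Dp_lsc hla)
    simp only [mul_one] at h1
    rw [Dp_prod_root hn h2 hζ] at h1
    exact h1
  have hlb : Dp_Lead n ((n : ℂ) ^ 12) b := by
    have h1 : Dp_Lead 0 ((n : ℂ) ^ (12 : ℤ)) (HahnSeries.C ((n : ℂ) ^ (12 : ℤ))) := by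
      refine ⟨fun k hk => ?_, ?_⟩
      · rw [HahnSeries.C_apply, HahnSeries.coeff_single_of_ne (by omega)]
      · rw [HahnSeries.C_apply, HahnSeries.coeff_single_same]
    have h3 := Dp_mul h1 (Dp_lexp hn.pos hla)
    rw [zero_add, mul_one] at h3
    exact h3
  have hc0 : ((X - C b) * Nm n a).coeff 0 = b * N := by
    rw [Polynomial.mul_coeff_zero, coeff_sub, coeff_X_zero, coeff_C_zero, hN]
    ring
  rw [hc0] at hq
  set A : LaurentSeries ℂ := b * N * toC Dinv ^ (n + 1) with hA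
  have hlA : Dp_Lead 0 ((n : ℂ) ^ 12) A := by
    have h1 := Dp_mul (Dp_mul hlb hlN) (Dp_pow hlD (n + 1))
    rw [mul_one, one_pow, mul_one] at h1
    have e : ((n : ℤ) + 1 + ((n + 1 : ℕ) : ℤ) * -1) = 0 := by push_cast; ring
    rw [e] at h1
    exact h1
  set S : Submodule ℤ ℂ → ℂ := fun L => (∏ L' ∈ supF n L, dl L') * ((dl L)⁻¹) ^ (n + 1) with hS
  have hWS : Wt ((0 : ℕ) : ℤ) S := by
    intro L hL m hm
    have h1 := hw L hL m hm
    simp only at h1
    rw [hPe _ (hL.smul hm), hPe _ hL] at h1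
    have h3 := Wt_dl L hL m hm
    simp only [hS, Nat.cast_zero, zpow_zero, one_mul]
    have h4 : dl (m • L) ≠ 0 := dl_ne_zero (hL.smul hm)
    have h5 : m ^ (12 : ℤ) ≠ 0 := zpow_ne_zero _ hm
    rw [← h1, ← h3, mul_inv, mul_pow, zpow_mul]
    have h6 : (m ^ (12 : ℤ)) ^ (((n + 1 - 0 : ℕ)) : ℤ) = (m ^ (12 : ℤ)) ^ (n + 1) := by
      rw [Nat.sub_zero, zpow_natCast]
    rw [h6]
    have h7 : ((m ^ (12 : ℤ))⁻¹) ^ (n + 1) * (m ^ (12 : ℤ)) ^ (n + 1) = 1 := by
      rw [← mul_pow, inv_mul_cancel₀ h5, one_pow]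
    linear_combination (-(∏ L' ∈ supF n (m • L), dl L') * ((dl (m • L))⁻¹) ^ (n + 1)) * h7
  have hQS : QX 1 (fun τ => S (tauLat τ)) A := by
    have h1 : QX 1 (fun τ => ∏ L' ∈ supF n (tauLat τ), dl L') (b * N) := by
      have e : (fun τ => (∏ L' ∈ supF n (tauLat τ), (X - C (dl L'))).coeff 0) =
          fun τ => ∏ L' ∈ supF n (tauLat τ), dl L' := by
        funext τ
        exact hPe _ (Pool.Agent.Work.CM.tauLat_isLat τ)
      rw [← e]
      exact hq
    have h3 : QX 1 ((fun τ => (dl (tauLat τ))⁻¹) ^ (n + 1)) (toC Dinv ^ (n + 1)) := by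
      have h4 : ((fun τ : ℍ => (dl (tauLat τ))⁻¹, toC Dinv) : (ℍ → ℂ) × LaurentSeries ℂ) ∈
          QXring 1 one_ne_zero := QX_dinv
      exact (QXring 1 one_ne_zero).pow_mem h4 (n + 1)
    exact QX.mul one_ne_zero h1 h3
  obtain ⟨P, hP, hPS⟩ := formsL ⊤ hWS hQS (fun _ => trivial) hlA.1
  have hPc := Dp_const hP
  set c : ℂ := ((MvPolynomial.coeff 0 P : (⊤ : Subring ℂ)) : ℂ) with hc
  have hSc : ∀ L, IsLat L → S L = c := by
    intro L hL
    rw [hPS L hL, hPc, MvPolynomial.aeval_C]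
    rfl
  have hcn : c = (n : ℂ) ^ 12 := by
    have h1 : QX 1 (fun τ => S (tauLat τ)) (HahnSeries.C c) := by
      have e : (fun τ : ℍ => S (tauLat τ)) = fun _ => c := by
        funext τ
        exact hSc _ (Pool.Agent.Work.CM.tauLat_isLat τ)
      rw [e]
      exact QX.const 1 c
    have h3 := QX.unique one_ne_zero hQS h1
    have h4 := hlA.2
    rw [h3, HahnSeries.C_apply, HahnSeries.coeff_single_same] at h4
    exact h4
  have h1 := hSc L hL
  rw [hcn] at h1
  simp only [hS] at h1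
  rw [← h1, mul_assoc, inv_pow, inv_mul_cancel₀ (pow_ne_zero _ (dl_ne_zero hL)), mul_one]

theorem dsc_eq (L : Submodule ℤ ℂ) :
    g2 L ^ 3 - 27 * g3 L ^ 2 = (2 * (Real.pi : ℂ)) ^ 12 * dl L := by
  have hpi : (Real.pi : ℂ) ≠ 0 := by exact_mod_cast Real.pi_ne_zero
  rw [dl, e4, e6]
  field_simp
  ring

theorem dsc_prod {n : ℕ} (hn : n.Prime) (h2 : n ≠ 2) {L : Submodule ℤ ℂ} (hL : IsLat L) :
    ∏ᶠ L' ∈ {L' | Sup n L L'}, (g2 L' ^ 3 - 27 * g3 L' ^ 2) =
      (n : ℂ) ^ 12 * (g2 L ^ 3 - 27 * g3 L ^ 2) ^ (n + 1) := by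
  rw [finprod_Sup hn hL]
  simp only [dsc_eq]
  rw [Finset.prod_mul_distrib, Finset.prod_const, card_supF hn hL, prod_dl hn h2 hL, mul_pow]
  ring

end Pool.Agent.SS
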