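import Pool.Agent.Work.MP_a5099b_nt.A.Lat
import Pool.Agent.Work.MP_a5099b_nt.A.Lev
import Pool.Agent.Work.MP_a5099b_nt.A.NmLev

/-!
# Module B.SupQ (S-M)

Expansions of `S (supb n τ 0)` and `S (supi n τ)`. `supb n τ b = tauLat ((τ+b)/n)` by definition;
`supi n τ = ℤτ + ℤ/n = n⁻¹ (ℤ nτ + ℤ)`. `S (supb n τ 0) = S (tauLat (τ/n)) = lev a (𝕢 1 (τ/n)) = lev a (𝕢 n τ)`.
`S (supi n τ) = S (n⁻¹ • tauLat (nτ)) = n^k S (tauLat (nτ)) = n^k lev a ((𝕢 1 τ)^n) = n^k lev (lexp n a) (𝕢 1 τ)`.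
`QX_lexp`: `𝕢 1 τ = (𝕢 n τ)^n`.
-/

set_option autoImplicit false

namespace Pool.Agent.SS

open UpperHalfPlane Polynomial
open Pool.Agent.Work.CM (IsLat g2 g3 tauLat)
open scoped Pointwise MatrixGroups

theorem supb_eq {n : ℕ} (hn : n ≠ 0) {τ τ' : ℍ} {b : ℤ} (h : (τ' : ℂ) = ((τ : ℂ) + b) / n) :
    supb n τ b = tauLat τ' := by
  rw [supb, tauLat, h]

theorem supi_eq {n : ℕ} (hn : n ≠ 0) {τ τ' : ℍ} (h : (τ' : ℂ) = n * (τ : ℂ)) :
    supi n τ = ((n : ℂ)⁻¹) • tauLat τ' := by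
  have hn' : (n : ℂ) ≠ 0 := by exact_mod_cast hn
  rw [supi, tauLat, Submodule.smul_span, Set.smul_set_insert, Set.smul_set_singleton, h]
  congr 2
  · rw [smul_eq_mul, ← mul_assoc, inv_mul_cancel₀ hn', one_mul]
  · rw [smul_eq_mul, mul_one, one_div]

/-- `τ / n`. -/
private noncomputable def divH (n : ℕ) (hn : n ≠ 0) (τ : ℍ) : ℍ :=
  ⟨(τ : ℂ) / n, by
    have h1 : (0 : ℝ) < n := by exact_mod_cast Nat.pos_of_ne_zero hn
    have h2 : ((τ : ℂ) / (n : ℂ)).im = τ.im / n := by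
      rw [Complex.div_natCast_im]; rfl
    rw [h2]
    exact div_pos τ.im_pos h1⟩

/-- `n τ`. -/
private noncomputable def mulH (n : ℕ) (hn : n ≠ 0) (τ : ℍ) : ℍ :=
  ⟨(n : ℂ) * (τ : ℂ), by
    have h1 : (0 : ℝ) < n := by exact_mod_cast Nat.pos_of_ne_zero hn
    have h2 : ((n : ℂ) * (τ : ℂ)).im = n * τ.im := by
      simp
    rw [h2]
    exact mul_pos h1 τ.im_pos⟩

private theorem divH_coe {n : ℕ} (hn : n ≠ 0) (τ : ℍ) : ((divH n hn τ : ℍ) : ℂ) = (τ : ℂ) / n := rfl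

private theorem mulH_coe {n : ℕ} (hn : n ≠ 0) (τ : ℍ) : ((mulH n hn τ : ℍ) : ℂ) = n * (τ : ℂ) := rfl

private theorem qP_pow {n : ℕ} (hn : n ≠ 0) (z : ℂ) :
    Function.Periodic.qParam (n : ℝ) z ^ n = Function.Periodic.qParam (1 : ℝ) z := by
  have hn' : (n : ℂ) ≠ 0 := by exact_mod_cast hn
  rw [Function.Periodic.qParam, Function.Periodic.qParam, ← Complex.exp_nat_mul]
  congr 1
  push_cast
  field_simp

private theorem qP_div {n : ℕ} (hn : n ≠ 0) (z : ℂ) :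
    Function.Periodic.qParam (1 : ℝ) (z / n) = Function.Periodic.qParam (n : ℝ) z := by
  have hn' : (n : ℂ) ≠ 0 := by exact_mod_cast hn
  rw [Function.Periodic.qParam, Function.Periodic.qParam]
  congr 1
  push_cast
  field_simp

private theorem qP_mul (n : ℕ) (z : ℂ) :
    Function.Periodic.qParam (1 : ℝ) (n * z) = Function.Periodic.qParam (1 : ℝ) z ^ n := by
  rw [Function.Periodic.qParam, Function.Periodic.qParam, ← Complex.exp_nat_mul]
  congr 1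
  push_cast
  ring

/-- The sum of `lexp n a` at `t` is the sum of `a` at `t ^ n`. -/
private theorem hasSum_lexp {n : ℕ} (hn : n ≠ 0) (a : LaurentSeries ℂ) {t s : ℂ}
    (h : HasSum (fun m : ℤ => a.coeff m * (t ^ n) ^ m) s) :
    HasSum (fun m : ℤ => (lexp n a).coeff m * t ^ m) s := by
  have hn' : (n : ℤ) ≠ 0 := by exact_mod_cast hn
  have hinj : Function.Injective (fun m : ℤ => (n : ℤ) * m) := fun x y hxy =>
    mul_left_cancel₀ hn' hxy
  rw [← hinj.hasSum_iff]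
  · convert h using 1
    funext m
    simp only [Function.comp]
    rw [lexp_coeff_mul hn, zpow_mul, zpow_natCast]
  · intro x hx
    have hx' : ¬ (n : ℤ) ∣ x := by
      rintro ⟨y, rfl⟩
      exact hx ⟨y, rfl⟩
    rw [lexp_coeff_of_not_dvd hn a hx', zero_mul]

theorem QX_supb {n : ℕ} (hn : n ≠ 0) {S : Submodule ℤ ℂ → ℂ} {a : LaurentSeries ℂ}
    (ha : QX 1 (fun τ => S (tauLat τ)) a) : QX n (fun τ => S (supb n τ 0)) a := by
  intro τ
  have h1 := ha (divH n hn τ)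
  have h2 : supb n τ 0 = tauLat (divH n hn τ) := supb_eq hn (by rw [divH_coe]; simp)
  simp only [h2]
  rw [divH_coe] at h1
  rw [show ((1 : ℕ) : ℝ) = 1 from Nat.cast_one, qP_div hn] at h1
  exact h1

theorem QX_supi {n : ℕ} (hn : n ≠ 0) {k : ℤ} {S : Submodule ℤ ℂ → ℂ} (hS : Wt k S)
    {a : LaurentSeries ℂ} (ha : QX 1 (fun τ => S (tauLat τ)) a) :
    QX 1 (fun τ => S (supi n τ)) (HahnSeries.C ((n : ℂ) ^ k) * lexp n a) := by
  have hn' : (n : ℂ) ≠ 0 := by exact_mod_cast hn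
  intro τ
  have h1 := ha (mulH n hn τ)
  have h2 : supi n τ = ((n : ℂ)⁻¹) • tauLat (mulH n hn τ) := supi_eq hn (mulH_coe hn τ)
  have hL : IsLat (tauLat (mulH n hn τ)) := Pool.Agent.Work.CM.tauLat_isLat _
  have h3 := hS _ hL ((n : ℂ)⁻¹) (inv_ne_zero hn')
  have h4 : S (supi n τ) = (n : ℂ) ^ k * S (tauLat (mulH n hn τ)) := by
    rw [h2, ← h3, ← mul_assoc, inv_zpow, mul_inv_cancel₀ (zpow_ne_zero k hn'), one_mul]
  simp only [h4]
  rw [mulH_coe, show ((1 : ℕ) : ℝ) = 1 from Nat.cast_one, qP_mul] at h1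
  have h5 := (hasSum_lexp hn a h1).mul_left ((n : ℂ) ^ k)
  rw [show ((1 : ℕ) : ℝ) = 1 from Nat.cast_one]
  have h6 : (fun m : ℤ => (HahnSeries.C ((n : ℂ) ^ k) * lexp n a).coeff m *
      Function.Periodic.qParam (1 : ℝ) (τ : ℂ) ^ m) =
      fun m : ℤ => (n : ℂ) ^ k * ((lexp n a).coeff m *
        Function.Periodic.qParam (1 : ℝ) (τ : ℂ) ^ m) := by
    funext m
    rw [HahnSeries.C_mul_eq_smul, HahnSeries.coeff_smul, smul_eq_mul, mul_assoc]
  rw [h6]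
  exact h5

theorem QX_lexp {n : ℕ} (hn : n ≠ 0) {f : ℍ → ℂ} {a : LaurentSeries ℂ} (ha : QX 1 f a) :
    QX n f (lexp n a) := by
  intro τ
  have h1 := ha τ
  rw [show ((1 : ℕ) : ℝ) = 1 from Nat.cast_one, ← qP_pow hn] at h1
  exact hasSum_lexp hn a h1

end Pool.Agent.SS
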