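import Pool.Agent.Work.MP_a5099b_nt.B.SupF
import Pool.Agent.Work.MP_a5099b_nt.B.SupQ
import Pool.Agent.Work.MP_a5099b_nt.A.NmLev
import Pool.Agent.Work.MP_a5099b_nt.A.Sec

/-!
# Module B.Fam (M)

The main theorem on families: the coefficients of `∏_{L'} (X - F(L, L'))` are homogeneous functions of `L`
with a known expansion.

Weight: by `supF_smul` and `hF`, `∏_{L'' ∈ supF n (m•L)} (X - F(m•L, L'')) = ∏_{L'} (X - m^(-k) F(L, L'))`, which is
`scaleRoots` of the product for `L` by `m^(-k)`: coefficient `i` is multiplied by `m^(-k (n+1-i))`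
(`Polynomial.coeff_scaleRoots`, degree `n + 1 = card_supF`).

Expansion: `prod_supF_tauLat`. `F(tauLat τ, supb n τ b) = F(tauLat (τ+b), supb n (τ+b) 0) = lev a (𝕢 n (τ+b)) =
lev a (ζ^b 𝕢 n τ)`, `ζ = exp(2πi/n)` (`tauLat (τ+b) = tauLat τ`, `supb n (τ+b) 0 = supb n τ b`). By `Nm_lev` with
`t = 𝕢 n τ`, `t^n = 𝕢 1 τ`: coefficient `i` of `∏_b (X - F(tauLat τ, supb n τ b))` is `lev ((Nm n a).coeff i) (𝕢 1 τ)`.
Multiply by `X - lev b (𝕢 1 τ)` (`lev_mul`, `lev_add`, `Nm_Cv`) and use `QX_iff`.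
-/

set_option autoImplicit false

namespace Pool.Agent.SS

open UpperHalfPlane Polynomial
open Pool.Agent.Work.CM (IsLat g2 g3 tauLat)
open scoped Pointwise MatrixGroups

private theorem Real.exp_lt_one_iff_of_fam {x : ℝ} : Real.exp x < 1 ↔ x < 0 := by
  rw [Real.exp_lt_one_iff]

private theorem fam_scale {ι : Type*} (s : Finset ι) (x : ι → ℂ) {c : ℂ} (hc : c ≠ 0) {i : ℕ}
    (hi : i ≤ s.card) : (∏ j ∈ s, (X - C (c * x j))).coeff i =
      c ^ (s.card - i) * (∏ j ∈ s, (X - C (x j))).coeff i := by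
  have h1 : ∏ j ∈ s, (X - C (c * x j)) =
      C (c ^ s.card) * (∏ j ∈ s, (X - C (x j))).comp (C c⁻¹ * X) := by
    rw [Polynomial.prod_comp, map_pow, ← Finset.prod_const, ← Finset.prod_mul_distrib]
    refine Finset.prod_congr rfl fun j _ => ?_
    rw [sub_comp, X_comp, C_comp, mul_sub, ← mul_assoc, ← C_mul, mul_inv_cancel₀ hc, C_1, one_mul,
      C_mul]
  have h2 : c ^ s.card = c ^ (s.card - i) * c ^ i := by rw [← pow_add, Nat.sub_add_cancel hi]
  have h3 : c ^ i * c⁻¹ ^ i = 1 := by rw [← mul_pow, mul_inv_cancel₀ hc, one_pow]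
  rw [h1, coeff_C_mul, comp_C_mul_X_coeff, h2]
  linear_combination c ^ (s.card - i) * (∏ j ∈ s, (X - C (x j))).coeff i * h3

private theorem fam_c0 {R : Type*} [CommRing R] (b : R) (p : R[X]) :
    ((X - C b) * p).coeff 0 = -(b * p.coeff 0) := by
  rw [sub_mul, coeff_sub, coeff_C_mul, coeff_X_mul_zero, zero_sub]

private theorem fam_c1 {R : Type*} [CommRing R] (b : R) (p : R[X]) (j : ℕ) :
    ((X - C b) * p).coeff (j + 1) = p.coeff j + -(b * p.coeff (j + 1)) := by
  rw [sub_mul, coeff_sub, coeff_C_mul, coeff_X_mul, sub_eq_add_neg]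

theorem fam {n : ℕ} (hn : n.Prime) {k : ℤ} {F : Submodule ℤ ℂ → Submodule ℤ ℂ → ℂ}
    (hF : ∀ L L', Sup n L L' → ∀ m : ℂ, m ≠ 0 → m ^ k * F (m • L) (m • L') = F L L')
    {a b : LaurentSeries ℂ} (ha : QX n (fun τ => F (tauLat τ) (supb n τ 0)) a)
    (hb : QX 1 (fun τ => F (tauLat τ) (supi n τ)) b) {i : ℕ} (hi : i ≤ n + 1) :
    Wt (k * (n + 1 - i : ℕ)) (fun L => (∏ L' ∈ supF n L, (X - C (F L L'))).coeff i) ∧
      QX 1 (fun τ => (∏ L' ∈ supF n (tauLat τ), (X - C (F (tauLat τ) L'))).coeff i)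
        (((X - C b) * Nm n a).coeff i) := by
  have hn0 : n ≠ 0 := hn.ne_zero
  obtain ⟨hac, hav⟩ := (QX_iff hn0).1 ha
  obtain ⟨hbc, hbv⟩ := (QX_iff one_ne_zero).1 hb
  constructor
  · intro L hL m hm
    have h1 : ∏ L' ∈ supF n (m • L), (X - C (F (m • L) L')) =
        ∏ L' ∈ supF n L, (X - C ((m ^ k)⁻¹ * F L L')) := by
      rw [supF_smul hn hL hm (fun L' => (X - C (F (m • L) L') : ℂ[X]))]
      refine Finset.prod_congr rfl fun L' hL' => ?_
      have h2 := hF L L' ((mem_supF hn hL).1 hL') m hm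
      rw [← h2, inv_mul_cancel_left₀ (zpow_ne_zero k hm)]
    have hi' : i ≤ (supF n L).card := by rw [card_supF hn hL]; exact hi
    show m ^ (k * ((n + 1 - i : ℕ) : ℤ)) *
      (∏ L' ∈ supF n (m • L), (X - C (F (m • L) L'))).coeff i = _
    rw [h1, fam_scale _ _ (inv_ne_zero (zpow_ne_zero k hm)) hi', card_supF hn hL, ← mul_assoc,
      zpow_mul, zpow_natCast, ← mul_pow, mul_inv_cancel₀ (zpow_ne_zero k hm), one_pow, one_mul]
  · have hbcN : ∀ j, Cv (b * (Nm n a).coeff j) := fun j => hbc.mul (Nm_Cv n hac j)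
    refine (QX_iff one_ne_zero).2 ⟨?_, ?_⟩
    · rcases i with _ | j
      · have h1 : ((X - C b) * Nm n a).coeff 0 = -(b * (Nm n a).coeff 0) := fam_c0 b _
        rw [h1]
        exact (hbcN 0).neg
      · have h1 : ((X - C b) * Nm n a).coeff (j + 1) =
            (Nm n a).coeff j + -(b * (Nm n a).coeff (j + 1)) := fam_c1 b _ j
        rw [h1]
        exact (Nm_Cv n hac j).add (hbcN _).neg
    · intro τ
      set q : ℂ := Function.Periodic.qParam ((1 : ℕ) : ℝ) τ with hq
      set t : ℂ := Function.Periodic.qParam (n : ℝ) τ with ht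
      have htn : t ^ n = q := by
        rw [ht, hq, Function.Periodic.qParam, Function.Periodic.qParam, ← Complex.exp_nat_mul]
        congr 1
        have : (n : ℂ) ≠ 0 := by exact_mod_cast hn0
        push_cast
        field_simp
      have ht0 : t ≠ 0 := Complex.exp_ne_zero _
      have hq0 : q ≠ 0 := Complex.exp_ne_zero _
      have ht1 : ‖t‖ < 1 := by
        rw [ht, Function.Periodic.norm_qParam, Real.exp_lt_one_iff_of_fam]
        have h3 := τ.im_pos
        have h4 : (0 : ℝ) < n := by exact_mod_cast Nat.pos_of_ne_zero hn0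
        have h5 := Real.pi_pos
        have : (τ : ℂ).im = τ.im := rfl
        rw [this]
        apply div_neg_of_neg_of_pos _ h4
        nlinarith [mul_pos h5 h3]
      have hq1 : ‖q‖ < 1 := by
        rw [← htn, norm_pow]
        exact pow_lt_one₀ (norm_nonneg _) ht1 hn0
      have hζ := Complex.isPrimitiveRoot_exp n hn0
      set ζ : ℂ := Complex.exp (2 * Real.pi * Complex.I / n) with hζd
      rw [prod_supF_tauLat hn τ (fun L' => (X - C (F (tauLat τ) L') : ℂ[X]))]
      have h6 : ∀ b : ℕ, F (tauLat τ) (supb n τ b) = lev a (ζ ^ b * t) := by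
        intro b
        have h7 := hav ((b : ℝ) +ᵥ τ)
        have h8 : tauLat ((b : ℝ) +ᵥ τ) = tauLat τ := by
          rw [tauLat, tauLat, UpperHalfPlane.coe_vadd]
          apply le_antisymm
          · rw [Submodule.span_le]
            rintro z (rfl | rfl)
            · exact Submodule.mem_span_pair.2 ⟨1, b, by simp [add_comm]⟩
            · exact Submodule.mem_span_pair.2 ⟨0, 1, by simp⟩
          · rw [Submodule.span_le]
            rintro z (rfl | rfl)
            · exact Submodule.mem_span_pair.2 ⟨1, -b, by simp⟩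
            · exact Submodule.mem_span_pair.2 ⟨0, 1, by simp⟩
        have h9 : supb n ((b : ℝ) +ᵥ τ) 0 = supb n τ b := by
          rw [supb, supb, UpperHalfPlane.coe_vadd]
          simp [add_comm]
        have h10 : Function.Periodic.qParam (n : ℝ) (((b : ℝ) +ᵥ τ : ℍ) : ℂ) = ζ ^ b * t := by
          rw [ht, hζd, Function.Periodic.qParam, Function.Periodic.qParam, ← Complex.exp_nat_mul,
            ← Complex.exp_add, UpperHalfPlane.coe_vadd]
          congr 1
          have : (n : ℂ) ≠ 0 := by exact_mod_cast hn0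
          push_cast
          field_simp
        rw [h8, h9, h10] at h7
        exact h7
      have h7 : ∏ b ∈ Finset.range n, (X - C (F (tauLat τ) (supb n τ b)) : ℂ[X]) =
          ∏ b ∈ Finset.range n, (X - C (lev a (ζ ^ b * t))) :=
        Finset.prod_congr rfl fun b _ => by rw [h6 b]
      rw [h7]
      have h8 : ∀ j, lev ((Nm n a).coeff j) q =
          (∏ b ∈ Finset.range n, (X - C (lev a (ζ ^ b * t)))).coeff j := by
        intro j
        rw [← htn]
        exact Nm_lev hn0 hac ht0 ht1 hζ j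
      have h9 : F (tauLat τ) (supi n τ) = lev b q := hbv τ
      rw [h9]
      rcases i with _ | j
      · have h1 : ((X - C b) * Nm n a).coeff 0 = -(b * (Nm n a).coeff 0) := fam_c0 b _
        rw [h1, lev_neg, lev_mul hbc (Nm_Cv n hac 0) hq0 hq1, h8, fam_c0]
      · have h1 : ((X - C b) * Nm n a).coeff (j + 1) =
            (Nm n a).coeff j + -(b * (Nm n a).coeff (j + 1)) := fam_c1 b _ j
        rw [h1, lev_add (Nm_Cv n hac j) (hbcN _).neg hq0 hq1, lev_neg,
          lev_mul hbc (Nm_Cv n hac _) hq0 hq1, h8, h8, fam_c1]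

end Pool.Agent.SS
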