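import Pool.Agent.Work.MP_a5099b_nt.B.PhiJ
import Pool.Agent.Work.MP_a5099b_nt.A.NmChar

/-!
# Module B.Kro (M)

Kronecker's congruence. Reduce `PhiAt_Jq` modulo `n` (`lmap (Int.castRingHom (ZMod n))`, `Nm_map`,
`lmap_lexp`), `J̄` the image of `Jq`: `PhiAt n J̄ = (X - C (lexp n J̄)) * Nm n J̄ = (X - C (J̄^n)) (X^n - C J̄)`
(`lexp_eq_pow`, `Nm_char`) `= (C (J̄^n) - X)(C J̄ - X^n)`. So the polynomial `Phi n - Kron n`, reduced mod `n`, vanishes
after `X ↦ J̄`. Its coefficients are polynomials `r ∈ F_n[X]` with `r(J̄) = 0`; as `J̄ = q^(-1) + ...` the series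
`r(J̄)` has order `-deg r` if `r ≠ 0`; so `r = 0`. So `n` divides `Phi n - Kron n` in `ℤ[X][Y]`, and
`Classical.epsilon_spec` gives `GG_spec`.
-/

set_option autoImplicit false

namespace Pool.Agent.SS

open UpperHalfPlane Polynomial
open Pool.Agent.Work.CM (IsLat g2 g3 tauLat)
open scoped Pointwise MatrixGroups

/-! ### leading terms of Laurent series -/

/-- `a = t^(-d) (c + ...)` -/
private def LD {A : Type*} [CommRing A] (a : LaurentSeries A) (d : ℤ) (c : A) : Prop :=
  a.coeff (-d) = c ∧ ∀ m : ℤ, m < -d → a.coeff m = 0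

section LD
variable {A B : Type*} [CommRing A] [CommRing B]

private theorem LD.ps {a : LaurentSeries A} {d : ℤ} {c : A} (h : LD a d c) :
    ∃ u : PowerSeries A, a = HahnSeries.single (-d) 1 * HahnSeries.ofPowerSeries ℤ A u ∧
      PowerSeries.constantCoeff u = c := by
  refine ⟨PowerSeries.mk fun k => a.coeff (-d + k), ?_, ?_⟩
  · ext m
    rw [HahnSeries.coeff_single_mul, one_mul]
    have h1 := PowerSeries.coeff_coe (PowerSeries.mk fun k => a.coeff (-d + k)) (m - -d)
    rw [h1]
    split_ifs with hm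
    · exact h.2 m (by omega)
    · rw [PowerSeries.coeff_mk]
      congr 1
      omega
  · rw [← PowerSeries.coeff_zero_eq_constantCoeff_apply, PowerSeries.coeff_mk]
    simpa using h.1

private theorem LD.of_ps (d : ℤ) (u : PowerSeries A) :
    LD (HahnSeries.single (-d) 1 * HahnSeries.ofPowerSeries ℤ A u) d (PowerSeries.constantCoeff u) := by
  constructor
  · rw [HahnSeries.coeff_single_mul, one_mul, sub_self]
    have h1 := PowerSeries.coeff_coe u 0
    rw [h1]
    simp
  · intro m hm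
    rw [HahnSeries.coeff_single_mul, one_mul]
    have h1 := PowerSeries.coeff_coe u (m - -d)
    rw [h1, if_pos (by omega)]

private theorem LD.of_ps0 (u : PowerSeries A) :
    LD (HahnSeries.ofPowerSeries ℤ A u) 0 (PowerSeries.constantCoeff u) := by
  have h := LD.of_ps 0 u
  simpa using h

private theorem LD.mul {a b : LaurentSeries A} {d e : ℤ} {c c' : A} (h : LD a d c) (h' : LD b e c') :
    LD (a * b) (d + e) (c * c') := by
  obtain ⟨u, rfl, rfl⟩ := h.ps
  obtain ⟨v, rfl, rfl⟩ := h'.ps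
  have h1 := LD.of_ps (d + e) (u * v)
  rw [map_mul, map_mul] at h1
  convert h1 using 1
  have e1 : (HahnSeries.single (-(d + e)) (1 : A)) = HahnSeries.single (-d) 1 * HahnSeries.single (-e) 1 := by
    rw [HahnSeries.single_mul_single, mul_one, neg_add]
  rw [e1]
  ring

private theorem LD.one : LD (1 : LaurentSeries A) 0 1 := by
  have h := LD.of_ps0 (1 : PowerSeries A)
  simpa using h

private theorem LD.pow {a : LaurentSeries A} {d : ℤ} {c : A} (h : LD a d c) (k : ℕ) :
    LD (a ^ k) (k * d) (c ^ k) := by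
  induction k with
  | zero => simpa using LD.one (A := A)
  | succ k ih =>
    rw [pow_succ, pow_succ]
    have := ih.mul h
    convert this using 1
    push_cast
    ring

private theorem LD.shift {a : LaurentSeries A} {d e : ℤ} {c : A} (h : LD a d c) (hde : d < e) : LD a e 0 :=
  ⟨h.2 _ (by omega), fun m hm => h.2 m (by omega)⟩

private theorem LD.add {a b : LaurentSeries A} {d : ℤ} {c c' : A} (h : LD a d c) (h' : LD b d c') :
    LD (a + b) d (c + c') := by
  refine ⟨?_, fun m hm => ?_⟩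
  · rw [HahnSeries.coeff_add, h.1, h'.1]
  · rw [HahnSeries.coeff_add, h.2 m hm, h'.2 m hm, add_zero]

private theorem LD.neg {a : LaurentSeries A} {d : ℤ} {c : A} (h : LD a d c) : LD (-a) d (-c) := by
  refine ⟨?_, fun m hm => ?_⟩
  · rw [HahnSeries.coeff_neg, h.1]
  · rw [HahnSeries.coeff_neg, h.2 m hm, neg_zero]

private theorem LD.C (r : A) : LD (HahnSeries.C r : LaurentSeries A) 0 r := by
  have h := LD.of_ps0 (PowerSeries.C r)
  rwa [HahnSeries.ofPowerSeries_C, PowerSeries.constantCoeff_C] at h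

private theorem LD.zero (d : ℤ) : LD (0 : LaurentSeries A) d 0 := ⟨rfl, fun _ _ => rfl⟩

private theorem LD.unique {a : LaurentSeries A} {d d' : ℤ} {c c' : A} (h : LD a d c) (h' : LD a d' c')
    (hc : c ≠ 0) (hc' : c' ≠ 0) : d = d' ∧ c = c' := by
  rcases lt_trichotomy d d' with hd | rfl | hd
  · exact absurd (h'.1.symm.trans (h.2 _ (by omega))) hc'
  · exact ⟨rfl, h.1.symm.trans h'.1⟩
  · exact absurd (h.1.symm.trans (h'.2 _ (by omega))) hc

private theorem LD.sum {ι : Type*} (s : Finset ι) {a : ι → LaurentSeries A} {d : ℤ} {c : ι → A}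
    (h : ∀ i ∈ s, LD (a i) d (c i)) : LD (∑ i ∈ s, a i) d (∑ i ∈ s, c i) := by
  classical
  induction s using Finset.induction_on with
  | empty => exact LD.zero d
  | insert i s hi ih =>
    rw [Finset.sum_insert hi, Finset.sum_insert hi]
    exact (h i (Finset.mem_insert_self _ _)).add (ih fun j hj => h j (Finset.mem_insert_of_mem hj))

private theorem LD.poly {a : LaurentSeries A} {d : ℤ} (h : LD a d 1) (hd : 0 < d) (P : A[X]) {N : ℕ}
    (hN : P.natDegree ≤ N) : LD (P.eval₂ HahnSeries.C a) (N * d) (P.coeff N) := by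
  rw [eval₂_eq_sum_range' _ (Nat.lt_succ_of_le hN), Finset.sum_range_succ]
  have h1 : LD (∑ i ∈ Finset.range N, HahnSeries.C (P.coeff i) * a ^ i) (N * d)
      (∑ i ∈ Finset.range N, (0 : A)) := by
    refine LD.sum _ fun i hi => ?_
    rw [Finset.mem_range] at hi
    refine ((LD.C (P.coeff i)).mul (h.pow i)).shift ?_
    rw [zero_add]
    have : (i : ℤ) < N := by exact_mod_cast hi
    nlinarith
  have h2 := (LD.C (P.coeff N)).mul (h.pow N)
  rw [zero_add, one_pow, mul_one] at h2
  have h3 := h1.add h2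
  rwa [Finset.sum_const_zero, zero_add] at h3

private theorem LD.lmap {a : LaurentSeries A} {d : ℤ} {c : A} (f : A →+* B) (h : LD a d c) :
    LD (lmap f a) d (f c) := by
  refine ⟨?_, fun m hm => ?_⟩
  · show f (a.coeff (-d)) = f c
    rw [h.1]
  · show f (a.coeff m) = 0
    rw [h.2 m hm, map_zero]

private theorem LD_Jq : LD Jq 1 1 := by
  have h1 : LD (HahnSeries.ofPowerSeries ℤ ℤ (E4q ^ 3)) 0 1 := by
    have h := LD.of_ps0 (E4q ^ 3)
    have h0 : PowerSeries.constantCoeff E4q = 1 := by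
      rw [← PowerSeries.coeff_zero_eq_constantCoeff_apply, E4q, PowerSeries.coeff_mk, if_pos rfl]
    have h0' : PowerSeries.constantCoeff (E4q ^ 3) = 1 := by rw [map_pow, h0, one_pow]
    rwa [h0'] at h
  have h2 : LD Dinv 1 1 := by
    have h := LD.of_ps 1 (PowerSeries.invOfUnit (PowerSeries.mk fun m => PowerSeries.coeff (m + 1) Dq) 1)
    rw [PowerSeries.constantCoeff_invOfUnit] at h
    simpa [Dinv] using h
  have h3 := h1.mul h2
  simpa [Jq] using h3

end LD

private theorem PhiAt_cast (n : ℕ) {A : Type*} [CommRing A] (x : A) :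
    PhiAt n x = (Phi n).map (eval₂RingHom (Int.castRingHom A) x) := by
  rw [PhiAt]
  congr 1

private theorem coeff_dvd {n : ℕ} (hn : n.Prime) (P : ℤ[X])
    (h : P.eval₂ (Int.castRingHom _) (lmap (Int.castRingHom (ZMod n)) Jq) = 0) :
    C (n : ℤ) ∣ P := by
  have : Fact n.Prime := ⟨hn⟩
  have h1 : (P.map (Int.castRingHom (ZMod n))).eval₂ HahnSeries.C
      (lmap (Int.castRingHom (ZMod n)) Jq) = 0 := by
    rw [eval₂_map, ← h]
    congr 1
  have h2 : P.map (Int.castRingHom (ZMod n)) = 0 := by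
    by_contra hne
    have hJ : LD (lmap (Int.castRingHom (ZMod n)) Jq) 1 1 := by
      have := LD_Jq.lmap (Int.castRingHom (ZMod n))
      rwa [map_one] at this
    have h3 := hJ.poly one_pos (P.map (Int.castRingHom (ZMod n))) le_rfl
    rw [h1] at h3
    exact hne (leadingCoeff_eq_zero.1 h3.1.symm)
  rw [C_dvd_iff_dvd_coeff]
  intro i
  have h3 := congrArg (fun Q => Q.coeff i) h2
  simp only [coeff_map, coeff_zero, eq_intCast] at h3
  exact (ZMod.intCast_zmod_eq_zero_iff_dvd _ _).1 h3

theorem GG_spec {n : ℕ} (hn : n.Prime) : Phi n = Kron n + C (C (n : ℤ)) * GG n := by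
  have : Fact n.Prime := ⟨hn⟩
  set J : LaurentSeries (ZMod n) := lmap (Int.castRingHom (ZMod n)) Jq with hJ
  have e1 : PhiAt n J = (X - C (J ^ n)) * (X ^ n - C J) := by
    rw [hJ, ← PhiAt_map, PhiAt_Jq hn, Polynomial.map_mul, Nm_map, Polynomial.map_sub, map_X, map_C,
      lmap_lexp, lexp_eq_pow hn, Nm_char hn]
  have e2 : (Kron n).map (eval₂RingHom (Int.castRingHom _) J) = (X - C (J ^ n)) * (X ^ n - C J) := by
    simp only [Kron, Polynomial.map_mul, Polynomial.map_sub, map_C, map_X, Polynomial.map_pow,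
      coe_eval₂RingHom, eval₂_X_pow, eval₂_X]
    ring
  have e3 : (Phi n - Kron n).map (eval₂RingHom (Int.castRingHom _) J) = 0 := by
    rw [Polynomial.map_sub, e2, ← PhiAt_cast, e1, sub_self]
  have e4 : C (C (n : ℤ)) ∣ Phi n - Kron n := by
    rw [C_dvd_iff_dvd_coeff]
    intro i
    refine coeff_dvd hn _ ?_
    have h3 := congrArg (fun Q => Q.coeff i) e3
    rw [coeff_map, coeff_zero] at h3
    exact h3
  obtain ⟨G, hG⟩ := e4
  have e5 : ∃ G : ℤ[X][X], Phi n = Kron n + C (C (n : ℤ)) * G := ⟨G, by rw [← hG]; ring⟩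
  exact Classical.epsilon_spec e5

end Pool.Agent.SS
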