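import Pool.Agent.Work.MP_a5099b_nt.A.Defs

/-!
# Module B.OddP (M)

The part of odd multiplicity of an integral monic polynomial. `P` is a product of monic irreducible
polynomials of `ℤ[X]` (`UniqueFactorizationMonoid`; a factor of a monic polynomial has leading coefficient a unit,
normalise), `P = ∏ p_i^(e_i)` with different `p_i`; `H = ∏ p_i^(e_i mod 2)`, `S = ∏ p_i^(e_i / 2)` (strong induction
on the degree also works: if `P` has a factor `p^2`, `p` monic of positive degree, divide; otherwise `P` is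
squarefree and `H = P`, `S = 1`). `H` is squarefree in `ℤ[X]`, hence in `ℚ[X]` (Gauss: `IsPrimitive`...) and
separable over `ℚ` (characteristic 0, `PerfectField.separable_iff_squarefree`), hence over `ℂ`. The
multiplicity of `z ∈ ℂ` in `P` is that in `H` (`0` or `1`) plus twice that in `S`.
-/

set_option autoImplicit false

namespace Pool.Agent.SS

open Polynomial
open Pool.Agent.Work.CM (IsLat g2 g3 tauLat)
open scoped Pointwise MatrixGroups

private theorem oddp_exists : ∀ (n : ℕ) (P : ℤ[X]), P.Monic → P.natDegree = n →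
    ∃ H S : ℤ[X], H.Monic ∧ S.Monic ∧ P = H * S ^ 2 ∧ Squarefree H := by
  intro n
  induction n using Nat.strong_induction_on with
  | _ n ih =>
  intro P hP hn
  by_cases hs : Squarefree P
  · exact ⟨P, 1, hP, monic_one, by simp, hs⟩
  · simp only [Squarefree, not_forall] at hs
    obtain ⟨p, ⟨q, hq⟩, hu⟩ := hs
    -- make `p` monic
    obtain ⟨p', hp'm, hp'd⟩ : ∃ p' : ℤ[X], p'.Monic ∧ p * p = p' * p' := by
      have h1 : p.leadingCoeff * (p.leadingCoeff * q.leadingCoeff) = 1 := by
        have := congrArg leadingCoeff hq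
        rw [hP.leadingCoeff, leadingCoeff_mul, leadingCoeff_mul] at this
        linarith [this, mul_assoc p.leadingCoeff p.leadingCoeff q.leadingCoeff]
      rcases Int.isUnit_iff.1 (IsUnit.of_mul_eq_one _ h1) with h | h
      · exact ⟨p, h, rfl⟩
      · refine ⟨-p, ?_, by ring⟩
        rw [Monic, leadingCoeff_neg, h]; norm_num
    have hdeg : 0 < p'.natDegree := by
      rw [Nat.pos_iff_ne_zero]
      intro h0
      have h1 : p' = 1 := hp'm.natDegree_eq_zero.1 h0
      apply hu
      rw [h1] at hp'd
      exact IsUnit.of_mul_eq_one p (by simpa using hp'd)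
    have hqm : q.Monic := by
      have : (p' * p' * q).Monic := by rw [← hp'd, ← hq]; exact hP
      exact (hp'm.mul hp'm).of_mul_monic_left this
    have hdq : q.natDegree < n := by
      have h2 : P.natDegree = (p' * p').natDegree + q.natDegree := by
        rw [hq, hp'd, (hp'm.mul hp'm).natDegree_mul hqm]
      rw [hp'm.natDegree_mul hp'm] at h2
      omega
    obtain ⟨H, S, hH, hS, hqe, hsq⟩ := ih _ hdq q hqm rfl
    refine ⟨H, p' * S, hH, hp'm.mul hS, ?_, hsq⟩
    rw [hq, hp'd, hqe]; ring

private theorem oddp_sep {H : ℤ[X]} (hH : H.Monic) (hsq : Squarefree H) :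
    (H.map (Int.castRingHom ℂ)).Separable := by
  have hQ : Squarefree (H.map (algebraMap ℤ ℚ)) := by
    intro x hx
    have hx1 : x ∣ H.map (algebraMap ℤ ℚ) := (dvd_mul_left x x).trans hx
    obtain ⟨g, hg⟩ := IsIntegrallyClosed.eq_map_mul_C_of_dvd ℚ hH hx1
    have hx0 : x ≠ 0 := by
      rintro rfl
      rw [zero_dvd_iff] at hx1
      exact (hH.map _).ne_zero hx1
    have hlc : x.leadingCoeff ≠ 0 := leadingCoeff_ne_zero.2 hx0
    have hgm : g.Monic := by
      have h1 := congrArg leadingCoeff hg
      rw [leadingCoeff_mul, leadingCoeff_C,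
        leadingCoeff_map_of_injective (RingHom.injective_int (algebraMap ℤ ℚ))] at h1
      have h2 : ((g.leadingCoeff : ℤ) : ℚ) = 1 := by
        have : ((algebraMap ℤ ℚ) g.leadingCoeff) = 1 := by
          apply mul_right_cancel₀ hlc
          rw [h1, one_mul]
        simpa using this
      have h3 : g.leadingCoeff = 1 := by exact_mod_cast h2
      exact h3
    have hd : (g * g).map (algebraMap ℤ ℚ) ∣ H.map (algebraMap ℤ ℚ) := by
      have : x * x = (g * g).map (algebraMap ℤ ℚ) * C (x.leadingCoeff * x.leadingCoeff) := by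
        conv_lhs => rw [← hg]
        rw [Polynomial.map_mul, C_mul]; ring
      exact (Dvd.intro _ this.symm).trans hx
    have hd' : g * g ∣ H :=
      (map_dvd_map _ (RingHom.injective_int (algebraMap ℤ ℚ)) (hgm.mul hgm)).1 hd
    have hgu := hsq g hd'
    have hg1 : g = 1 := hgm.isUnit_iff.1 hgu
    rw [← hg, hg1]
    simp only [Polynomial.map_one, one_mul]
    exact isUnit_C.2 (isUnit_iff_ne_zero.2 hlc)
  have hs := PerfectField.separable_iff_squarefree.2 hQ
  have h2 := hs.map (f := algebraMap ℚ ℂ)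
  rw [Polynomial.map_map] at h2
  have e : (algebraMap ℚ ℂ).comp (algebraMap ℤ ℚ) = Int.castRingHom ℂ := RingHom.ext_int _ _
  rwa [e] at h2

theorem odd_part {P : ℤ[X]} (hP : P.Monic) : ∃ H S : ℤ[X], H.Monic ∧ S.Monic ∧ P = H * S ^ 2 ∧
    (H.map (Int.castRingHom ℂ)).Separable ∧
    ∀ z : ℂ, aeval z H = 0 ↔ Odd ((P.map (Int.castRingHom ℂ)).rootMultiplicity z) := by
  obtain ⟨H, S, hH, hS, hPe, hsq⟩ := oddp_exists _ P hP rfl
  have hsep := oddp_sep hH hsq
  refine ⟨H, S, hH, hS, hPe, hsep, fun z => ?_⟩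
  have hH0 : H.map (Int.castRingHom ℂ) ≠ 0 := (hH.map _).ne_zero
  have hS0 : S.map (Int.castRingHom ℂ) ≠ 0 := (hS.map _).ne_zero
  have hm : (P.map (Int.castRingHom ℂ)).rootMultiplicity z =
      (H.map (Int.castRingHom ℂ)).rootMultiplicity z +
        2 * (S.map (Int.castRingHom ℂ)).rootMultiplicity z := by
    rw [hPe, Polynomial.map_mul, Polynomial.map_pow, pow_two, rootMultiplicity_mul, rootMultiplicity_mul]
    · ring
    · exact mul_ne_zero hS0 hS0
    · exact mul_ne_zero hH0 (mul_ne_zero hS0 hS0)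
  have hle : (H.map (Int.castRingHom ℂ)).rootMultiplicity z ≤ 1 :=
    rootMultiplicity_le_one_of_separable hsep z
  have hroot : aeval z H = 0 ↔ 0 < (H.map (Int.castRingHom ℂ)).rootMultiplicity z := by
    rw [rootMultiplicity_pos hH0, IsRoot.def, eval_map, aeval_def]
    rfl
  rw [hroot, hm]
  rw [Nat.odd_add]
  constructor
  · intro h
    have h1 : (H.map (Int.castRingHom ℂ)).rootMultiplicity z = 1 := by omega
    rw [h1]
    simp
  · intro h
    have h1 : Odd ((H.map (Int.castRingHom ℂ)).rootMultiplicity z) := by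
      rw [h]; simp
    exact h1.pos

end Pool.Agent.SS
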