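import Pool.Agent.Work.MP_a5099b_nt.B.PhiX
import Pool.Agent.Work.MP_a5099b_nt.A.Uniq

/-!
# Module B.PhiJ (S-M)

The formal identity `Φ_n(J(q), Y) = (Y - J(q^n)) N(Y)`. Both sides are polynomials of degree `n + 1` over
`ℤ((q))`; after `toC`, coefficient `i` of the left side is the expansion of
`τ ↦ (PhiAt n (jL (tauLat τ))).coeff i` (the coefficient `i` of `Phi n` is a polynomial `Q_i ∈ ℤ[X]`, and
`QX 1 (fun τ => aeval (jL (tauLat τ)) Q_i) (aeval (toC Jq) Q_i)` by the ring `QXring`), coefficient `i` of the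
right side is the expansion of the same function by `fam` and `PhiAt_supF`. `QX.unique`; `toC` is
injective and commutes with `Nm`, `lexp` (`Nm_map`, `lmap_lexp`). `PhiAt_prod`: map to `K`, apply `lexp n` and
use `Nm_prod` (`lexp n (lexp n a) = lexp (n^2) a`).
-/

set_option autoImplicit false

namespace Pool.Agent.SS

open UpperHalfPlane Polynomial
open Pool.Agent.Work.CM (IsLat g2 g3 tauLat)
open scoped Pointwise MatrixGroups

private theorem phij_C_one (a : LaurentSeries ℂ) (n : ℕ) :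
    HahnSeries.C ((n : ℂ) ^ (0 : ℤ)) * a = a := by
  rw [zpow_zero, map_one, one_mul]

private theorem phij_toC_inj : Function.Injective (lmap (Int.castRingHom ℂ)) := by
  intro a b h
  ext m
  have h1 := congrArg (fun x : LaurentSeries ℂ => x.coeff m) h
  have h2 : ((a.coeff m : ℤ) : ℂ) = ((b.coeff m : ℤ) : ℂ) := h1
  exact_mod_cast h2

private noncomputable def phij_g1 (τ : ℍ) : QXring 1 one_ne_zero →+* ℂ :=
  (Pi.evalRingHom (fun _ : ℍ => ℂ) τ).comp
    ((RingHom.fst (ℍ → ℂ) (LaurentSeries ℂ)).comp (QXring 1 one_ne_zero).subtype)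

private noncomputable def phij_g2 : QXring 1 one_ne_zero →+* LaurentSeries ℂ :=
  (RingHom.snd (ℍ → ℂ) (LaurentSeries ℂ)).comp (QXring 1 one_ne_zero).subtype

private theorem phij_QX (n i : ℕ) :
    QX 1 (fun τ => (PhiAt n (jL (tauLat τ))).coeff i) ((PhiAt n (toC Jq)).coeff i) := by
  let p : QXring 1 one_ne_zero := ⟨(fun τ => jL (tauLat τ), toC Jq), QX_jL⟩
  have h : QX 1 ((PhiAt n p).coeff i).1.1 ((PhiAt n p).coeff i).1.2 := ((PhiAt n p).coeff i).2
  have h1 : ((PhiAt n p).coeff i).1.1 = fun τ => (PhiAt n (jL (tauLat τ))).coeff i := by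
    funext τ
    have h2 := PhiAt_map (n := n) (phij_g1 τ) p
    have h3 := congrArg (fun P => Polynomial.coeff P i) h2
    simp only [Polynomial.coeff_map] at h3
    exact h3
  have h4 : ((PhiAt n p).coeff i).1.2 = (PhiAt n (toC Jq)).coeff i := by
    have h2 := PhiAt_map (n := n) phij_g2 p
    have h3 := congrArg (fun P => Polynomial.coeff P i) h2
    simp only [Polynomial.coeff_map] at h3
    exact h3
  rw [h1, h4] at h
  exact h

private theorem phij_main {n : ℕ} (hn : n.Prime) :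
    PhiAt n (toC Jq) = (X - C (lexp n (toC Jq))) * Nm n (toC Jq) := by
  have hn0 : n ≠ 0 := hn.ne_zero
  ext1 i
  by_cases hi : i ≤ n + 1
  · have hF : ∀ L L' : Submodule ℤ ℂ, Sup n L L' → ∀ m : ℂ, m ≠ 0 →
        m ^ (0 : ℤ) * (fun _ L' => jL L' : Submodule ℤ ℂ → Submodule ℤ ℂ → ℂ) (m • L) (m • L') =
          (fun _ L' => jL L' : Submodule ℤ ℂ → Submodule ℤ ℂ → ℂ) L L' := by
      intro L L' h m hm
      exact Wt_jL L' h.lat' m hm
    have ha : QX n (fun τ => (fun _ L' => jL L' : Submodule ℤ ℂ → Submodule ℤ ℂ → ℂ)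
        (tauLat τ) (supb n τ 0)) (toC Jq) := QX_supb hn0 (S := jL) QX_jL
    have hb : QX 1 (fun τ => (fun _ L' => jL L' : Submodule ℤ ℂ → Submodule ℤ ℂ → ℂ)
        (tauLat τ) (supi n τ)) (lexp n (toC Jq)) := by
      have h := QX_supi hn0 (S := jL) (k := 0) Wt_jL QX_jL
      rw [phij_C_one] at h
      exact h
    have h1 := (fam (F := fun _ L' => jL L') hn hF ha hb hi).2
    have h2 := phij_QX n i
    have h3 : (fun τ => (PhiAt n (jL (tauLat τ))).coeff i) = fun τ =>
        (∏ L' ∈ supF n (tauLat τ), (X - C (jL L'))).coeff i := by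
      funext τ
      rw [PhiAt_supF hn (Pool.Agent.Work.CM.tauLat_isLat τ)]
    rw [h3] at h2
    exact QX.unique one_ne_zero h2 h1
  · rw [not_le] at hi
    have h1 : (PhiAt n (toC Jq)).coeff i = 0 := by
      apply coeff_eq_zero_of_natDegree_lt
      rw [PhiAt_natDegree hn]
      exact hi
    have h2 : ((X - C (lexp n (toC Jq))) * Nm n (toC Jq)).coeff i = 0 := by
      apply coeff_eq_zero_of_natDegree_lt
      refine lt_of_le_of_lt natDegree_mul_le ?_
      rw [natDegree_X_sub_C, (Nm_monic n (toC Jq)).2]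
      omega
    rw [h1, h2]

theorem PhiAt_Jq {n : ℕ} (hn : n.Prime) :
    PhiAt n Jq = (X - C (lexp n Jq)) * Nm n Jq := by
  apply Polynomial.map_injective _ phij_toC_inj
  rw [PhiAt_map, Polynomial.map_mul, Polynomial.map_sub, map_X, map_C, Nm_map, lmap_lexp]
  exact phij_main hn

private theorem phij_lexp {A : Type*} [CommRing A] {n : ℕ} (hn : n ≠ 0) (a : LaurentSeries A) :
    lexp n (lexp n a) = lexp (n ^ 2) a := by
  have hn2 : n ^ 2 ≠ 0 := pow_ne_zero 2 hn
  ext m
  by_cases h1 : (n : ℤ) ∣ m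
  · obtain ⟨y, rfl⟩ := h1
    rw [lexp_coeff_mul hn]
    by_cases h2 : (n : ℤ) ∣ y
    · obtain ⟨z, rfl⟩ := h2
      rw [lexp_coeff_mul hn]
      have h3 : (n : ℤ) * ((n : ℤ) * z) = ((n ^ 2 : ℕ) : ℤ) * z := by
        push_cast
        ring
      rw [h3, lexp_coeff_mul hn2]
    · rw [lexp_coeff_of_not_dvd hn _ h2, lexp_coeff_of_not_dvd hn2]
      rintro ⟨z, hz⟩
      apply h2
      refine ⟨z, ?_⟩
      have h3 : (n : ℤ) * y = (n : ℤ) * ((n : ℤ) * z) := by
        rw [hz]
        push_cast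
        ring
      exact mul_left_cancel₀ (by exact_mod_cast hn) h3
  · rw [lexp_coeff_of_not_dvd hn _ h1, lexp_coeff_of_not_dvd hn2]
    rintro ⟨z, hz⟩
    apply h1
    refine ⟨(n : ℤ) * z, ?_⟩
    rw [hz]
    push_cast
    ring

theorem PhiAt_prod {K : Type*} [Field K] {n : ℕ} (hn : n.Prime) {ζ : K}
    (hζ : IsPrimitiveRoot ζ n) :
    PhiAt n (lexp n (lmap (Int.castRingHom K) Jq)) =
      (X - C (lexp (n ^ 2) (lmap (Int.castRingHom K) Jq))) *
        ∏ b ∈ Finset.range n, (X - C (lsc (ζ ^ b) (lmap (Int.castRingHom K) Jq))) := by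
  have h0 : PhiAt n (lmap (Int.castRingHom K) Jq) =
      (X - C (lexp n (lmap (Int.castRingHom K) Jq))) *
        Nm n (lmap (Int.castRingHom K) Jq) := by
    rw [← PhiAt_map, PhiAt_Jq hn, Polynomial.map_mul, Polynomial.map_sub, map_X, map_C, Nm_map,
      lmap_lexp]
  rw [← PhiAt_map, h0, Polynomial.map_mul, Polynomial.map_sub, map_X, map_C,
    Nm_prod hn.ne_zero hζ, phij_lexp hn.ne_zero]

end Pool.Agent.SS
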