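import Pool.Agent.Work.MP_a5099b_nt.B.Der
import Pool.Agent.Work.MP_a5099b_nt.B.SupQ

/-!
# Module B.Simple (M)

Simple zeros. Let `J(z) = jL (tauLat (ofComplex z))`, holomorphic on the upper half plane, and
`g(z) = (z + b)/n` or `g(z) = n z` (`g' = 1/n`, resp. `n`). `jL (supb n τ b) = J(g τ)` (`supb_eq`),
`jL (supi n τ) = J(g τ)` (`supi_eq`, `jL_smul`). Suppose `J(τ) = J(gτ)`. By `exists_sl_of_jL` there is
`γ ∈ SL(2, ℤ)` with `γτ = gτ`. `J(γz) = J(z)` for all `z` (`tauLat_smul`, `jL_smul`), so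
`J'(γτ) (cτ+d)^(-2) = J'(τ)`, `J'(gτ) = (cτ+d)^2 J'(τ)`. The derivative of `z ↦ J(z) - J(gz)` at `τ` is
`J'(τ) (1 - (cτ+d)^2 g')`. It is not zero: `J'(τ) ≠ 0` (`jL_deriv_ne`), and `(cτ+d)^2 g' = 1` would make
`(cτ+d)^2` a positive real number, so `cτ + d` real, `c = 0`, `d = ±1`, `g' = 1`: impossible as `n ≥ 2`. So the
function is analytic at `τ`, vanishes there and has a nonzero derivative: order 1
(`AnalyticAt.analyticOrderAt_eq_one_iff`-type lemma, `analyticOrderAt_eq_succ_iff...`).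
-/

set_option autoImplicit false

namespace Pool.Agent.SS

open UpperHalfPlane Polynomial
open Pool.Agent.Work.CM (IsLat g2 g3 tauLat)
open scoped Pointwise MatrixGroups Topology

private noncomputable def smJ (z : ℂ) : ℂ := jL (tauLat (ofComplex z))

private theorem smJ_open : IsOpen {z : ℂ | 0 < z.im} :=
  isOpen_lt continuous_const Complex.continuous_im

private theorem smJ_an {z : ℂ} (hz : 0 < z.im) : AnalyticAt ℂ smJ z :=
  jL_differentiable.analyticAt (smJ_open.mem_nhds hz)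

private theorem smJ_coe (τ : ℍ) : smJ τ = jL (tauLat τ) := by
  show jL (tauLat (ofComplex (τ : ℂ))) = _
  rw [ofComplex_apply]

private theorem smJ_smul (γ : SL(2, ℤ)) (τ : ℍ) : smJ ((γ • τ : ℍ) : ℂ) = smJ τ := by
  rw [smJ_coe, smJ_coe, ← tauLat_smul γ τ]
  exact (jL_smul (Pool.Agent.Work.CM.tauLat_isLat _) (denom_ne_zero _ _)).symm

private theorem sm_main {α β : ℝ} (hα : 0 < α) (hα1 : α ≠ 1) {τ : ℍ} (h0 : jL (tauLat τ) ≠ 0)
    (h1 : jL (tauLat τ) ≠ 1728) (h : smJ τ = smJ (α * τ + β)) :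
    analyticOrderAt (fun z : ℂ => smJ z - smJ (α * z + β)) τ = 1 := by
  have him : 0 < ((α : ℂ) * τ + β).im := by
    rw [Complex.add_im, Complex.mul_im, Complex.ofReal_re, Complex.ofReal_im, Complex.ofReal_im,
      zero_mul, add_zero, add_zero]
    exact mul_pos hα τ.im_pos
  let τ' : ℍ := ⟨(α : ℂ) * τ + β, him⟩
  have hτ' : (τ' : ℂ) = (α : ℂ) * τ + β := rfl
  have hJ : jL (tauLat τ) = jL (tauLat τ') := by
    rw [← smJ_coe, ← smJ_coe, hτ']
    exact h
  obtain ⟨γ, hγ⟩ := exists_sl_of_jL hJ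
  set a : ℂ := ((γ 0 0 : ℤ) : ℂ) with ha
  set b : ℂ := ((γ 0 1 : ℤ) : ℂ) with hb
  set c : ℂ := ((γ 1 0 : ℤ) : ℂ) with hc
  set d : ℂ := ((γ 1 1 : ℤ) : ℂ) with hd
  have hdetZ : γ 0 0 * γ 1 1 - γ 0 1 * γ 1 0 = 1 := by
    have := γ.det_coe
    rwa [Matrix.det_fin_two] at this
  have hdet : a * d - b * c = 1 := by
    rw [ha, hb, hc, hd]
    exact_mod_cast hdetZ
  have hcoe : ∀ σ : ℍ, ((γ • σ : ℍ) : ℂ) = (a * σ + b) / (c * σ + d) := by
    intro σ
    rw [coe_specialLinearGroup_apply]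
    simp [ha, hb, hc, hd]
  have hw : ∀ σ : ℍ, c * σ + d ≠ 0 := by
    intro σ hh
    have h2 := denom_ne_zero (γ : GL (Fin 2) ℝ) σ
    apply h2
    simpa [denom, hc, hd] using hh
  set w : ℂ := c * τ + d with hwdef
  -- the derivative of the transformation
  have hg : HasDerivAt (fun z : ℂ => (a * z + b) / (c * z + d)) (1 / w ^ 2) τ := by
    have e1 : HasDerivAt (fun z : ℂ => a * z + b) a τ := by
      simpa using ((hasDerivAt_id (τ : ℂ)).const_mul a).add_const b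
    have e2 : HasDerivAt (fun z : ℂ => c * z + d) c τ := by
      simpa using ((hasDerivAt_id (τ : ℂ)).const_mul c).add_const d
    have e3 := e1.div e2 (hw τ)
    have e4 : (a * (c * (τ : ℂ) + d) - (a * τ + b) * c) / (c * (τ : ℂ) + d) ^ 2 = 1 / w ^ 2 := by
      rw [← hwdef]
      congr 1
      rw [hwdef]
      linear_combination hdet
    rw [e4] at e3
    exact e3
  have hpt : (a * (τ : ℂ) + b) / (c * τ + d) = (α : ℂ) * τ + β := by
    rw [← hcoe, hγ, hτ']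
  have hJ' : HasDerivAt smJ (deriv smJ ((α : ℂ) * τ + β)) ((a * (τ : ℂ) + b) / (c * τ + d)) := by
    rw [hpt]
    exact (smJ_an him).differentiableAt.hasDerivAt
  have hcomp := hJ'.comp (τ : ℂ) hg
  have hev : (smJ ∘ fun z : ℂ => (a * z + b) / (c * z + d)) =ᶠ[𝓝 (τ : ℂ)] smJ := by
    filter_upwards [smJ_open.mem_nhds τ.im_pos] with z hz
    have h2 := smJ_smul γ ⟨z, hz⟩
    rw [hcoe] at h2
    exact h2
  have hd1 : deriv smJ τ = deriv smJ ((α : ℂ) * τ + β) * (1 / w ^ 2) :=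
    ((hcomp.congr_of_eventuallyEq hev.symm).deriv)
  have hne : deriv smJ τ ≠ 0 := jL_deriv_ne h0 h1
  -- the function
  have haff : HasDerivAt (fun z : ℂ => (α : ℂ) * z + β) α τ := by
    simpa using ((hasDerivAt_id (τ : ℂ)).const_mul (α : ℂ)).add_const (β : ℂ)
  have hanaff : AnalyticAt ℂ (fun z : ℂ => (α : ℂ) * z + β) τ := by fun_prop
  have hanJ2 : AnalyticAt ℂ (fun z : ℂ => smJ ((α : ℂ) * z + β)) τ :=
    AnalyticAt.fun_comp (g := smJ) (f := fun z : ℂ => (α : ℂ) * z + β) (smJ_an him) hanaff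
  have han : AnalyticAt ℂ (fun z : ℂ => smJ z - smJ (α * z + β)) τ :=
    (smJ_an τ.im_pos).sub hanJ2
  refine han.analyticOrderAt_eq_one_of_zero_deriv_ne_zero (by rw [h, sub_self]) ?_
  have hdd : HasDerivAt (fun z : ℂ => smJ z - smJ (α * z + β))
      (deriv smJ τ - deriv smJ ((α : ℂ) * τ + β) * α) τ := by
    have e1 := (smJ_an τ.im_pos).differentiableAt.hasDerivAt
    have e2 : HasDerivAt smJ (deriv smJ ((α : ℂ) * τ + β)) ((fun z : ℂ => (α : ℂ) * z + β) τ) :=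
      (smJ_an him).differentiableAt.hasDerivAt
    have e3 : HasDerivAt (fun z : ℂ => smJ (α * z + β)) (deriv smJ ((α : ℂ) * τ + β) * α) τ :=
      HasDerivAt.comp (h₂ := smJ) (h := fun z : ℂ => (α : ℂ) * z + β) (τ : ℂ) e2 haff
    exact e1.sub e3
  rw [hdd.deriv]
  intro hz
  have hw0 : w ≠ 0 := hw τ
  have hD : deriv smJ ((α : ℂ) * τ + β) = deriv smJ τ * w ^ 2 := by
    rw [hd1]
    field_simp
  rw [hD] at hz
  have h3 : deriv smJ τ * (1 - w ^ 2 * α) = 0 := by linear_combination hz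
  have h4 : 1 - w ^ 2 * (α : ℂ) = 0 := (mul_eq_zero.1 h3).resolve_left hne
  have h5 : w ^ 2 = ((α⁻¹ : ℝ) : ℂ) := by
    have hα0 : (α : ℂ) ≠ 0 := by exact_mod_cast hα.ne'
    rw [Complex.ofReal_inv]
    refine eq_inv_of_mul_eq_one_left ?_
    linear_combination -h4
  have h6 : w.re * w.im = 0 := by
    have := congrArg Complex.im h5
    rw [Complex.ofReal_im, pow_two, Complex.mul_im] at this
    linarith
  have h7 : w.re ^ 2 - w.im ^ 2 = α⁻¹ := by
    have := congrArg Complex.re h5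
    rw [Complex.ofReal_re, pow_two, Complex.mul_re] at this
    linarith
  have h8 : w.im = 0 := by
    rcases mul_eq_zero.1 h6 with h | h
    · have h9 : 0 < α⁻¹ := inv_pos.2 hα
      rw [h] at h7
      nlinarith [sq_nonneg w.im]
    · exact h
  have h9 : w.im = (γ 1 0 : ℝ) * τ.im := by
    rw [hwdef, hc, hd]
    simp
  rw [h8] at h9
  have h10 : γ 1 0 = 0 := by
    rcases mul_eq_zero.1 h9.symm with h | h
    · exact_mod_cast h
    · exact absurd h τ.im_pos.ne'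
  have h11 : γ 0 0 * γ 1 1 = 1 := by
    rw [h10, mul_zero, sub_zero] at hdetZ
    exact hdetZ
  have h12 : w ^ 2 = 1 := by
    rw [hwdef, hc, hd, h10]
    rcases Int.mul_eq_one_iff_eq_one_or_neg_one.1 h11 with ⟨-, h⟩ | ⟨-, h⟩ <;> rw [h] <;> simp
  rw [h12] at h5
  apply hα1
  have h13 : α⁻¹ = 1 := by exact_mod_cast h5.symm
  exact inv_eq_one.1 h13

private theorem sm_supb {n : ℕ} (hn : n ≠ 0) (b : ℤ) {z : ℂ} (hz : 0 < z.im) :
    jL (supb n (ofComplex z) b) = smJ (((1 / n : ℝ) : ℂ) * z + ((b / n : ℝ) : ℂ)) := by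
  have hn0 : (0 : ℝ) < n := by exact_mod_cast Nat.pos_of_ne_zero hn
  have him : 0 < (((1 / n : ℝ) : ℂ) * z + ((b / n : ℝ) : ℂ)).im := by
    rw [Complex.add_im, Complex.mul_im, Complex.ofReal_re, Complex.ofReal_im, Complex.ofReal_im,
      zero_mul, add_zero, add_zero]
    positivity
  have h1 := supb_eq (τ := ofComplex z) (τ' := ofComplex (((1 / n : ℝ) : ℂ) * z + ((b / n : ℝ) : ℂ)))
    (b := b) hn (by
      rw [ofComplex_apply_of_im_pos hz, ofComplex_apply_of_im_pos him]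
      have : (n : ℂ) ≠ 0 := by exact_mod_cast hn
      show ((1 / n : ℝ) : ℂ) * z + ((b / n : ℝ) : ℂ) = (z + b) / n
      push_cast
      field_simp)
  rw [h1]
  rfl

private theorem sm_supi {n : ℕ} (hn : n ≠ 0) {z : ℂ} (hz : 0 < z.im) :
    jL (supi n (ofComplex z)) = smJ (((n : ℝ) : ℂ) * z + ((0 : ℝ) : ℂ)) := by
  have hn0 : (0 : ℝ) < n := by exact_mod_cast Nat.pos_of_ne_zero hn
  have him : 0 < (((n : ℝ) : ℂ) * z + ((0 : ℝ) : ℂ)).im := by
    rw [Complex.add_im, Complex.mul_im, Complex.ofReal_re, Complex.ofReal_im, Complex.ofReal_im,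
      zero_mul, add_zero, add_zero]
    positivity
  have h1 := supi_eq (τ := ofComplex z) (τ' := ofComplex (((n : ℝ) : ℂ) * z + ((0 : ℝ) : ℂ))) hn (by
      rw [ofComplex_apply_of_im_pos hz, ofComplex_apply_of_im_pos him]
      show ((n : ℝ) : ℂ) * z + ((0 : ℝ) : ℂ) = n * z
      push_cast
      ring)
  rw [h1, jL_smul (Pool.Agent.Work.CM.tauLat_isLat _) (inv_ne_zero (by exact_mod_cast hn))]
  rfl

theorem simple_supb {n : ℕ} (hn : n.Prime) (b : ℤ) {τ : ℍ} (h0 : jL (tauLat τ) ≠ 0)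
    (h1 : jL (tauLat τ) ≠ 1728) (h : jL (tauLat τ) = jL (supb n τ b)) :
    analyticOrderAt (fun z : ℂ => jL (tauLat (ofComplex z)) - jL (supb n (ofComplex z) b)) τ =
      1 := by
  have hn0 : n ≠ 0 := hn.ne_zero
  have hn1 : (1 : ℝ) < n := by exact_mod_cast hn.one_lt
  have hα : (0 : ℝ) < 1 / n := by positivity
  have hα1 : (1 / n : ℝ) ≠ 1 := by
    rw [Ne, div_eq_one_iff_eq (by positivity)]
    exact hn1.ne
  have h2 := sm_supb hn0 b τ.im_pos
  have h3 : smJ τ = smJ (((1 / n : ℝ) : ℂ) * τ + ((b / n : ℝ) : ℂ)) := by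
    rw [← h2]
    show jL (tauLat (ofComplex (τ : ℂ))) = _
    rw [ofComplex_apply]
    exact h
  rw [← sm_main hα hα1 h0 h1 h3]
  apply analyticOrderAt_congr
  filter_upwards [smJ_open.mem_nhds τ.im_pos] with z hz
  rw [sm_supb hn0 b hz]
  rfl

theorem simple_supi {n : ℕ} (hn : n.Prime) {τ : ℍ} (h0 : jL (tauLat τ) ≠ 0)
    (h1 : jL (tauLat τ) ≠ 1728) (h : jL (tauLat τ) = jL (supi n τ)) :
    analyticOrderAt (fun z : ℂ => jL (tauLat (ofComplex z)) - jL (supi n (ofComplex z))) τ =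
      1 := by
  have hn0 : n ≠ 0 := hn.ne_zero
  have hn1 : (1 : ℝ) < n := by exact_mod_cast hn.one_lt
  have h2 := sm_supi hn0 τ.im_pos
  have h3 : smJ τ = smJ (((n : ℝ) : ℂ) * τ + ((0 : ℝ) : ℂ)) := by
    rw [← h2]
    show jL (tauLat (ofComplex (τ : ℂ))) = _
    rw [ofComplex_apply]
    exact h
  rw [← sm_main (by linarith) hn1.ne' h0 h1 h3]
  apply analyticOrderAt_congr
  filter_upwards [smJ_open.mem_nhds τ.im_pos] with z hz
  rw [sm_supi hn0 hz]
  rfl

/-- the other factors do not vanish, and are analytic -/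
theorem analytic_supb {n : ℕ} (hn : n.Prime) (b : ℤ) (τ : ℍ) :
    AnalyticAt ℂ (fun z : ℂ => jL (supb n (ofComplex z) b)) τ := by
  have hn0 : n ≠ 0 := hn.ne_zero
  have hn1 : (0 : ℝ) < n := by exact_mod_cast hn.pos
  have hev : (fun z : ℂ => jL (supb n (ofComplex z) b)) =ᶠ[𝓝 (τ : ℂ)]
      fun z => smJ (((1 / n : ℝ) : ℂ) * z + ((b / n : ℝ) : ℂ)) := by
    filter_upwards [smJ_open.mem_nhds τ.im_pos] with z hz
    exact sm_supb hn0 b hz
  refine AnalyticAt.congr ?_ hev.symm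
  refine AnalyticAt.fun_comp (g := smJ)
    (f := fun z : ℂ => ((1 / n : ℝ) : ℂ) * z + ((b / n : ℝ) : ℂ)) (smJ_an ?_) (by fun_prop)
  rw [Complex.add_im, Complex.mul_im, Complex.ofReal_re, Complex.ofReal_im, Complex.ofReal_im,
    zero_mul, add_zero, add_zero]
  exact mul_pos (by positivity) τ.im_pos

theorem analytic_supi {n : ℕ} (hn : n.Prime) (τ : ℍ) :
    AnalyticAt ℂ (fun z : ℂ => jL (supi n (ofComplex z))) τ := by
  have hn0 : n ≠ 0 := hn.ne_zero
  have hn1 : (0 : ℝ) < n := by exact_mod_cast hn.pos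
  have hev : (fun z : ℂ => jL (supi n (ofComplex z))) =ᶠ[𝓝 (τ : ℂ)]
      fun z => smJ (((n : ℝ) : ℂ) * z + ((0 : ℝ) : ℂ)) := by
    filter_upwards [smJ_open.mem_nhds τ.im_pos] with z hz
    exact sm_supi hn0 hz
  refine AnalyticAt.congr ?_ hev.symm
  refine AnalyticAt.fun_comp (g := smJ)
    (f := fun z : ℂ => ((n : ℝ) : ℂ) * z + ((0 : ℝ) : ℂ)) (smJ_an ?_) (by fun_prop)
  rw [Complex.add_im, Complex.mul_im, Complex.ofReal_re, Complex.ofReal_im, Complex.ofReal_im,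
    zero_mul, add_zero, add_zero]
  exact mul_pos hn1 τ.im_pos

end Pool.Agent.SS
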