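import Pool.Agent.Work.MP_a5099b_nt.A.Defs
import Pool.Agent.Work.CM.Rep

/-!
# Module B.SupD (M-L)

The superlattices of index `n` (`n` prime) of `L = ℤτ + ℤ`.

(1) `supb n τ b` and `supi n τ` are lattices containing `L` with index `n`: on
`supb = ℤ (τ+b)/n + ℤ` the map `x (τ+b)/n + y ↦ x mod n` is onto `ZMod n` with kernel
`{n x' (τ+b)/n + y} = {x' τ + (x' b + y)} = L`; on `supi = ℤ τ + ℤ (1/n)` take `x τ + y/n ↦ y mod n`. So the relative
index is `n` (`AddSubgroup.relIndex`, `AddSubgroup.index_ker`, `Nat.card_zmod`).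

(2) Let `L ⊆ L'` be of index `n`. Then `n L' ⊆ L` and there is `u ∈ L'`, `u ∉ L`; `n u = xτ + y` with
`(x, y) ≠ (0, 0) mod n`, and `L' = L + ℤu` (the group `L'/L` has prime order). If `n ∤ x`: choose `x'` with
`x x' = 1 + n k`; then `x' u = (τ + x'y)/n + kτ`, so `(τ + b)/n ∈ L'` for `b = (x'y) mod n`, `0 ≤ b < n`
(modify by an integer), so `supb n τ b ≤ L'`, and both have index `n` over `L`: equality
(`AddSubgroup.relIndex_mul_relIndex`, relative index 1). If `n ∣ x`: `n ∤ y`, `u ≡ y/n mod L`, so `1/n ∈ L'`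
and `L' = supi n τ`.

(3) They are different: `1/n ∈ supi` but `1/n ∉ supb n τ b` (`1/n = x(τ+b)/n + y` gives `x = 0`), and
`(τ+b)/n - (τ+b')/n = (b - b')/n ∈ supb` only if `n ∣ b - b'`.
-/

set_option autoImplicit false

namespace Pool.Agent.SS

open UpperHalfPlane Polynomial
open Pool.Agent.Work.CM (IsLat g2 g3 tauLat)
open scoped Pointwise MatrixGroups

/-- the relative index from a generator of the quotient -/
private theorem relIndex_of_gen {n : ℕ} (hn : n.Prime) {L L' : Submodule ℤ ℂ} {u : ℂ} (hu : u ∈ L')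
    (hu' : u ∉ L) (hnu : (n : ℂ) * u ∈ L) (h : ∀ z ∈ L', ∃ k : ℤ, z - k * u ∈ L) :
    L.toAddSubgroup.relIndex L'.toAddSubgroup = n := by
  let H : AddSubgroup L'.toAddSubgroup := L.toAddSubgroup.addSubgroupOf L'.toAddSubgroup
  have hmem : ∀ z : L'.toAddSubgroup, z ∈ H ↔ (z : ℂ) ∈ L := fun z => by
    rw [AddSubgroup.mem_addSubgroupOf]
    rfl
  let U : L'.toAddSubgroup := ⟨u, hu⟩
  let ub : L'.toAddSubgroup ⧸ H := QuotientAddGroup.mk U
  have hfact : Fact n.Prime := ⟨hn⟩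
  have hord : addOrderOf ub = n := by
    refine addOrderOf_eq_prime ?_ ?_
    · have h1 : n • ub = QuotientAddGroup.mk (n • U) := rfl
      rw [h1, QuotientAddGroup.eq_zero_iff, hmem]
      have h2 : ((n • U : L'.toAddSubgroup) : ℂ) = (n : ℂ) * u := by
        rw [AddSubgroup.coe_nsmul, nsmul_eq_mul]
      rw [h2]
      exact hnu
    · intro h1
      rw [QuotientAddGroup.eq_zero_iff, hmem] at h1
      exact hu' h1
  have htop : AddSubgroup.zmultiples ub = ⊤ := by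
    rw [eq_top_iff]
    rintro x -
    induction x using QuotientAddGroup.induction_on with
    | H z =>
      obtain ⟨k, hk⟩ := h z z.2
      rw [AddSubgroup.mem_zmultiples_iff]
      refine ⟨k, ?_⟩
      have h1 : k • ub = QuotientAddGroup.mk (k • U) := rfl
      rw [h1, QuotientAddGroup.eq, hmem]
      have h2 : ((-(k • U) + z : L'.toAddSubgroup) : ℂ) = z - k * u := by
        rw [AddSubgroup.coe_add, AddSubgroup.coe_neg, AddSubgroup.coe_zsmul, zsmul_eq_mul]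
        show -((k : ℂ) * u) + z = z - k * u
        ring
      rw [h2]
      exact hk
  have h3 : L.toAddSubgroup.relIndex L'.toAddSubgroup = Nat.card (L'.toAddSubgroup ⧸ H) := rfl
  rw [h3, ← hord, ← Nat.card_zmultiples, htop]
  exact (Nat.card_congr (Equiv.Set.univ _)).symm

private theorem eq_of_le {n : ℕ} (hn : n.Prime) {L M L' : Submodule ℤ ℂ} (h1 : Sup n L M) (h2 : Sup n L L')
    (h : M ≤ L') : L' = M := by
  have e := AddSubgroup.relIndex_mul_relIndex L.toAddSubgroup M.toAddSubgroup L'.toAddSubgroup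
    h1.le h
  rw [h1.idx, h2.idx] at e
  have e1 : M.toAddSubgroup.relIndex L'.toAddSubgroup = 1 :=
    Nat.eq_of_mul_eq_mul_left hn.pos (by rw [e, mul_one])
  rw [AddSubgroup.relIndex_eq_one] at e1
  exact le_antisymm e1 h

private theorem mem_tau {τ : ℍ} {z : ℂ} : z ∈ tauLat τ ↔ ∃ x y : ℤ, (x : ℂ) * τ + y = z := by
  rw [tauLat, Submodule.mem_span_pair]
  simp only [zsmul_eq_mul, mul_one]

private theorem mem_supb {n : ℕ} {τ : ℍ} {b : ℤ} {z : ℂ} :
    z ∈ supb n τ b ↔ ∃ x y : ℤ, (x : ℂ) * (((τ : ℂ) + b) / n) + y = z := by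
  rw [supb, Submodule.mem_span_pair]
  simp only [zsmul_eq_mul, mul_one]

private theorem mem_supi {n : ℕ} {τ : ℍ} {z : ℂ} :
    z ∈ supi n τ ↔ ∃ x y : ℤ, (x : ℂ) * τ + y * (1 / (n : ℂ)) = z := by
  rw [supi, Submodule.mem_span_pair]
  simp only [zsmul_eq_mul]

/-- coordinates are unique -/
private theorem coord {τ : ℍ} {x y x' y' : ℤ} (h : (x : ℂ) * τ + y = x' * τ + y') : x = x' ∧ y = y' := by
  have h1 := congrArg Complex.im h
  simp at h1
  have h2 : x = x' := by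
    rcases h1 with h1 | h1
    · exact h1
    · exact absurd h1 τ.im_ne_zero
  subst h2
  have h3 : (y : ℂ) = y' := add_left_cancel h
  exact ⟨rfl, by exact_mod_cast h3⟩

theorem Sup_supb {n : ℕ} (hn : n.Prime) (τ : ℍ) (b : ℤ) : Sup n (tauLat τ) (supb n τ b) := by
  have hn0 : (n : ℂ) ≠ 0 := by exact_mod_cast hn.ne_zero
  have hnR : (0 : ℝ) < n := by exact_mod_cast hn.pos
  have hu : ((τ : ℂ) + b) / n ∈ supb n τ b := mem_supb.2 ⟨1, 0, by push_cast; ring⟩
  refine ⟨Pool.Agent.Work.CM.tauLat_isLat τ, ?_, ?_, ?_⟩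
  · have him : 0 < (((τ : ℂ) + b) / n).im := by
      have h1 : (((τ : ℂ) + b) / n).im = τ.im / n := by
        rw [Complex.div_natCast_im]
        simp
      rw [h1]
      exact div_pos τ.im_pos hnR
    exact Pool.Agent.Work.CM.tauLat_isLat ⟨((τ : ℂ) + b) / n, him⟩
  · intro z hz
    obtain ⟨x, y, rfl⟩ := mem_tau.1 hz
    refine mem_supb.2 ⟨n * x, y - x * b, ?_⟩
    push_cast
    field_simp
    ring
  · refine relIndex_of_gen hn hu ?_ ?_ ?_
    · intro h
      obtain ⟨x, y, hxy⟩ := mem_tau.1 h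
      have h1 : ((n * x : ℤ) : ℂ) * τ + ((n * y : ℤ) : ℂ) = ((1 : ℤ) : ℂ) * τ + ((b : ℤ) : ℂ) := by
        rw [eq_div_iff hn0] at hxy
        push_cast
        linear_combination hxy
      have h2 := (coord h1).1
      have h3 : (n : ℤ) ∣ 1 := ⟨x, h2.symm⟩
      have h4 : n ∣ 1 := by exact_mod_cast h3
      exact hn.one_lt.ne' (Nat.dvd_one.1 h4)
    · rw [mul_div_cancel₀ _ hn0]
      exact mem_tau.2 ⟨1, b, by push_cast; ring⟩
    · intro z hz
      obtain ⟨x, y, rfl⟩ := mem_supb.1 hz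
      refine ⟨x, mem_tau.2 ⟨0, y, ?_⟩⟩
      push_cast
      ring

theorem Sup_supi {n : ℕ} (hn : n.Prime) (τ : ℍ) : Sup n (tauLat τ) (supi n τ) := by
  have hn0 : (n : ℂ) ≠ 0 := by exact_mod_cast hn.ne_zero
  have hnR : (0 : ℝ) < n := by exact_mod_cast hn.pos
  have hu : 1 / (n : ℂ) ∈ supi n τ := mem_supi.2 ⟨0, 1, by push_cast; ring⟩
  refine ⟨Pool.Agent.Work.CM.tauLat_isLat τ, ?_, ?_, ?_⟩
  · have hind : LinearIndependent ℝ ![(τ : ℂ), 1 / (n : ℂ)] := by
      rw [LinearIndependent.pair_iff]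
      intro s t h
      have h1 := congrArg Complex.im h
      have h0 : (1 / (n : ℂ)) = ((1 / n : ℝ) : ℂ) := by push_cast; rfl
      rw [h0] at h h1
      simp at h1
      have h3 : s = 0 := by
        rcases h1 with h1 | h1
        · exact h1
        · exact absurd h1 τ.im_ne_zero
      subst h3
      rw [zero_smul, zero_add, Complex.real_smul, ← Complex.ofReal_mul] at h
      have h4 : t * (1 / n) = 0 := by exact_mod_cast h
      refine ⟨rfl, ?_⟩
      rcases mul_eq_zero.1 h4 with h5 | h5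
      · exact h5
      · exact absurd h5 (by positivity)
    exact ⟨⟨(τ : ℂ), 1 / (n : ℂ), hind⟩, rfl⟩
  · intro z hz
    obtain ⟨x, y, rfl⟩ := mem_tau.1 hz
    refine mem_supi.2 ⟨x, n * y, ?_⟩
    push_cast
    field_simp
  · refine relIndex_of_gen hn hu ?_ ?_ ?_
    · intro h
      obtain ⟨x, y, hxy⟩ := mem_tau.1 h
      have h1 : ((n * x : ℤ) : ℂ) * τ + ((n * y : ℤ) : ℂ) = ((0 : ℤ) : ℂ) * τ + ((1 : ℤ) : ℂ) := by
        rw [eq_div_iff hn0] at hxy
        push_cast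
        linear_combination hxy
      have h2 := (coord h1).2
      have h3 : (n : ℤ) ∣ 1 := ⟨y, h2.symm⟩
      have h4 : n ∣ 1 := by exact_mod_cast h3
      exact hn.one_lt.ne' (Nat.dvd_one.1 h4)
    · rw [mul_div_cancel₀ _ hn0]
      exact mem_tau.2 ⟨0, 1, by push_cast; ring⟩
    · intro z hz
      obtain ⟨x, y, rfl⟩ := mem_supi.1 hz
      refine ⟨y, mem_tau.2 ⟨x, 0, ?_⟩⟩
      push_cast
      ring

theorem Sup_tauLat {n : ℕ} (hn : n.Prime) {τ : ℍ} {L' : Submodule ℤ ℂ}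
    (h : Sup n (tauLat τ) L') : L' = supi n τ ∨ ∃ b : ℕ, b < n ∧ L' = supb n τ b := by
  have hn0 : (n : ℂ) ≠ 0 := by exact_mod_cast hn.ne_zero
  have hnZ : Prime (n : ℤ) := Nat.prime_iff_prime_int.1 hn
  have hτL' : (τ : ℂ) ∈ L' := h.le (mem_tau.2 ⟨1, 0, by push_cast; ring⟩)
  have h1L' : ∀ y : ℤ, (y : ℂ) ∈ L' := fun y => h.le (mem_tau.2 ⟨0, y, by push_cast; ring⟩)
  have hzs : ∀ (k : ℤ) (z : ℂ), z ∈ L' → (k : ℂ) * z ∈ L' := by
    intro k z hz
    rw [← zsmul_eq_mul]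
    exact L'.smul_mem k hz
  have hnot : ¬ L' ≤ tauLat τ := by
    intro hle
    have h1 : (tauLat τ).toAddSubgroup.relIndex L'.toAddSubgroup = 1 :=
      AddSubgroup.relIndex_eq_one.2 hle
    rw [h.idx] at h1
    exact hn.one_lt.ne' h1
  obtain ⟨u, hu, hu'⟩ := SetLike.not_le_iff_exists.1 hnot
  have hnu : (n : ℂ) * u ∈ tauLat τ := by
    let H : AddSubgroup L'.toAddSubgroup := (tauLat τ).toAddSubgroup.addSubgroupOf L'.toAddSubgroup
    have h1 : H.index • (⟨u, hu⟩ : L'.toAddSubgroup) ∈ H := H.nsmul_index_mem _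
    have h2 : H.index = n := h.idx
    rw [h2, AddSubgroup.mem_addSubgroupOf, AddSubgroup.coe_nsmul, nsmul_eq_mul] at h1
    exact h1
  obtain ⟨x, y, hxy⟩ := mem_tau.1 hnu
  by_cases hx : (n : ℤ) ∣ x
  · left
    obtain ⟨x₁, rfl⟩ := hx
    have hy : ¬ (n : ℤ) ∣ y := by
      rintro ⟨y₁, rfl⟩
      refine hu' (mem_tau.2 ⟨x₁, y₁, ?_⟩)
      refine mul_left_cancel₀ hn0 ?_
      rw [← hxy]
      push_cast
      ring
    have hco : IsCoprime y (n : ℤ) := ((Prime.coprime_iff_not_dvd hnZ).2 hy).symm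
    obtain ⟨a, c, hac⟩ := hco
    have hac' : (a : ℂ) * y + c * n = 1 := by exact_mod_cast hac
    have hmem : 1 / (n : ℂ) ∈ L' := by
      have h1 : 1 / (n : ℂ) = (a : ℂ) * (u - x₁ * τ) + c := by
        rw [div_eq_iff hn0]
        push_cast at hxy
        linear_combination (a : ℂ) * hxy - hac'
      rw [h1]
      exact L'.add_mem (hzs a _ (L'.sub_mem hu (hzs x₁ _ hτL'))) (h1L' c)
    refine eq_of_le hn (Sup_supi hn τ) h ?_
    intro z hz
    obtain ⟨r, s, rfl⟩ := mem_supi.1 hz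
    exact L'.add_mem (hzs r _ hτL') (hzs s _ hmem)
  · right
    have hco : IsCoprime x (n : ℤ) := ((Prime.coprime_iff_not_dvd hnZ).2 hx).symm
    obtain ⟨a, c, hac⟩ := hco
    have hac' : (a : ℂ) * x + c * n = 1 := by exact_mod_cast hac
    have hnpos : (0 : ℤ) < n := by exact_mod_cast hn.pos
    obtain ⟨b, hb⟩ := Int.eq_ofNat_of_zero_le (Int.emod_nonneg (a * y) hnpos.ne')
    have hbn : b < n := by
      have := Int.emod_lt_of_pos (a * y) hnpos
      rw [hb] at this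
      exact_mod_cast this
    have hdiv : a * y = n * (a * y / n) + b := by
      have := Int.mul_ediv_add_emod (a * y) n
      rw [hb] at this
      exact this.symm
    have hdiv' : (a : ℂ) * y = n * ((a * y / n : ℤ) : ℂ) + b := by
      have := congrArg (fun k : ℤ => (k : ℂ)) hdiv
      push_cast at this
      push_cast
      exact this
    have hmem : ((τ : ℂ) + (b : ℤ)) / n ∈ L' := by
      have h1 : ((τ : ℂ) + (b : ℤ)) / n = (a : ℂ) * u + c * τ - ((a * y / n : ℤ) : ℂ) := by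
        rw [div_eq_iff hn0]
        push_cast at hdiv' ⊢
        linear_combination (a : ℂ) * hxy - (τ : ℂ) * hac' - hdiv'
      rw [h1]
      exact L'.sub_mem (L'.add_mem (hzs a _ hu) (hzs c _ hτL')) (h1L' _)
    refine ⟨b, hbn, eq_of_le hn (Sup_supb hn τ b) h ?_⟩
    intro z hz
    obtain ⟨r, s, rfl⟩ := mem_supb.1 hz
    exact L'.add_mem (hzs r _ hmem) (h1L' s)

theorem supb_ne_supi {n : ℕ} (hn : n.Prime) (τ : ℍ) (b : ℤ) : supb n τ b ≠ supi n τ := by
  have hn0 : (n : ℂ) ≠ 0 := by exact_mod_cast hn.ne_zero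
  intro h
  have hu : 1 / (n : ℂ) ∈ supi n τ := mem_supi.2 ⟨0, 1, by push_cast; ring⟩
  rw [← h] at hu
  obtain ⟨x, y, hxy⟩ := mem_supb.1 hu
  have h1 : ((x : ℤ) : ℂ) * τ + ((x * b + n * y : ℤ) : ℂ) = ((0 : ℤ) : ℂ) * τ + ((1 : ℤ) : ℂ) := by
    have h2 := congrArg (fun z : ℂ => n * z) hxy
    field_simp at h2
    push_cast
    linear_combination h2
  obtain ⟨h2, h3⟩ := coord h1
  rw [h2, zero_mul, zero_add] at h3
  have h4 : (n : ℤ) ∣ 1 := ⟨y, h3.symm⟩
  have h5 : n ∣ 1 := by exact_mod_cast h4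
  exact hn.one_lt.ne' (Nat.dvd_one.1 h5)

theorem supb_inj {n : ℕ} (hn : n.Prime) (τ : ℍ) {b b' : ℕ} (hb : b < n) (hb' : b' < n)
    (h : supb n τ b = supb n τ b') : b = b' := by
  have hn0 : (n : ℂ) ≠ 0 := by exact_mod_cast hn.ne_zero
  have hu : ((τ : ℂ) + (b : ℤ)) / n ∈ supb n τ b := mem_supb.2 ⟨1, 0, by push_cast; ring⟩
  rw [h] at hu
  obtain ⟨x, y, hxy⟩ := mem_supb.1 hu
  have h1 : ((x : ℤ) : ℂ) * τ + ((x * b' + n * y : ℤ) : ℂ) = ((1 : ℤ) : ℂ) * τ + ((b : ℤ) : ℂ) := by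
    have h2 := congrArg (fun z : ℂ => n * z) hxy
    field_simp at h2
    push_cast
    push_cast at h2
    linear_combination h2
  obtain ⟨h2, h3⟩ := coord h1
  rw [h2, one_mul] at h3
  have h4 : (b : ℤ) ≡ b' [ZMOD n] := by
    rw [← h3]
    exact (Int.modEq_iff_dvd.2 ⟨y, by ring⟩ : (b' : ℤ) ≡ b' + n * y [ZMOD n]).symm
  have h5 : b ≡ b' [MOD n] := (Int.natCast_modEq_iff).1 h4
  exact Nat.ModEq.eq_of_lt_of_lt h5 hb hb'

end Pool.Agent.SS
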